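import Pool.Agent.H33.V.KK

/-! ACL: the ultrapower is algebraically closed; automorphisms -/

open Matrix Filter Topology

namespace Pool.H33.V

theorem acl_root (d : ℕ) (hd : 0 < d) (a : ℕ → ℂ) :
    ∃ r : ℂ, r ^ d + ∑ i ∈ Finset.range d, a i * r ^ i = 0 := by
  let q : Polynomial ℂ := ∑ i ∈ Finset.range d, Polynomial.C (a i) * Polynomial.X ^ i
  have hq : q.degree < d := by
    refine lt_of_le_of_lt (Polynomial.degree_sum_le _ _) ?_
    refine (Finset.sup_lt_iff (WithBot.bot_lt_coe d)).mpr ?_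
    intro i hi
    refine lt_of_le_of_lt (Polynomial.degree_C_mul_X_pow_le i (a i)) ?_
    exact WithBot.coe_lt_coe.mpr (Finset.mem_range.mp hi)
  have hdeg : (Polynomial.X ^ d + q : Polynomial ℂ).degree = (d : WithBot ℕ) := by
    rw [Polynomial.degree_add_eq_left_of_degree_lt]
    · exact Polynomial.degree_X_pow d
    · rw [Polynomial.degree_X_pow]; exact hq
  obtain ⟨r, hr⟩ := IsAlgClosed.exists_root (Polynomial.X ^ d + q) (by
    rw [hdeg]
    exact_mod_cast hd.ne')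
  refine ⟨r, ?_⟩
  have h1 : (Polynomial.X ^ d + q : Polynomial ℂ).eval r = 0 := hr
  rw [Polynomial.eval_add, Polynomial.eval_pow, Polynomial.eval_X,
    Polynomial.eval_finsetSum] at h1
  simpa using h1

instance KK_isAlgClosed : IsAlgClosed KK := by
  apply IsAlgClosed.of_exists_root
  intro p hp hirr
  have hd : 0 < p.natDegree := hirr.natDegree_pos
  choose a ha using fun i : ℕ => mk_surj (p.coeff i)
  choose r hr using fun k : ℕ => acl_root p.natDegree hd (fun i => a i k)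
  refine ⟨mk r, ?_⟩
  rw [Polynomial.eval_eq_sum_range, Finset.sum_range_succ]
  have h1 : p.coeff p.natDegree = 1 := hp
  rw [h1, one_mul]
  have h2 : mk (r ^ p.natDegree + ∑ i ∈ Finset.range p.natDegree, a i * r ^ i) = 0 := by
    have h3 : (r ^ p.natDegree + ∑ i ∈ Finset.range p.natDegree, a i * r ^ i) = 0 := by
      funext k
      rw [Pi.add_apply, Finset.sum_apply]
      exact hr k
    rw [h3, map_zero]
  rw [map_add, map_sum, map_pow] at h2
  rw [add_comm, ← h2]
  congr 1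
  refine Finset.sum_congr rfl fun i _ => ?_
  rw [map_mul, map_pow, ha]

theorem acl_transc {f : KK} (hf : f ∉ Set.range (algebraMap ℂ KK)) : Transcendental ℂ f := by
  intro h
  apply hf
  have h1 : IsIntegral ℂ f := h.isIntegral
  exact minpoly.mem_range_of_degree_eq_one ℂ f
    (IsAlgClosed.degree_eq_one_of_irreducible ℂ (minpoly.irreducible h1))

theorem acl_basis {f : KK} (hf : f ∉ Set.range (algebraMap ℂ KK)) :
    ∃ t : Set KK, f ∈ t ∧ IsTranscendenceBasis ℂ ((↑) : t → KK) := by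
  have h1 : AlgebraicIndepOn ℂ id ({f} : Set KK) := by
    have h2 := (algebraicIndependent_singleton_iff (R := ℂ)
      (x := fun i : ({f} : Set KK) => id (i : KK)) ⟨f, rfl⟩).mpr (acl_transc hf)
    exact h2
  obtain ⟨t, ht, hb⟩ := exists_isTranscendenceBasis_superset h1
  exact ⟨t, ht rfl, hb⟩

theorem exists_aut {f g : KK} (hf : f ∉ Set.range (algebraMap ℂ KK))
    (hg : g ∉ Set.range (algebraMap ℂ KK)) :
    ∃ σ : KK ≃+* KK, (∀ c : ℂ, σ (algebraMap ℂ KK c) = algebraMap ℂ KK c) ∧ σ f = g := by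
  obtain ⟨t, hft, hv⟩ := acl_basis hf
  obtain ⟨t', hgt, hw⟩ := acl_basis hg
  obtain ⟨e0⟩ := Cardinal.eq.mp (hv.cardinalMk_eq hw)
  classical
  let e : t ≃ t' := e0.trans (Equiv.swap (e0 ⟨f, hft⟩) ⟨g, hgt⟩)
  have he : e ⟨f, hft⟩ = ⟨g, hgt⟩ := by
    change Equiv.swap (e0 ⟨f, hft⟩) ⟨g, hgt⟩ (e0 ⟨f, hft⟩) = _
    rw [Equiv.swap_apply_left]
  let A := Algebra.adjoin ℂ (Set.range ((↑) : t → KK))
  let B := Algebra.adjoin ℂ (Set.range ((↑) : t' → KK))
  let i1 : IsAlgClosure A KK := IsAlgClosed.isAlgClosure_of_transcendence_basis _ hv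
  let i2 : IsAlgClosure B KK := IsAlgClosed.isAlgClosure_of_transcendence_basis _ hw
  let E : A ≃ₐ[ℂ] B :=
    hv.1.aevalEquiv.symm.trans ((MvPolynomial.renameEquiv ℂ e).trans hw.1.aevalEquiv)
  let σ : KK ≃+* KK := IsAlgClosure.equivOfEquiv KK KK E.toRingEquiv
  have hσ : ∀ x : A, σ (algebraMap A KK x) = algebraMap B KK (E x) := fun x =>
    IsAlgClosure.equivOfEquiv_algebraMap KK KK E.toRingEquiv x
  refine ⟨σ, ?_, ?_⟩
  · intro c
    have h1 : algebraMap ℂ KK c = algebraMap A KK (algebraMap ℂ A c) := rfl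
    have h2 : algebraMap ℂ KK c = algebraMap B KK (algebraMap ℂ B c) := rfl
    rw [h1, hσ, E.commutes, ← h2]; rfl
  · have h1 : algebraMap A KK (hv.1.aevalEquiv (MvPolynomial.X ⟨f, hft⟩)) = f := by
      rw [hv.1.algebraMap_aevalEquiv, MvPolynomial.aeval_X]
    have h2 : algebraMap B KK (hw.1.aevalEquiv (MvPolynomial.X ⟨g, hgt⟩)) = g := by
      rw [hw.1.algebraMap_aevalEquiv, MvPolynomial.aeval_X]
    have h3 : E (hv.1.aevalEquiv (MvPolynomial.X ⟨f, hft⟩))
        = hw.1.aevalEquiv (MvPolynomial.X ⟨g, hgt⟩) := by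
      change hw.1.aevalEquiv (MvPolynomial.rename e
        (hv.1.aevalEquiv.symm (hv.1.aevalEquiv (MvPolynomial.X ⟨f, hft⟩)))) = _
      rw [AlgEquiv.symm_apply_apply, MvPolynomial.rename_X, he]
    have h4 := hσ (hv.1.aevalEquiv (MvPolynomial.X ⟨f, hft⟩))
    rw [h1, h3, h2] at h4
    exact h4

end Pool.H33.V
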