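import Pool.Agent.H33.V.Defs

/-! CHART: coordinates adapted to an ideal of codimension one -/

open Matrix Filter Topology

namespace Pool.H33.V

/-- the structure constants of the ideal spanned by the columns of `P` other than the first -/
noncomputable def pullA {N : ℕ} (μ : Arr ℂ (N + 1)) (P : Matrix (Fin (N + 1)) (Fin (N + 1)) ℂ) :
    Arr ℂ N := fun i j k =>
  (P⁻¹ *ᵥ br μ (P *ᵥ Pi.single i.succ 1) (P *ᵥ Pi.single j.succ 1)) k.succ

/-- the action of the first column of `P` on the ideal -/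
noncomputable def pullD {N : ℕ} (μ : Arr ℂ (N + 1)) (P : Matrix (Fin (N + 1)) (Fin (N + 1)) ℂ) :
    Matrix (Fin N) (Fin N) ℂ := Matrix.of fun k j =>
  (P⁻¹ *ᵥ br μ (P *ᵥ Pi.single 0 1) (P *ᵥ Pi.single j.succ 1)) k.succ

theorem chart_anti {N : ℕ} {c : Arr ℂ N} (h : ∀ x, br c x x = 0) (x y : Fin N → ℂ) :
    br c x y = - br c y x := by
  have h1 := h (x + y)
  rw [br_add_left, br_add_right, br_add_right, h x, h y, zero_add, add_zero] at h1
  exact eq_neg_of_add_eq_zero_left h1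

/-- the structure constants transported by `P` -/
noncomputable def chartC {N : ℕ} (μ : Arr ℂ N) (P : Matrix (Fin N) (Fin N) ℂ) : Arr ℂ N :=
  fun i j => P⁻¹ *ᵥ br μ (P *ᵥ Pi.single i 1) (P *ᵥ Pi.single j 1)

theorem chart_br_chartC {N : ℕ} (μ : Arr ℂ N) (P : Matrix (Fin N) (Fin N) ℂ)
    (u v : Fin N → ℂ) : br (chartC μ P) u v = P⁻¹ *ᵥ br μ (P *ᵥ u) (P *ᵥ v) := by
  revert u v
  apply bilin_ext (E := Fin N → ℂ) (fun x y => br (chartC μ P) x y)
    (fun x y => P⁻¹ *ᵥ br μ (P *ᵥ x) (P *ᵥ y))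
  · intro x x' y; exact br_add_left _ _ _ _
  · intro r x y; exact br_smul_left _ _ _ _
  · intro x y y'; exact br_add_right _ _ _ _
  · intro r x y; exact br_smul_right _ _ _ _
  · intro x x' y
    change P⁻¹ *ᵥ br μ (P *ᵥ (x + x')) (P *ᵥ y) = _
    rw [Matrix.mulVec_add, br_add_left, Matrix.mulVec_add]
  · intro r x y
    change P⁻¹ *ᵥ br μ (P *ᵥ (r • x)) (P *ᵥ y) = _
    rw [Matrix.mulVec_smul, br_smul_left, Matrix.mulVec_smul]
  · intro x y y'
    change P⁻¹ *ᵥ br μ (P *ᵥ x) (P *ᵥ (y + y')) = _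
    rw [Matrix.mulVec_add, br_add_right, Matrix.mulVec_add]
  · intro r x y
    change P⁻¹ *ᵥ br μ (P *ᵥ x) (P *ᵥ (r • y)) = _
    rw [Matrix.mulVec_smul, br_smul_right, Matrix.mulVec_smul]
  · intro i j
    rw [br_single]; rfl

theorem chart_mul_inv {N : ℕ} {P : Matrix (Fin N) (Fin N) ℂ} (hP : P.det ≠ 0)
    (x : Fin N → ℂ) : P *ᵥ (P⁻¹ *ᵥ x) = x := by
  rw [Matrix.mulVec_mulVec, Matrix.mul_nonsing_inv P (isUnit_iff_ne_zero.2 hP), Matrix.one_mulVec]

theorem chart_isLie_chartC {N : ℕ} {μ : Arr ℂ N} (hμ : IsLie μ) {P : Matrix (Fin N) (Fin N) ℂ}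
    (hP : P.det ≠ 0) : IsLie (chartC μ P) := by
  refine ⟨fun x => ?_, fun x y z => ?_⟩
  · rw [chart_br_chartC, hμ.1, Matrix.mulVec_zero]
  · simp only [chart_br_chartC, chart_mul_inv hP]
    rw [← Matrix.mulVec_add, ← Matrix.mulVec_add, hμ.2, Matrix.mulVec_zero]

theorem chart_sdA_eq {N : ℕ} (μ : Arr ℂ (N + 1)) (hμ : IsLie μ) (l : Fin (N + 1) → ℂ)
    (hbr : ∀ u v, l ⬝ᵥ br μ u v = 0) (P : Matrix (Fin (N + 1)) (Fin (N + 1)) ℂ) (hP : P.det ≠ 0)
    (hlP : ∀ u, l ⬝ᵥ (P *ᵥ u) = u 0) :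
    sdA (pullA μ P) (pullD μ P) = chartC μ P := by
  have h0 : ∀ u v, (P⁻¹ *ᵥ br μ u v) 0 = 0 := by
    intro u v
    rw [← hlP (P⁻¹ *ᵥ br μ u v), chart_mul_inv hP, hbr]
  funext i j k
  refine Fin.cases ?_ (fun k' => ?_) k
  · simp only [sdA, Fin.cases_zero]
    exact (h0 _ _).symm
  · refine Fin.cases ?_ (fun i' => ?_) i
    · refine Fin.cases ?_ (fun j' => ?_) j
      · simp only [sdA, Fin.cases_zero, Fin.cases_succ]
        change (0 : ℂ) = (P⁻¹ *ᵥ br μ (P *ᵥ Pi.single 0 1) (P *ᵥ Pi.single 0 1)) k'.succ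
        rw [hμ.1, Matrix.mulVec_zero]; rfl
      · simp only [sdA, Fin.cases_zero, Fin.cases_succ]
        rfl
    · refine Fin.cases ?_ (fun j' => ?_) j
      · simp only [sdA, Fin.cases_zero, Fin.cases_succ]
        change -(P⁻¹ *ᵥ br μ (P *ᵥ Pi.single 0 1) (P *ᵥ Pi.single i'.succ 1)) k'.succ
          = (P⁻¹ *ᵥ br μ (P *ᵥ Pi.single i'.succ 1) (P *ᵥ Pi.single 0 1)) k'.succ
        rw [chart_anti hμ.1 (P *ᵥ Pi.single i'.succ 1), Matrix.mulVec_neg]; rfl
      · simp only [sdA, Fin.cases_succ]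
        rfl

theorem chart_cons {N : ℕ} (a : Arr ℂ N) (D : Matrix (Fin N) (Fin N) ℂ) (x y : Fin N → ℂ) :
    br (sdA a D) (Fin.cons 0 x) (Fin.cons 0 y) = Fin.cons 0 (br a x y) := by
  rw [br_sdA]
  simp

theorem chart_cons_e {N : ℕ} (a : Arr ℂ N) (D : Matrix (Fin N) (Fin N) ℂ) (y : Fin N → ℂ) :
    br (sdA a D) (Fin.cons 1 0) (Fin.cons 0 y) = Fin.cons 0 (D *ᵥ y) := by
  rw [br_sdA]
  simp [br_zero_left]

theorem chart_cons_inj {N : ℕ} {x y : Fin N → ℂ}
    (h : (Fin.cons 0 x : Fin (N + 1) → ℂ) = Fin.cons 0 y) : x = y := by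
  funext i
  have := congrFun h i.succ
  simpa using this

theorem chart_cons_add {N : ℕ} (x y : Fin N → ℂ) :
    (Fin.cons 0 x : Fin (N + 1) → ℂ) + Fin.cons 0 y = Fin.cons 0 (x + y) := by
  funext i
  refine Fin.cases ?_ (fun i' => ?_) i
  · simp
  · simp

theorem chart_cons_neg {N : ℕ} (x : Fin N → ℂ) :
    -(Fin.cons 0 x : Fin (N + 1) → ℂ) = Fin.cons 0 (-x) := by
  funext i
  refine Fin.cases ?_ (fun i' => ?_) i
  · simp
  · simp

theorem chart_cons_zero {N : ℕ} : (Fin.cons 0 (0 : Fin N → ℂ) : Fin (N + 1) → ℂ) = 0 := by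
  funext i
  refine Fin.cases ?_ (fun i' => ?_) i
  · simp
  · simp

theorem chart_pull {N : ℕ} (μ : Arr ℂ (N + 1)) (hμ : IsLie μ) (l : Fin (N + 1) → ℂ)
    (hbr : ∀ u v, l ⬝ᵥ br μ u v = 0) (P : Matrix (Fin (N + 1)) (Fin (N + 1)) ℂ) (hP : P.det ≠ 0)
    (hlP : ∀ u, l ⬝ᵥ (P *ᵥ u) = u 0) :
    IsLie (pullA μ P) ∧ IsDer (pullA μ P) (pullD μ P) ∧
      IsHom (sdA (pullA μ P) (pullD μ P)) μ P := by
  have hsd := chart_sdA_eq μ hμ l hbr P hP hlP
  have hLie : IsLie (sdA (pullA μ P) (pullD μ P)) := by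
    rw [hsd]; exact chart_isLie_chartC hμ hP
  set a := pullA μ P with ha
  set D := pullD μ P with hD
  have hLa : IsLie a := by
    refine ⟨fun x => ?_, fun x y z => ?_⟩
    · have := hLie.1 (Fin.cons 0 x)
      rw [chart_cons, ← chart_cons_zero] at this
      exact chart_cons_inj this
    · have := hLie.2 (Fin.cons 0 x) (Fin.cons 0 y) (Fin.cons 0 z)
      simp only [chart_cons] at this
      rw [chart_cons_add, chart_cons_add, ← chart_cons_zero] at this
      exact chart_cons_inj this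
  refine ⟨hLa, fun x y => ?_, fun x y => ?_⟩
  · have := hLie.2 (Fin.cons 1 0) (Fin.cons 0 x) (Fin.cons 0 y)
    rw [chart_cons, chart_cons_e, chart_anti hLie.1 (Fin.cons 0 y) (Fin.cons 1 0), chart_cons_e,
      chart_cons_e, chart_cons_neg, chart_cons, chart_cons, chart_cons_add, chart_cons_add,
      ← chart_cons_zero] at this
    have h1 := chart_cons_inj this
    have h2 : br a x (-(D *ᵥ y)) = - br a x (D *ᵥ y) := by
      have := br_smul_right a (-1) x (D *ᵥ y)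
      simpa using this
    rw [h2, chart_anti hLa.1 y (D *ᵥ x)] at h1
    have h3 : D *ᵥ br a x y = br a x (D *ᵥ y) + br a (D *ᵥ x) y := by
      have : D *ᵥ br a x y - (br a x (D *ᵥ y) + br a (D *ᵥ x) y) = 0 := by
        rw [← h1]; abel
      exact sub_eq_zero.1 this
    rw [h3, add_comm]
  · rw [hsd, chart_br_chartC, chart_mul_inv hP]

theorem exists_chart {N : ℕ} (l : Fin (N + 1) → ℂ) (hl : l ≠ 0) :
    ∃ P : Matrix (Fin (N + 1)) (Fin (N + 1)) ℂ, P.det ≠ 0 ∧ ∀ u, l ⬝ᵥ (P *ᵥ u) = u 0 := by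
  obtain ⟨i0, hi0⟩ : ∃ i, l i ≠ 0 := by
    by_contra h
    push Not at h
    exact hl (funext h)
  set Q : Matrix (Fin (N + 1)) (Fin (N + 1)) ℂ :=
    Matrix.of fun i j => if i = 0 then l j else (Pi.single (Equiv.swap 0 i0 i) 1 : Fin (N + 1) → ℂ) j
    with hQ
  have hQ0 : ∀ x, (Q *ᵥ x) 0 = l ⬝ᵥ x := by
    intro x
    simp [Q, Matrix.mulVec, dotProduct]
  have hQi : ∀ x i, i ≠ 0 → (Q *ᵥ x) i = x (Equiv.swap 0 i0 i) := by
    intro x i hi
    have h1 : (Q *ᵥ x) i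
        = ∑ j, (Pi.single (Equiv.swap 0 i0 i) 1 : Fin (N + 1) → ℂ) j * x j := by
      simp [Q, Matrix.mulVec, dotProduct, hi]
    rw [h1, Finset.sum_eq_single (Equiv.swap 0 i0 i)]
    · rw [Pi.single_eq_same, one_mul]
    · intro b _ hb
      rw [Pi.single_eq_of_ne hb, zero_mul]
    · intro h; exact absurd (Finset.mem_univ _) h
  have hdet : Q.det ≠ 0 := by
    intro h
    obtain ⟨x, hx, hQx⟩ := Matrix.exists_mulVec_eq_zero_iff.2 h
    apply hx
    have hxj : ∀ j, j ≠ i0 → x j = 0 := by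
      intro j hj
      have h1 : Equiv.swap 0 i0 j ≠ 0 := by
        intro h2
        apply hj
        have := congrArg (Equiv.swap 0 i0) h2
        rwa [Equiv.swap_apply_self, Equiv.swap_apply_left] at this
      have h3 := hQi x _ h1
      rw [Equiv.swap_apply_self, hQx] at h3
      exact h3.symm
    have h4 : l ⬝ᵥ x = l i0 * x i0 := by
      rw [dotProduct]
      refine Finset.sum_eq_single i0 (fun j _ hj => ?_) (fun h => absurd (Finset.mem_univ _) h)
      rw [hxj j hj, mul_zero]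
    have h5 := hQ0 x
    rw [hQx, h4] at h5
    funext j
    by_cases hj : j = i0
    · subst hj
      have h6 : l j * x j = 0 := h5.symm
      exact (mul_eq_zero.1 h6).resolve_left hi0
    · exact hxj j hj
  have hinv : Q * Q⁻¹ = 1 := Matrix.mul_nonsing_inv Q (isUnit_iff_ne_zero.2 hdet)
  refine ⟨Q⁻¹, ?_, fun u => ?_⟩
  · intro h
    have := congrArg Matrix.det hinv
    rw [Matrix.det_mul, h, mul_zero, Matrix.det_one] at this
    exact zero_ne_one this
  · rw [← hQ0, Matrix.mulVec_mulVec, hinv, Matrix.one_mulVec]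

/-- continuity of `pullA` -/
theorem continuousAt_pullA {N : ℕ} (μ : Arr ℂ (N + 1)) (P : Matrix (Fin (N + 1)) (Fin (N + 1)) ℂ)
    (hP : P.det ≠ 0) : ContinuousAt (pullA μ) P := by
  have hinv : ContinuousAt (fun P : Matrix (Fin (N + 1)) (Fin (N + 1)) ℂ => P⁻¹) P := by
    apply continuousAt_matrix_inv
    rw [Ring.inverse_eq_inv']
    exact continuousAt_inv₀ hP
  have hw : ∀ i j : Fin N, Continuous fun P : Matrix (Fin (N + 1)) (Fin (N + 1)) ℂ =>
      br μ (P *ᵥ Pi.single i.succ 1) (P *ᵥ Pi.single j.succ 1) := by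
    intro i j
    unfold br
    have h1 : ∀ v : Fin (N + 1) → ℂ, Continuous fun P : Matrix (Fin (N + 1)) (Fin (N + 1)) ℂ =>
        P *ᵥ v := fun v => continuous_id.matrix_mulVec continuous_const
    refine continuous_pi fun k => continuous_finsetSum _ fun a _ => continuous_finsetSum _
      fun b _ => ?_
    exact (((continuous_apply a).comp (h1 _)).mul ((continuous_apply b).comp (h1 _))).mul
      continuous_const
  refine continuousAt_pi.2 fun i => continuousAt_pi.2 fun j => continuousAt_pi.2 fun k => ?_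
  unfold pullA
  simp only [Matrix.mulVec, dotProduct]
  refine tendsto_finsetSum _ fun a _ => ?_
  have h1 : ContinuousAt (fun P : Matrix (Fin (N + 1)) (Fin (N + 1)) ℂ => P⁻¹ k.succ a) P :=
    ((continuous_apply a).continuousAt.comp ((continuous_apply k.succ).continuousAt.comp hinv))
  have h2 : ContinuousAt (fun P : Matrix (Fin (N + 1)) (Fin (N + 1)) ℂ =>
      br μ (P *ᵥ Pi.single i.succ 1) (P *ᵥ Pi.single j.succ 1) a) P :=
    ((continuous_apply a).comp (hw i j)).continuousAt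
  exact h1.mul h2

end Pool.H33.V
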