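import Pool.Agent.H33.V.LemA
import Pool.Agent.H33.V.Chart

/-! BND: the maximal minors of the embeddings of a maximal ideal are bounded -/

open Matrix Filter Topology

namespace Pool.H33.V

/-- the shear that turns the functional `κ` into the first coordinate -/
noncomputable def bndR {N : ℕ} (κ : Fin (N + 1) → ℂ) : Matrix (Fin (N + 1)) (Fin (N + 1)) ℂ :=
  1 + (κ 0)⁻¹ • Matrix.vecMulVec (Pi.single 0 1) (Pi.single 0 1 - κ)

theorem bndR_mulVec {N : ℕ} (κ u : Fin (N + 1) → ℂ) :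
    bndR κ *ᵥ u = u + ((κ 0)⁻¹ * (u 0 - κ ⬝ᵥ u)) • (Pi.single 0 1 : Fin (N + 1) → ℂ) := by
  rw [bndR, Matrix.add_mulVec, Matrix.one_mulVec, Matrix.smul_mulVec, Matrix.vecMulVec_mulVec,
    sub_dotProduct, single_one_dotProduct]
  congr 1
  ext i
  simp only [Pi.smul_apply, smul_eq_mul, MulOpposite.smul_eq_mul_unop, MulOpposite.unop_op]
  ring

theorem bndR_dot {N : ℕ} (κ : Fin (N + 1) → ℂ) (h : κ 0 ≠ 0) (u : Fin (N + 1) → ℂ) :
    κ ⬝ᵥ (bndR κ *ᵥ u) = u 0 := by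
  rw [bndR_mulVec, dotProduct_add, dotProduct_smul, dotProduct_single_one, smul_eq_mul]
  field_simp
  ring

theorem bndR_single {N : ℕ} : bndR (Pi.single 0 1 : Fin (N + 1) → ℂ) = 1 := by
  simp [bndR]

theorem bndR_continuousAt {N : ℕ} (κ : Fin (N + 1) → ℂ) (h : κ 0 ≠ 0) :
    ContinuousAt (bndR (N := N)) κ := by
  have h1 : ContinuousAt (fun κ : Fin (N + 1) → ℂ => (κ 0)⁻¹) κ :=
    (continuous_apply (0 : Fin (N + 1))).continuousAt.inv₀ h
  have h2 : ContinuousAt (fun κ : Fin (N + 1) → ℂ =>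
      Matrix.vecMulVec (Pi.single 0 1 : Fin (N + 1) → ℂ) (Pi.single 0 1 - κ)) κ :=
    (Continuous.matrix_vecMulVec continuous_const (continuous_const.sub continuous_id)).continuousAt
  have h3 : ContinuousAt (fun κ : Fin (N + 1) → ℂ => (1 : Matrix (Fin (N + 1)) (Fin (N + 1)) ℂ) +
      (κ 0)⁻¹ • Matrix.vecMulVec (Pi.single 0 1 : Fin (N + 1) → ℂ) (Pi.single 0 1 - κ)) κ :=
    continuousAt_const.add (h1.smul h2)
  exact h3

/-- the matrix with zero first row and the rows of `θ` -/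
def bndE {N : ℕ} (θ : Matrix (Fin N) (Fin N) ℂ) : Matrix (Fin (N + 1)) (Fin N) ℂ :=
  Matrix.of fun i j => (Fin.cons 0 (fun i' => θ i' j) : Fin (N + 1) → ℂ) i

theorem bndE_mulVec {N : ℕ} (θ : Matrix (Fin N) (Fin N) ℂ) (y : Fin N → ℂ) :
    bndE θ *ᵥ y = Fin.cons 0 (θ *ᵥ y) := by
  funext i
  refine Fin.cases ?_ (fun i' => ?_) i
  · simp [bndE, Matrix.mulVec, dotProduct]
  · simp [bndE, Matrix.mulVec, dotProduct]

theorem bnd_det_aug {N : ℕ} (θ : Matrix (Fin N) (Fin N) ℂ) :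
    (aug (Pi.single 0 1) (bndE θ)).det = θ.det := by
  rw [Matrix.det_succ_row_zero, Finset.sum_eq_single 0]
  · have h : (aug (Pi.single 0 1) (bndE θ)).submatrix Fin.succ (Fin.succAbove 0) = θ := by
      ext i j
      simp [aug, bndE]
    rw [h]
    simp [aug]
  · intro j _ hj
    obtain ⟨j', rfl⟩ := Fin.exists_succ_eq.2 hj
    simp [aug, bndE]
  · intro h
    exact absurd (Finset.mem_univ _) h

/-- one term of the sequence -/
theorem bnd_step {N : ℕ} (μ : Arr ℂ (N + 1)) (hμ : IsLie μ) (a : Arr ℂ N)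
    (l : Fin (N + 1) → ℂ) (hbr : ∀ u v, l ⬝ᵥ br μ u v = 0)
    (T : Matrix (Fin (N + 1)) (Fin (N + 1)) ℂ) (hT : T.det ≠ 0) (hlT : ∀ u, l ⬝ᵥ (T *ᵥ u) = u 0)
    (ψ : Matrix (Fin (N + 1)) (Fin N) ℂ) (hψ : IsHom a μ ψ) (c : ℂ)
    (hc : ∀ u, lam ψ ⬝ᵥ u = c * (l ⬝ᵥ u)) (hc0 : c ≠ 0) :
    ∃ θ : Matrix (Fin N) (Fin N) ℂ, T.det * θ.det = c ∧ IsHom a (pullA μ T) θ := by
  obtain ⟨_, _, hhom⟩ := chart_pull μ hμ l hbr T hT hlT
  have hu : IsUnit T.det := isUnit_iff_ne_zero.2 hT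
  set θ : Matrix (Fin N) (Fin N) ℂ := Matrix.of fun i j => (T⁻¹ * ψ) i.succ j with hθ
  have hrow : ∀ y, ((T⁻¹ * ψ) *ᵥ y) 0 = 0 := by
    intro y
    have h1 : l ⬝ᵥ (T *ᵥ ((T⁻¹ * ψ) *ᵥ y)) = ((T⁻¹ * ψ) *ᵥ y) 0 := hlT _
    rw [← h1, Matrix.mulVec_mulVec, ← Matrix.mul_assoc, Matrix.mul_nonsing_inv _ hu,
      Matrix.one_mul]
    have h2 := hc (ψ *ᵥ y)
    rw [lam_mulVec] at h2
    rcases mul_eq_zero.1 h2.symm with h | h
    · exact absurd h hc0
    · exact h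
  have hE : T⁻¹ * ψ = bndE θ := by
    ext i j
    refine Fin.cases ?_ (fun i' => ?_) i
    · have := hrow (Pi.single j 1)
      rw [Matrix.mulVec_single_one] at this
      simpa [bndE] using this
    · simp [bndE, hθ]
  have hψE : ψ = T * bndE θ := by
    rw [← hE, ← Matrix.mul_assoc, Matrix.mul_nonsing_inv _ hu, Matrix.one_mul]
  refine ⟨θ, ?_, ?_⟩
  · have h1 := lam_dotProduct ψ (T *ᵥ Pi.single 0 1)
    rw [hc, hlT] at h1
    have h2 : aug (T *ᵥ Pi.single 0 1) ψ = T * aug (Pi.single 0 1) (bndE θ) := by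
      rw [← aug_mul, ← hψE]
    rw [h2, Matrix.det_mul, bnd_det_aug] at h1
    rw [← h1]
    simp
  · intro x y
    have h1 := hψ x y
    have h3 : ∀ z, ψ *ᵥ z = T *ᵥ (Fin.cons 0 (θ *ᵥ z) : Fin (N + 1) → ℂ) := by
      intro z
      rw [← bndE_mulVec, Matrix.mulVec_mulVec, ← hψE]
    rw [h3, h3, h3, ← hhom, br_sdA] at h1
    have h4 : (Fin.cons 0 (θ *ᵥ br a x y) : Fin (N + 1) → ℂ) =
        Fin.cons 0 (br (pullA μ T) (θ *ᵥ x) (θ *ᵥ y)) := by
      have h5 := congrArg (fun w => T⁻¹ *ᵥ w) h1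
      simp only [Matrix.mulVec_mulVec, Matrix.nonsing_inv_mul _ hu, Matrix.one_mulVec] at h5
      rw [h5]
      simp
    exact (Fin.cons_injective2 h4).2

theorem lam_bounded {N : ℕ} (μ : Arr ℂ (N + 1)) (hμ : IsLie μ) (a : Arr ℂ N)
    (htr : ∀ D, IsDer a D → D.trace = 0)
    (hmax : ∀ a' D', Good μ a' D' → Module.finrank ℂ (DerS a') ≤ Module.finrank ℂ (DerS a)) :
    ∃ C : ℝ, ∀ ψ : Matrix (Fin (N + 1)) (Fin N) ℂ, IsHom a μ ψ →
      (∀ u v, lam ψ ⬝ᵥ br μ u v = 0) → ∀ i, ‖lam ψ i‖ ≤ C := by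
  by_contra hcon
  push Not at hcon
  choose ψ hψ hψbr hψi using fun k : ℕ => hcon (k : ℝ)
  have hnorm : ∀ k : ℕ, (k : ℝ) < ‖lam (ψ k)‖ := by
    intro k
    obtain ⟨i, hi⟩ := hψi k
    exact lt_of_lt_of_le hi (norm_le_pi_norm (lam (ψ k)) i)
  have hpos : ∀ k : ℕ, 0 < ‖lam (ψ k)‖ := fun k => lt_of_le_of_lt (Nat.cast_nonneg k) (hnorm k)
  set l : ℕ → Fin (N + 1) → ℂ := fun k => ((‖lam (ψ k)‖ : ℂ))⁻¹ • lam (ψ k) with hl
  have hlmem : ∀ k, l k ∈ Metric.sphere (0 : Fin (N + 1) → ℂ) 1 := by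
    intro k
    rw [mem_sphere_zero_iff_norm, hl]
    simp only [norm_smul, norm_inv, Complex.norm_real, norm_norm]
    exact inv_mul_cancel₀ (hpos k).ne'
  obtain ⟨L, hL, φ, hφ, hlim⟩ := (isCompact_sphere (0 : Fin (N + 1) → ℂ) 1).tendsto_subseq hlmem
  have hc : ∀ k u, lam (ψ k) ⬝ᵥ u = (‖lam (ψ k)‖ : ℂ) * (l k ⬝ᵥ u) := by
    intro k u
    have h0 : ((‖lam (ψ k)‖ : ℂ)) ≠ 0 := by
      exact_mod_cast (hpos k).ne'
    rw [hl]
    simp only [smul_dotProduct, smul_eq_mul]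
    rw [← mul_assoc, mul_inv_cancel₀ h0, one_mul]
  have hlbr : ∀ k u v, l k ⬝ᵥ br μ u v = 0 := by
    intro k u v
    rw [hl]
    simp only [smul_dotProduct, hψbr, smul_zero]
  have hdotcont : ∀ w : Fin (N + 1) → ℂ, Tendsto (fun k => (l (φ k)) ⬝ᵥ w) atTop (𝓝 (L ⬝ᵥ w)) := by
    intro w
    have hcont : Continuous fun v : Fin (N + 1) → ℂ => v ⬝ᵥ w := by
      unfold dotProduct
      fun_prop
    exact (hcont.tendsto L).comp hlim
  have hLbr : ∀ u v, L ⬝ᵥ br μ u v = 0 := by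
    intro u v
    have h1 := hdotcont (br μ u v)
    simp only [hlbr] at h1
    exact (tendsto_nhds_unique h1 tendsto_const_nhds)
  have hL0 : L ≠ 0 := by
    intro h
    rw [mem_sphere_zero_iff_norm, h, norm_zero] at hL
    exact zero_ne_one hL
  obtain ⟨P, hP, hLP⟩ := exists_chart L hL0
  have hPκ : L ᵥ* P = Pi.single 0 1 := by
    funext i
    have := hLP (Pi.single i 1)
    rw [Matrix.dotProduct_mulVec, dotProduct_single_one] at this
    rw [this]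
    simp [Pi.single_apply, eq_comm]
  set κ : ℕ → Fin (N + 1) → ℂ := fun k => l (φ k) ᵥ* P with hκ
  have hκlim : Tendsto κ atTop (𝓝 (Pi.single 0 1)) := by
    rw [← hPκ]
    have hcont : Continuous fun v : Fin (N + 1) → ℂ => v ᵥ* P := by
      exact Continuous.matrix_vecMul continuous_id continuous_const
    exact (hcont.tendsto L).comp hlim
  have hκ0 : Tendsto (fun k => κ k 0) atTop (𝓝 1) := by
    have := (continuous_apply (0 : Fin (N + 1))).tendsto (Pi.single 0 1 : Fin (N + 1) → ℂ)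
    have h2 := this.comp hκlim
    rw [Pi.single_eq_same] at h2
    exact h2
  set T : ℕ → Matrix (Fin (N + 1)) (Fin (N + 1)) ℂ := fun k => P * bndR (κ k) with hTdef
  have hTlim : Tendsto T atTop (𝓝 P) := by
    have h1 : Tendsto (fun k => bndR (κ k)) atTop (𝓝 1) := by
      rw [← bndR_single (N := N)]
      exact (bndR_continuousAt (Pi.single 0 1) (by simp)).tendsto.comp hκlim
    have h2 : Continuous fun R : Matrix (Fin (N + 1)) (Fin (N + 1)) ℂ => P * R :=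
      Continuous.matrix_mul continuous_const continuous_id
    have h3 := (h2.tendsto 1).comp h1
    rw [Matrix.mul_one] at h3
    exact h3
  have hdetlim : Tendsto (fun k => (T k).det) atTop (𝓝 P.det) := by
    have h2 : Continuous fun R : Matrix (Fin (N + 1)) (Fin (N + 1)) ℂ => R.det :=
      Continuous.matrix_det continuous_id
    exact (h2.tendsto P).comp hTlim
  have hev1 : ∀ᶠ k in atTop, κ k 0 ≠ 0 := hκ0.eventually_ne one_ne_zero
  have hev2 : ∀ᶠ k in atTop, (T k).det ≠ 0 := hdetlim.eventually_ne hP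
  obtain ⟨K, hK⟩ := eventually_atTop.1 (hev1.and hev2)
  have hlT : ∀ k, K ≤ k → ∀ u, l (φ k) ⬝ᵥ (T k *ᵥ u) = u 0 := by
    intro k hk u
    have h1 : l (φ k) ⬝ᵥ (T k *ᵥ u) = κ k ⬝ᵥ (bndR (κ k) *ᵥ u) := by
      rw [hTdef, hκ]
      simp only
      rw [← Matrix.mulVec_mulVec, Matrix.dotProduct_mulVec]
    rw [h1]
    exact bndR_dot (κ k) (hK k hk).1 u
  have hstep : ∀ k, ∃ θ : Matrix (Fin N) (Fin N) ℂ,
      (T (K + k)).det * θ.det = (‖lam (ψ (φ (K + k)))‖ : ℂ) ∧ IsHom a (pullA μ (T (K + k))) θ := by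
    intro k
    refine bnd_step μ hμ a (l (φ (K + k))) (hlbr _) (T (K + k)) (hK _ (Nat.le_add_right _ _)).2
      (hlT _ (Nat.le_add_right _ _)) (ψ (φ (K + k))) (hψ _) _ (hc _) ?_
    exact_mod_cast (hpos _).ne'
  choose θ hθdet hθhom using hstep
  have hshift : Tendsto (fun k => K + k) atTop atTop :=
    tendsto_atTop_mono (fun k => Nat.le_add_left k K) tendsto_id
  have hνlim : Tendsto (fun k => pullA μ (T (K + k))) atTop (𝓝 (pullA μ P)) :=
    ((continuousAt_pullA μ P hP).tendsto.comp hTlim).comp hshift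
  obtain ⟨hLie, hDer, hHom⟩ := chart_pull μ hμ L hLbr P hP hLP
  have hdim := hmax (pullA μ P) (pullD μ P) ⟨hLie, hDer, P, hP, hHom⟩
  have hθ0 : ∀ k, (θ k).det ≠ 0 := by
    intro k h
    have h1 := hθdet k
    rw [h, mul_zero] at h1
    exact (hpos (φ (K + k))).ne' (by exact_mod_cast h1.symm)
  refine lemA a (pullA μ P) htr hdim (fun k => pullA μ (T (K + k))) hνlim θ hθ0 hθhom ?_
  have hval : ∀ k, ‖(θ k).det‖ = ‖lam (ψ (φ (K + k)))‖ * ‖(T (K + k)).det‖⁻¹ := by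
    intro k
    have h1 := congrArg norm (hθdet k)
    rw [norm_mul, Complex.norm_real, norm_norm] at h1
    have h2 : ‖(T (K + k)).det‖ ≠ 0 := norm_ne_zero_iff.2 (hK _ (Nat.le_add_right _ _)).2
    rw [← h1]
    field_simp
  simp_rw [hval]
  have hA : Tendsto (fun k => ‖lam (ψ (φ (K + k)))‖) atTop atTop := by
    refine tendsto_atTop_mono (f := fun k : ℕ => (k : ℝ)) (fun k => ?_) tendsto_natCast_atTop_atTop
    refine le_trans ?_ (hnorm (φ (K + k))).le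
    have : k ≤ φ (K + k) := le_trans (Nat.le_add_left k K) hφ.le_apply
    exact_mod_cast this
  have hB : Tendsto (fun k => ‖(T (K + k)).det‖⁻¹) atTop (𝓝 ‖P.det‖⁻¹) := by
    have h1 : Tendsto (fun k => ‖(T (K + k)).det‖) atTop (𝓝 ‖P.det‖) :=
      (hdetlim.norm).comp hshift
    exact h1.inv₀ (norm_ne_zero_iff.2 hP)
  exact hA.atTop_mul_pos (inv_pos.2 (norm_pos_iff.2 hP)) hB

end Pool.H33.V
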