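import Pool.Agent.H33.V.LemB

/-! CASEB: finitely many ideals isomorphic to `a` force a linear dependence -/

open Matrix Filter Topology

namespace Pool.H33.V

theorem caseB_dropc_mulVec {N : ℕ} (P : Matrix (Fin (N + 1)) (Fin (N + 1)) ℂ) (y : Fin N → ℂ) :
    dropc P *ᵥ y = P *ᵥ (Fin.cons 0 y : Fin (N + 1) → ℂ) := by
  funext i
  simp [dropc, Matrix.mulVec, dotProduct, Fin.sum_univ_succ]

theorem caseB_det_row {N : ℕ} (M : Matrix (Fin (N + 1)) (Fin (N + 1)) ℂ)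
    (h : ∀ j : Fin N, M 0 j.succ = 0) :
    M.det = M 0 0 * (Matrix.of fun i j : Fin N => M i.succ j.succ).det := by
  rw [Matrix.det_succ_row_zero, Fin.sum_univ_succ]
  have h0 : ∑ i : Fin N, (-1 : ℂ) ^ ((i.succ : Fin (N + 1)) : ℕ) * M 0 i.succ *
      (M.submatrix Fin.succ i.succ.succAbove).det = 0 := by
    refine Finset.sum_eq_zero fun i _ => ?_
    rw [h i]; simp
  rw [h0, add_zero]
  simp only [Fin.val_zero, pow_zero, one_mul]
  congr 2

theorem caseB_det_aug {N : ℕ} (P : Matrix (Fin (N + 1)) (Fin (N + 1)) ℂ) (u : Fin (N + 1) → ℂ) :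
    lam (dropc P) ⬝ᵥ (P *ᵥ u) = P.det * u 0 := by
  have h1 : dropc P = P * (dropc 1 : Matrix (Fin (N + 1)) (Fin N) ℂ) := by
    ext i j
    simp [dropc, Matrix.mul_apply, Matrix.one_apply]
  rw [lam_dotProduct, h1, aug_mul, Matrix.det_mul]
  congr 1
  rw [caseB_det_row]
  · have h2 : (Matrix.of fun i j : Fin N => aug u (dropc 1) i.succ j.succ) = 1 := by
      ext i j
      simp [aug, dropc, Matrix.one_apply]
    rw [h2, Matrix.det_one, mul_one]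
    simp [aug]
  · intro j
    simp [aug, dropc, Matrix.one_apply, (Fin.succ_ne_zero j).symm]

theorem caseB_inj {N : ℕ} {P : Matrix (Fin N) (Fin N) ℂ} (hP : P.det ≠ 0)
    {x y : Fin N → ℂ} (h : P *ᵥ x = P *ᵥ y) : x = y := by
  have hu : IsUnit P.det := isUnit_iff_ne_zero.mpr hP
  have := congrArg (fun z => P⁻¹ *ᵥ z) h
  simpa [Matrix.mulVec_mulVec, Matrix.nonsing_inv_mul P hu] using this

theorem caseB_surj {N : ℕ} {P : Matrix (Fin N) (Fin N) ℂ} (hP : P.det ≠ 0)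
    (x : Fin N → ℂ) : P *ᵥ (P⁻¹ *ᵥ x) = x := by
  have hu : IsUnit P.det := isUnit_iff_ne_zero.mpr hP
  rw [Matrix.mulVec_mulVec, Matrix.mul_nonsing_inv P hu, Matrix.one_mulVec]

theorem caseB_isHom {N : ℕ} {μ : Arr ℂ (N + 1)} {a : Arr ℂ N} {D : Matrix (Fin N) (Fin N) ℂ}
    {P : Matrix (Fin (N + 1)) (Fin (N + 1)) ℂ} (h : IsHom (sdA a D) μ P) :
    IsHom a μ (dropc P) := by
  intro x y
  rw [caseB_dropc_mulVec, caseB_dropc_mulVec, caseB_dropc_mulVec, ← h, br_sdA]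
  simp

theorem caseB_lam_br {N : ℕ} {μ : Arr ℂ (N + 1)} {a : Arr ℂ N} {D : Matrix (Fin N) (Fin N) ℂ}
    {P : Matrix (Fin (N + 1)) (Fin (N + 1)) ℂ} (hP : P.det ≠ 0) (h : IsHom (sdA a D) μ P)
    (u v : Fin (N + 1) → ℂ) : lam (dropc P) ⬝ᵥ br μ u v = 0 := by
  have hu := caseB_surj hP u
  have hv := caseB_surj hP v
  rw [← hu, ← hv, ← h, br_sdA, ← caseB_dropc_mulVec, lam_mulVec]

/-- two charts with the same ideal -/
theorem caseB_pair {N : ℕ} (μ : Arr ℂ (N + 1)) (a : Arr ℂ N) (D E : Matrix (Fin N) (Fin N) ℂ)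
    (P Q : Matrix (Fin (N + 1)) (Fin (N + 1)) ℂ) (hP : P.det ≠ 0) (hQ : Q.det ≠ 0)
    (hhP : IsHom (sdA a D) μ P) (hhQ : IsHom (sdA a E) μ Q)
    (hlam : lam (dropc P) = lam (dropc Q)) :
    ∃ (α : Matrix (Fin N) (Fin N) ℂ) (c : ℂ) (w : Fin N → ℂ), α.det ≠ 0 ∧
      IsHom a a α ∧ c ≠ 0 ∧ α * D = (c • E + adM a w) * α := by
  set φ : Matrix (Fin (N + 1)) (Fin (N + 1)) ℂ := Q⁻¹ * P with hφ
  have huQ : IsUnit Q.det := isUnit_iff_ne_zero.mpr hQ
  have hQφ : ∀ u, Q *ᵥ (φ *ᵥ u) = P *ᵥ u := by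
    intro u
    rw [hφ, ← Matrix.mulVec_mulVec, caseB_surj hQ]
  -- row zero
  have hrow : ∀ u, (φ *ᵥ u) 0 = (P.det / Q.det) * u 0 := by
    intro u
    have h1 := caseB_det_aug P u
    have h2 := caseB_det_aug Q (φ *ᵥ u)
    rw [hQφ, ← hlam, h1] at h2
    field_simp
    rw [h2]; ring
  set c : ℂ := P.det / Q.det with hc
  have hc0 : c ≠ 0 := div_ne_zero hP hQ
  have hφ0 : ∀ j : Fin N, φ 0 j.succ = 0 := by
    intro j
    have := hrow (Pi.single j.succ 1)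
    rw [Matrix.mulVec_single_one] at this
    simpa [Matrix.col_apply, (Fin.succ_ne_zero j).symm, Fin.succ_ne_zero] using this
  have hφ00 : φ 0 0 = c := by
    have := hrow (Pi.single 0 1)
    rw [Matrix.mulVec_single_one] at this
    simpa [Matrix.col_apply] using this
  set α : Matrix (Fin N) (Fin N) ℂ := Matrix.of fun i j : Fin N => φ i.succ j.succ with hα
  set w : Fin N → ℂ := fun i => φ i.succ 0 with hw
  have hφcons : ∀ (y0 : ℂ) (y : Fin N → ℂ), φ *ᵥ (Fin.cons y0 y : Fin (N + 1) → ℂ) =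
      Fin.cons (c * y0) (α *ᵥ y + y0 • w) := by
    intro y0 y
    funext i
    refine Fin.cases ?_ (fun i' => ?_) i
    · rw [hrow]; simp
    · simp [Matrix.mulVec, dotProduct, Fin.sum_univ_succ, hα, hw]
      ring
  have hdet : φ.det = c * α.det := by
    rw [caseB_det_row φ hφ0, hφ00]
  have hφdet : φ.det ≠ 0 := by
    rw [hφ, Matrix.det_mul, Matrix.det_nonsing_inv]
    exact mul_ne_zero (by simpa using hQ) hP
  have hαdet : α.det ≠ 0 := by
    intro h0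
    rw [hdet, h0, mul_zero] at hφdet
    exact hφdet rfl
  have hhom : ∀ u v, φ *ᵥ br (sdA a D) u v = br (sdA a E) (φ *ᵥ u) (φ *ᵥ v) := by
    intro u v
    apply caseB_inj hQ
    rw [hQφ, hhP, hhQ, hQφ, hQφ]
  refine ⟨α, c, w, hαdet, ?_, hc0, ?_⟩
  · intro x y
    have h1 := hhom (Fin.cons 0 x) (Fin.cons 0 y)
    rw [br_sdA, br_sdA, hφcons, hφcons, hφcons] at h1
    have h2 := congrArg Fin.tail h1
    simpa using h2
  · have hmv : ∀ y, (α * D) *ᵥ y = ((c • E + adM a w) * α) *ᵥ y := by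
      intro y
      have h1 := hhom (Fin.cons 1 0) (Fin.cons 0 y)
      rw [br_sdA, br_sdA, hφcons, hφcons, hφcons] at h1
      have h2 := congrArg Fin.tail h1
      rw [← Matrix.mulVec_mulVec, ← Matrix.mulVec_mulVec, Matrix.add_mulVec, adM_mulVec,
        Matrix.smul_mulVec]
      simp only [Fin.tail_cons, Fin.cons_zero, br_zero_left, zero_add, one_smul, zero_smul,
        add_zero, sub_zero, mul_zero, mul_one, Matrix.mulVec_zero] at h2
      rw [h2, add_comm]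
    ext i j
    have := congrFun (hmv (Pi.single j 1)) i
    simpa [Matrix.mulVec_single_one, Matrix.col_apply] using this

theorem caseB {N : ℕ} (μ : Arr ℂ (N + 1)) (a : Arr ℂ N) (D0 D1 : Matrix (Fin N) (Fin N) ℂ)
    (hD0 : IsDer a D0) (hD1 : IsDer a D1)
    (hfin : {l : Fin (N + 1) → ℂ | ∃ ψ : Matrix (Fin (N + 1)) (Fin N) ℂ, IsHom a μ ψ ∧
      (∀ u v, lam ψ ⬝ᵥ br μ u v = 0) ∧ lam ψ = l}.Finite)
    (T : Set ℂ) (hT : T.Infinite) (h : ∀ t ∈ T, Good μ a (D0 + t • D1)) :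
    ∃ p q : ℂ, (p ≠ 0 ∨ q ≠ 0) ∧ p • D0 + q • D1 ∈ WS a := by
  classical
  choose! P hPdet hPhom using fun t ht => (h t ht).2.2
  have hmaps : ∀ t ∈ T, lam (dropc (P t)) ∈ {l : Fin (N + 1) → ℂ |
      ∃ ψ : Matrix (Fin (N + 1)) (Fin N) ℂ, IsHom a μ ψ ∧
      (∀ u v, lam ψ ⬝ᵥ br μ u v = 0) ∧ lam ψ = l} := fun t ht =>
    ⟨dropc (P t), caseB_isHom (hPhom t ht), caseB_lam_br (hPdet t ht) (hPhom t ht), rfl⟩
  obtain ⟨l, hl, hinf⟩ : ∃ l ∈ {l : Fin (N + 1) → ℂ |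
      ∃ ψ : Matrix (Fin (N + 1)) (Fin N) ℂ, IsHom a μ ψ ∧
      (∀ u v, lam ψ ⬝ᵥ br μ u v = 0) ∧ lam ψ = l},
      {t | t ∈ T ∧ lam (dropc (P t)) = l}.Infinite := by
    by_contra hcon
    push Not at hcon
    apply hT
    refine (hfin.biUnion hcon).subset ?_
    intro t ht
    simp only [Set.mem_iUnion]
    exact ⟨_, hmaps t ht, ht, rfl⟩
  obtain ⟨t0, ht0T, ht0⟩ := hinf.nonempty
  refine lemB a (D0 + t0 • D1) D0 D1 hD0 hD1 _ hinf ?_
  rintro t ⟨htT, ht⟩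
  exact caseB_pair μ a _ _ (P t) (P t0) (hPdet t htT) (hPdet t0 ht0T) (hPhom t htT)
    (hPhom t0 ht0T) (ht.trans ht0.symm)

end Pool.H33.V
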