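import Pool.Agent.H33.V.Defs

/-! DIX1: a nilpotent Lie algebra of dimension at least two has two independent outer derivations -/

open Matrix Filter Topology

namespace Pool.H33.V

section dix1

theorem dix1_char {K L : Type*} [Field K] [LieRing L] [LieAlgebra K L] [Nontrivial L]
    [LieRing.IsNilpotent L] :
    ∃ f : L →ₗ[K] K, f ≠ 0 ∧ ∀ x y : L, f ⁅x, y⁆ = 0 := by
  have h := LieAlgebra.derivedSeries_lt_top_of_solvable K L
  have h' : (LieAlgebra.derivedSeries K L 1).toSubmodule < ⊤ := by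
    rw [lt_top_iff_ne_top]
    intro h2
    apply h.ne
    rw [← LieSubmodule.toSubmodule_inj, h2, LieSubmodule.top_toSubmodule]
  obtain ⟨f, hf0, hf⟩ := Submodule.exists_le_ker_of_lt_top _ h'
  refine ⟨f, hf0, fun x y => ?_⟩
  have hxy : ⁅x, y⁆ ∈ LieAlgebra.derivedSeries K L 1 := by
    rw [LieAlgebra.derivedSeries_def, LieAlgebra.derivedSeriesOfIdeal_succ,
      LieAlgebra.derivedSeriesOfIdeal_zero]
    exact LieSubmodule.lie_mem_lie (LieSubmodule.mem_top x) (LieSubmodule.mem_top y)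
  exact hf hxy

theorem dix1_cocycle {K L M : Type*} [Field K] [LieRing L] [LieAlgebra K L]
    [AddCommGroup M] [Module K M] [LieRingModule L M] [LieModule K L M] [Nontrivial M]
    [LieModule.IsNilpotent L M] (f : L →ₗ[K] K) (hf0 : f ≠ 0) (hf : ∀ x y : L, f ⁅x, y⁆ = 0) :
    ∃ δ : L →ₗ[K] M, (∀ a b, δ ⁅a, b⁆ = ⁅a, δ b⁆ - ⁅b, δ a⁆) ∧ (∀ y, f y = 0 → δ y = 0) ∧
      ∀ m : M, ¬ ∀ a, δ a = ⁅a, m⁆ := by
  obtain ⟨x1, hx1⟩ : ∃ x, f x ≠ 0 := by
    by_contra h
    push Not at h
    exact hf0 (LinearMap.ext h)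
  obtain ⟨x, hx⟩ : ∃ x, f x = 1 := ⟨(f x1)⁻¹ • x1, by simp [hx1]⟩
  let C : Submodule K M :=
    { carrier := {m | ∀ y, f y = 0 → ⁅y, m⁆ = 0}
      add_mem' := by
        intro a b ha hb y hy
        rw [lie_add, ha y hy, hb y hy, add_zero]
      zero_mem' := by intro y _; rw [lie_zero]
      smul_mem' := by
        intro c a ha y hy
        rw [lie_smul, ha y hy, smul_zero] }
  have hC : ∀ m, m ∈ C ↔ ∀ y, f y = 0 → ⁅y, m⁆ = 0 := fun m => Iff.rfl
  let T : Module.End K M := LieModule.toEnd K L M x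
  have hT : ∀ m, T m = ⁅x, m⁆ := fun m => rfl
  have hTC : ∀ m ∈ C, T m ∈ C := by
    intro m hm y hy
    rw [hT, leibniz_lie, hm y hy, lie_zero, add_zero, hm _ (hf y x)]
  obtain ⟨z, hzC, hz⟩ : ∃ z ∈ C, ∀ c ∈ C, ⁅x, c⁆ ≠ z := by
    by_contra hcon
    push Not at hcon
    obtain ⟨n, hn⟩ := LieModule.isNilpotent_toEnd_of_isNilpotent K L M x
    have key : ∀ n : ℕ, ∀ z ∈ C, ∃ c ∈ C, (T ^ n) c = z := by
      intro n
      induction n with
      | zero => intro z hz; exact ⟨z, hz, rfl⟩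
      | succ n ih =>
        intro z hz
        obtain ⟨c, hc, hcz⟩ := hcon z hz
        obtain ⟨c', hc', hcc⟩ := ih c hc
        refine ⟨c', hc', ?_⟩
        rw [pow_succ', Module.End.mul_apply, hcc, hT, hcz]
    have hC0 : ∀ z ∈ C, z = 0 := by
      intro z hz
      obtain ⟨c, _, hcz⟩ := key n z hz
      rw [← hcz]
      change ((LieModule.toEnd K L M x) ^ n) c = 0
      rw [hn]; rfl
    have hnt : Nontrivial (LieModule.maxTrivSubmodule K L M) :=
      LieModule.nontrivial_max_triv_of_isNilpotent K L M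
    obtain ⟨⟨w, hw⟩, hw0⟩ := exists_ne (0 : LieModule.maxTrivSubmodule K L M)
    apply hw0
    have : w ∈ C := fun y _ => (LieModule.mem_maxTrivSubmodule (R := K) (L := L) (M := M) w).1 hw y
    exact Subtype.ext (hC0 w this)
  have hdec : ∀ a : L, ⁅a, z⁆ = f a • ⁅x, z⁆ := by
    intro a
    have h1 : f (a - f a • x) = 0 := by simp [hx]
    have h2 := hzC _ h1
    rw [sub_lie, smul_lie, sub_eq_zero] at h2
    exact h2
  refine ⟨f.smulRight z, ?_, ?_, ?_⟩
  · intro a b
    simp only [LinearMap.smulRight_apply]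
    rw [hf, lie_smul, lie_smul, hdec a, hdec b, smul_smul, smul_smul, mul_comm (f b), sub_self,
      zero_smul]
  · intro y hy
    simp [hy]
  · intro m hm
    have hmC : m ∈ C := by
      intro y hy
      rw [← hm y]
      simp [hy]
    apply hz m hmC
    rw [← hm x]
    simp [hx]

theorem dix1_outer2 (K L : Type*) [Field K] [LieRing L] [LieAlgebra K L] [Module.Finite K L]
    [LieRing.IsNilpotent L] (h2 : 2 ≤ Module.finrank K L) :
    ∃ D1 D2 : L →ₗ[K] L, (∀ a b, D1 ⁅a, b⁆ = ⁅D1 a, b⁆ + ⁅a, D1 b⁆) ∧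
      (∀ a b, D2 ⁅a, b⁆ = ⁅D2 a, b⁆ + ⁅a, D2 b⁆) ∧
      ∀ (p q : K) (w : L), (∀ y, p • D1 y + q • D2 y = ⁅w, y⁆) → p = 0 ∧ q = 0 := by
  haveI : Nontrivial L := Module.nontrivial_of_finrank_pos (R := K) (by omega)
  obtain ⟨f, hf0, hf⟩ := dix1_char (K := K) (L := L)
  obtain ⟨x1, hx1⟩ : ∃ x, f x ≠ 0 := by
    by_contra h
    push Not at h
    exact hf0 (LinearMap.ext h)
  obtain ⟨x, hx⟩ : ∃ x, f x = 1 := ⟨(f x1)⁻¹ • x1, by simp [hx1]⟩
  obtain ⟨D1, hD1, hD1f, hD1i⟩ := dix1_cocycle (M := L) f hf0 hf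
  -- the ideal `ker f`
  let k : LieSubalgebra K L :=
    { LinearMap.ker f with
      lie_mem' := by
        intro a b _ _
        exact hf a b }
  have hk : ∀ y : L, y ∈ k ↔ f y = 0 := fun y => Iff.rfl
  have hadn : ∀ y : L, IsNilpotent (LieAlgebra.ad K L y) :=
    (LieAlgebra.isNilpotent_iff_forall (R := K) (L := L)).1 inferInstance
  haveI hkn : LieRing.IsNilpotent k :=
    (LieAlgebra.isNilpotent_iff_forall (R := K) (L := k)).2 fun y =>
      LieSubalgebra.isNilpotent_ad_of_isNilpotent_ad k (hadn y)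
  haveI hkm : LieModule.IsNilpotent k L :=
    (LieModule.isNilpotent_iff_forall (R := K) (L := k) (M := L)).2 fun y => hadn y
  haveI hkt : Nontrivial k := by
    have e := LinearMap.finrank_range_add_finrank_ker f
    have e2 : Module.finrank K (LinearMap.range f) ≤ 1 := by
      have := Submodule.finrank_le (LinearMap.range f)
      simpa using this
    have e3 : 0 < Module.finrank K (LinearMap.ker f) := by omega
    haveI := Module.nontrivial_of_finrank_pos (R := K) e3
    obtain ⟨⟨v, hv⟩, hv0⟩ := exists_ne (0 : LinearMap.ker f)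
    refine ⟨⟨⟨v, hv⟩, 0, ?_⟩⟩
    intro h
    apply hv0
    have := congrArg Subtype.val h
    exact Subtype.ext this
  obtain ⟨f', hf0', hf'⟩ := dix1_char (K := K) (L := k)
  obtain ⟨δ0, hδ0, -, hδ0i⟩ := dix1_cocycle (M := L) f' hf0' hf'
  let S : k →ₗ[K] k :=
    LinearMap.restrict (LieAlgebra.ad K L x) (p := k.toSubmodule) (q := k.toSubmodule)
      (fun y _ => hf x y)
  have hS : ∀ y : k, ((S y : k) : L) = ⁅x, (y : L)⁆ := fun y => rfl
  let A : Module.End K (k →ₗ[K] L) :=
    { toFun := fun δ => (LieAlgebra.ad K L x) ∘ₗ δ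
      map_add' := fun a b => by ext y; simp
      map_smul' := fun c a => by ext y; simp }
  let B : Module.End K (k →ₗ[K] L) :=
    { toFun := fun δ => δ ∘ₗ S
      map_add' := fun a b => by ext y; simp
      map_smul' := fun c a => by ext y; simp }
  have hA : ∀ δ y, A δ y = ⁅x, δ y⁆ := fun δ y => rfl
  have hB : ∀ δ y, B δ y = δ (S y) := fun δ y => rfl
  have hAn : IsNilpotent A := by
    obtain ⟨n, hn⟩ := hadn x
    refine ⟨n, ?_⟩
    have key : ∀ n : ℕ, ∀ δ y, (A ^ n) δ y = ((LieAlgebra.ad K L x) ^ n) (δ y) := by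
      intro n
      induction n with
      | zero => intro δ y; rfl
      | succ n ih =>
        intro δ y
        rw [pow_succ', Module.End.mul_apply, hA, ih, pow_succ', Module.End.mul_apply]
        rfl
    ext δ y
    rw [key, hn]; rfl
  have hBn : IsNilpotent B := by
    obtain ⟨n, hn⟩ := hadn x
    refine ⟨n, ?_⟩
    have key : ∀ n : ℕ, ∀ δ y, (B ^ n) δ y = δ ((S ^ n) y) := by
      intro n
      induction n with
      | zero => intro δ y; rfl
      | succ n ih =>
        intro δ y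
        rw [pow_succ, Module.End.mul_apply, ih, hB, pow_succ', Module.End.mul_apply]
    have key2 : ∀ n : ℕ, ∀ y : k, (((S ^ n) y : k) : L) = ((LieAlgebra.ad K L x) ^ n) (y : L) := by
      intro n
      induction n with
      | zero => intro y; rfl
      | succ n ih =>
        intro y
        rw [pow_succ', Module.End.mul_apply, hS, ih, pow_succ', Module.End.mul_apply]
        rfl
    ext δ y
    rw [key]
    have : (S ^ n) y = 0 := by
      apply Subtype.ext
      rw [key2, hn]; rfl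
    rw [this]; simp
  have hAB : Commute A B := by
    change A * B = B * A
    ext δ y
    rfl
  obtain ⟨n, hn⟩ : IsNilpotent (A - B) := hAB.isNilpotent_sub hAn hBn
  -- cocycles are preserved
  have hZ : ∀ δ : k →ₗ[K] L, (∀ a b : k, δ ⁅a, b⁆ = ⁅(a : L), δ b⁆ - ⁅(b : L), δ a⁆) →
      ∀ a b : k, ((A - B) δ) ⁅a, b⁆ = ⁅(a : L), ((A - B) δ) b⁆ - ⁅(b : L), ((A - B) δ) a⁆ := by
    intro δ hδ a b
    have hSab : S ⁅a, b⁆ = ⁅S a, b⁆ + ⁅a, S b⁆ := by
      apply Subtype.ext
      exact leibniz_lie x (a : L) (b : L)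
    simp only [LinearMap.sub_apply, hA, hB]
    rw [hSab, map_add, hδ, hδ, hδ, hS, hS, lie_sub, lie_sub, lie_sub, leibniz_lie x (a : L),
      leibniz_lie x (b : L)]
    abel
  have hZn : ∀ n : ℕ, ∀ a b : k, (((A - B) ^ n) δ0) ⁅a, b⁆ =
      ⁅(a : L), (((A - B) ^ n) δ0) b⁆ - ⁅(b : L), (((A - B) ^ n) δ0) a⁆ := by
    intro n
    induction n with
    | zero => exact hδ0
    | succ n ih =>
      rw [pow_succ', Module.End.mul_apply]
      exact hZ _ ih
  classical
  have hex : ∃ n : ℕ, ∃ m : L, ∀ y : k, (((A - B) ^ n) δ0) y = ⁅(y : L), m⁆ :=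
    ⟨n, 0, fun y => by rw [hn]; simp⟩
  have hfind := Nat.find_spec hex
  have hmin := fun {m} => Nat.find_min (H := hex) (m := m)
  have hpos : Nat.find hex ≠ 0 := by
    intro h0
    rw [h0] at hfind
    obtain ⟨m, hm⟩ := hfind
    exact hδ0i m hm
  obtain ⟨j, hj⟩ := Nat.exists_eq_succ_of_ne_zero hpos
  rw [hj] at hfind
  obtain ⟨m, hm⟩ := hfind
  have hnot := hmin (m := j) (by omega)
  set δ := ((A - B) ^ j) δ0 with hδdef
  have hδZ : ∀ a b : k, δ ⁅a, b⁆ = ⁅(a : L), δ b⁆ - ⁅(b : L), δ a⁆ := hZn j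
  have hm' : ∀ y : k, δ (S y) = ⁅x, δ y⁆ - ⁅(y : L), m⁆ := by
    intro y
    have := hm y
    rw [pow_succ', Module.End.mul_apply, ← hδdef, LinearMap.sub_apply, LinearMap.sub_apply, hA,
      hB] at this
    rw [← this]; abel
  let π : L →ₗ[K] k :=
    LinearMap.codRestrict k.toSubmodule (LinearMap.id - f.smulRight x) (fun v => by
      change f (v - f v • x) = 0
      simp [hx])
  have hπ : ∀ v, ((π v : k) : L) = v - f v • x := fun v => rfl
  have hπk : ∀ y : k, π (y : L) = y := by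
    intro y
    apply Subtype.ext
    rw [hπ]
    have : f (y : L) = 0 := y.2
    rw [this]; simp
  let D2 : L →ₗ[K] L := δ ∘ₗ π + f.smulRight m
  have hD2 : ∀ v, D2 v = δ (π v) + f v • m := fun v => rfl
  refine ⟨D1, D2, ?_, ?_, ?_⟩
  · intro a b
    rw [hD1 a b, ← lie_skew b (D1 a)]
    abel
  · intro a b
    have e1 : π ⁅a, b⁆ = ⁅π a, π b⁆ + f a • S (π b) - f b • S (π a) := by
      apply Subtype.ext
      change ⁅a, b⁆ - f ⁅a, b⁆ • x = ⁅a - f a • x, b - f b • x⁆ + f a • ⁅x, b - f b • x⁆ -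
        f b • ⁅x, a - f a • x⁆
      rw [hf, zero_smul, sub_zero]
      simp only [sub_lie, lie_sub, smul_lie, lie_smul, lie_self, smul_sub, smul_zero, sub_zero]
      rw [← lie_skew x a, smul_neg]
      abel
    rw [hD2, e1, hf, zero_smul, add_zero, map_sub, map_add, map_smul, map_smul, hm', hm', hδZ,
      hD2, hD2]
    have ea : a = (π a : L) + f a • x := by rw [hπ]; abel
    have eb : b = (π b : L) + f b • x := by rw [hπ]; abel
    have e2 : ⁅δ (π a) + f a • m, b⁆ = ⁅δ (π a) + f a • m, (π b : L) + f b • x⁆ := by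
      rw [← eb]
    have e3 : ⁅a, δ (π b) + f b • m⁆ = ⁅(π a : L) + f a • x, δ (π b) + f b • m⁆ := by
      rw [← ea]
    rw [e2, e3]
    simp only [add_lie, lie_add, smul_lie, lie_smul, smul_sub, smul_add]
    rw [← lie_skew (π b : L) (δ (π a)), ← lie_skew x (δ (π a)), ← lie_skew (π b : L) m,
      ← lie_skew x m]
    simp only [smul_neg]
    abel
  · intro p q w hw
    have hq : q = 0 := by
      by_contra hq
      apply hnot
      refine ⟨-(q⁻¹ • w), fun y => ?_⟩
      have h1 := hw (y : L)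
      rw [hD1f _ y.2, smul_zero, zero_add, hD2, hπk] at h1
      have h3 : f (y : L) = 0 := y.2
      rw [h3, zero_smul, add_zero] at h1
      have h4 : δ y = q⁻¹ • ⁅w, (y : L)⁆ := by
        rw [← h1, smul_smul, inv_mul_cancel₀ hq, one_smul]
      change δ y = _
      rw [h4, lie_neg, lie_smul, ← smul_neg, lie_skew]
    refine ⟨?_, hq⟩
    by_contra hp
    apply hD1i (-(p⁻¹ • w))
    intro y
    have h1 := hw y
    rw [hq, zero_smul, add_zero] at h1
    have h4 : D1 y = p⁻¹ • ⁅w, y⁆ := by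
      rw [← h1, smul_smul, inv_mul_cancel₀ hp, one_smul]
    rw [h4, lie_neg, lie_smul, ← smul_neg, lie_skew]

/-- type synonym for the underlying space -/
def Dix1Alg (N : ℕ) : Type := Fin N → ℂ

instance (N : ℕ) : AddCommGroup (Dix1Alg N) := inferInstanceAs (AddCommGroup (Fin N → ℂ))
instance (N : ℕ) : Module ℂ (Dix1Alg N) := inferInstanceAs (Module ℂ (Fin N → ℂ))
instance (N : ℕ) : Module.Finite ℂ (Dix1Alg N) := inferInstanceAs (Module.Finite ℂ (Fin N → ℂ))

theorem dix1_skew {N : ℕ} {a : Arr ℂ N} (hL : IsLie a) (x y : Fin N → ℂ) :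
    br a x y = - br a y x := by
  have h := hL.1 (x + y)
  rw [br_add_left, br_add_right, br_add_right, hL.1 x, hL.1 y, zero_add, add_zero] at h
  exact eq_neg_of_add_eq_zero_left h

/-- the Lie ring attached to structure constants -/
@[reducible] def dix1LieRing {N : ℕ} (a : Arr ℂ N) (hL : IsLie a) : LieRing (Dix1Alg N) where
  bracket x y := br a x y
  add_lie x y z := br_add_left a x y z
  lie_add x y z := br_add_right a x y z
  lie_self x := hL.1 x
  leibniz_lie x y z := by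
    change br a x (br a y z) = br a (br a x y) z + br a y (br a x z)
    have h := hL.2 x y z
    rw [dix1_skew hL z (br a x y), dix1_skew hL z x] at h
    have h2 : br a y (-br a x z) = - br a y (br a x z) := by
      have := br_smul_right a (-1) y (br a x z)
      simpa using this
    rw [h2] at h
    have h3 : br a x (br a y z) - (br a (br a x y) z + br a y (br a x z)) = 0 := by
      rw [← h]; abel
    exact sub_eq_zero.1 h3

end dix1

theorem outer2 {N : ℕ} (hN : 2 ≤ N) (a : Arr ℂ N) (hL : IsLie a)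
    (hnil : ∀ v, IsNilpotent (adM a v)) :
    ∃ D1 D2 : Matrix (Fin N) (Fin N) ℂ, IsDer a D1 ∧ IsDer a D2 ∧
      ∀ (p q : ℂ) (v : Fin N → ℂ), p • D1 + q • D2 = adM a v → p = 0 ∧ q = 0 := by
  letI : LieRing (Dix1Alg N) := dix1LieRing a hL
  letI : LieAlgebra ℂ (Dix1Alg N) :=
    { lie_smul := fun r x y => br_smul_right a r x y }
  have hbr : ∀ x y : Dix1Alg N, ⁅x, y⁆ = br a x y := fun x y => rfl
  haveI : LieRing.IsNilpotent (Dix1Alg N) := by
    rw [LieAlgebra.isNilpotent_iff_forall (R := ℂ)]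
    intro v
    obtain ⟨n, hn⟩ := hnil v
    refine ⟨n, ?_⟩
    have key : ∀ n : ℕ, ∀ y : Dix1Alg N,
        ((LieAlgebra.ad ℂ (Dix1Alg N) v) ^ n) y = ((adM a v) ^ n) *ᵥ y := by
      intro n
      induction n with
      | zero => intro y; simp
      | succ n ih =>
        intro y
        rw [pow_succ', Module.End.mul_apply, ih, pow_succ', ← Matrix.mulVec_mulVec, adM_mulVec]
        rfl
    apply LinearMap.ext
    intro y
    rw [key, hn, Matrix.zero_mulVec]
    rfl
  have hfr : Module.finrank ℂ (Dix1Alg N) = N := by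
    change Module.finrank ℂ (Fin N → ℂ) = N
    simp
  obtain ⟨D1, D2, h1, h2, h3⟩ := dix1_outer2 ℂ (Dix1Alg N) (by rw [hfr]; exact hN)
  let E1 : (Fin N → ℂ) →ₗ[ℂ] (Fin N → ℂ) := D1
  let E2 : (Fin N → ℂ) →ₗ[ℂ] (Fin N → ℂ) := D2
  refine ⟨LinearMap.toMatrix' E1, LinearMap.toMatrix' E2, ?_, ?_, ?_⟩
  · intro x y
    rw [LinearMap.toMatrix'_mulVec, LinearMap.toMatrix'_mulVec, LinearMap.toMatrix'_mulVec]
    exact h1 x y
  · intro x y
    rw [LinearMap.toMatrix'_mulVec, LinearMap.toMatrix'_mulVec, LinearMap.toMatrix'_mulVec]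
    exact h2 x y
  · intro p q v h
    refine h3 p q v fun y => ?_
    have := congrArg (fun A => A *ᵥ (show Fin N → ℂ from y)) h
    simp only [Matrix.add_mulVec, Matrix.smul_mulVec, LinearMap.toMatrix'_mulVec,
      adM_mulVec] at this
    exact this

end Pool.H33.V
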