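import Pool.Agent.H33.V.Dix1

/-! DIX2: if all derivations are nilpotent, then `Der / (Inn + [Der, Der])` has dimension at least 2 -/

open Matrix Filter Topology

attribute [local instance 100] LieRing.ofAssociativeRing
attribute [local instance 100] LieAlgebra.ofAssociativeAlgebra

namespace Pool.H33.V

theorem dix2_anti {N : ℕ} {a : Arr ℂ N} (hL : IsLie a) (x y : Fin N → ℂ) :
    br a x y = - br a y x := by
  have h := hL.1 (x + y)
  rw [br_add_left, br_add_right, br_add_right, hL.1 x, hL.1 y] at h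
  rw [zero_add, add_zero] at h
  exact eq_neg_of_add_eq_zero_left h

theorem dix2_isDer_ad {N : ℕ} {a : Arr ℂ N} (hL : IsLie a) (v : Fin N → ℂ) :
    IsDer a (adM a v) := by
  intro x y
  rw [adM_mulVec, adM_mulVec, adM_mulVec]
  have h := hL.2 v x y
  have h1 : br a x (br a y v) = - br a x (br a v y) := by
    rw [dix2_anti hL y v]
    have := br_smul_right a (-1) x (br a v y)
    simpa using this
  have h2 : br a y (br a v x) = - br a (br a v x) y := dix2_anti hL _ _
  rw [h1, h2] at h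
  have h3 : br a v (br a x y) - (br a (br a v x) y + br a x (br a v y)) = 0 := by
    rw [← h]; abel
  exact sub_eq_zero.mp h3

theorem dix2_comm_isDer {N : ℕ} {a : Arr ℂ N} {A B : Matrix (Fin N) (Fin N) ℂ}
    (hA : IsDer a A) (hB : IsDer a B) : IsDer a (A * B - B * A) := by
  intro x y
  simp only [Matrix.sub_mulVec, ← Matrix.mulVec_mulVec]
  rw [hB x y, hA x y, Matrix.mulVec_add, Matrix.mulVec_add, hA, hA, hB, hB]
  have e1 : ∀ u v y : Fin N → ℂ, br a (u - v) y = br a u y - br a v y := by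
    intro u v y
    have := br_add_left a (u - v) v y
    rw [sub_add_cancel] at this
    rw [this, add_sub_cancel_right]
  have e2 : ∀ u v y : Fin N → ℂ, br a y (u - v) = br a y u - br a y v := by
    intro u v y
    have := br_add_right a y (u - v) v
    rw [sub_add_cancel] at this
    rw [this, add_sub_cancel_right]
  rw [e1, e2]
  abel

theorem dix2_comm_ad {N : ℕ} {a : Arr ℂ N} {A : Matrix (Fin N) (Fin N) ℂ}
    (hA : IsDer a A) (v : Fin N → ℂ) : A * adM a v - adM a v * A = adM a (A *ᵥ v) := by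
  apply Matrix.toLin'.injective
  apply LinearMap.ext
  intro y
  simp only [Matrix.toLin'_apply]
  rw [Matrix.sub_mulVec, ← Matrix.mulVec_mulVec, ← Matrix.mulVec_mulVec, adM_mulVec, adM_mulVec,
    adM_mulVec, hA v y]
  abel

/-- the inner derivations -/
def dix2_Inn {N : ℕ} (a : Arr ℂ N) : Submodule ℂ (Matrix (Fin N) (Fin N) ℂ) where
  carrier := {D | ∃ v, D = adM a v}
  add_mem' := by
    rintro _ _ ⟨v, rfl⟩ ⟨w, rfl⟩
    refine ⟨v + w, ?_⟩
    ext k j
    simp [adM, add_mul, Finset.sum_add_distrib]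
  zero_mem' := ⟨0, by ext k j; simp [adM]⟩
  smul_mem' := by
    rintro r _ ⟨v, rfl⟩
    refine ⟨r • v, ?_⟩
    ext k j
    simp [adM, Finset.mul_sum, mul_assoc]

/-- the Lie algebra of derivations -/
def dix2_L {N : ℕ} (a : Arr ℂ N) : LieSubalgebra ℂ (Matrix (Fin N) (Fin N) ℂ) where
  toSubmodule := DerS a
  lie_mem' := by
    intro A B hA hB
    exact dix2_comm_isDer hA hB

theorem dixmier {N : ℕ} (hN : 1 ≤ N) (a : Arr ℂ N) (hL : IsLie a)
    (hnil : ∀ D, IsDer a D → IsNilpotent D) (D : Matrix (Fin N) (Fin N) ℂ) (hD : IsDer a D) :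
    ∃ D', IsDer a D' ∧ D' ∉ Submodule.span ℂ {D} ⊔ WS a := by
  by_contra hcon
  push Not at hcon
  have hN2 : 2 ≤ N := by
    by_contra h
    have h1 : N = 1 := by omega
    subst h1
    have ha : ∀ x y : Fin 1 → ℂ, br a x y = 0 := by
      intro x y
      have hx : ∀ z : Fin 1 → ℂ, z = z 0 • (Pi.single 0 1 : Fin 1 → ℂ) := by
        intro z
        funext i
        have : i = 0 := Subsingleton.elim _ _
        subst this
        simp
      rw [hx x, hx y, br_smul_left, br_smul_right, hL.1]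
      simp
    have hone : IsDer a (1 : Matrix (Fin 1) (Fin 1) ℂ) := by
      intro x y
      rw [ha, ha, ha]
      simp
    have := hnil 1 hone
    exact not_isNilpotent_one this
  obtain ⟨D1, D2, hD1, hD2, hind⟩ := outer2 hN2 a hL (fun v => hnil _ (dix2_isDer_ad hL v))
  have hnilL : LieRing.IsNilpotent (dix2_L a) := by
    rw [LieAlgebra.isNilpotent_iff_forall (R := ℂ)]
    intro x
    apply LieAlgebra.isNilpotent_ad_of_isNilpotent
    exact hnil _ x.2
  obtain ⟨k0, hk0⟩ := (LieModule.isNilpotent_iff ℂ (dix2_L a) (dix2_L a)).mp hnilL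
  set S : Submodule ℂ (Matrix (Fin N) (Fin N) ℂ) := Submodule.span ℂ {D} ⊔ dix2_Inn a with hS
  let LC : ℕ → Submodule ℂ (Matrix (Fin N) (Fin N) ℂ) := fun k =>
    (LieModule.lowerCentralSeries ℂ (dix2_L a) (dix2_L a) k).toSubmodule.map
      (dix2_L a).toSubmodule.subtype
  have hmemS : ∀ {s : Matrix (Fin N) (Fin N) ℂ}, s ∈ S →
      ∃ (p : ℂ) (v : Fin N → ℂ), s = p • D + adM a v := by
    intro s hs
    obtain ⟨x, hx, y, hy, rfl⟩ := Submodule.mem_sup.mp hs
    obtain ⟨p, rfl⟩ := Submodule.mem_span_singleton.mp hx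
    obtain ⟨v, rfl⟩ := hy
    exact ⟨p, v, rfl⟩
  have hInnS : ∀ v, adM a v ∈ S := fun v => Submodule.mem_sup_right ⟨v, rfl⟩
  have hSS : ∀ s ∈ S, ∀ s' ∈ S, s * s' - s' * s ∈ S := by
    intro s hs s' hs'
    obtain ⟨p, v, rfl⟩ := hmemS hs
    obtain ⟨q, w, rfl⟩ := hmemS hs'
    have e : (p • D + adM a v) * (q • D + adM a w) - (q • D + adM a w) * (p • D + adM a v) =
        p • (D * adM a w - adM a w * D) - q • (D * adM a v - adM a v * D) +
          (adM a v * adM a w - adM a w * adM a v) := by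
      simp only [add_mul, mul_add, smul_mul_assoc, mul_smul_comm]
      module
    rw [e, dix2_comm_ad hD, dix2_comm_ad hD, dix2_comm_ad (dix2_isDer_ad hL v)]
    exact S.add_mem (S.sub_mem (S.smul_mem _ (hInnS _)) (S.smul_mem _ (hInnS _))) (hInnS _)
  have hSDer : ∀ s ∈ S, IsDer a s := by
    intro s hs
    obtain ⟨p, v, rfl⟩ := hmemS hs
    exact (DerS a).add_mem ((DerS a).smul_mem _ hD) (dix2_isDer_ad hL v)
  have hLC : ∀ k (A : Matrix (Fin N) (Fin N) ℂ), IsDer a A → ∀ c ∈ LC k, A * c - c * A ∈ LC (k + 1) := by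
    intro k A hA c hc
    obtain ⟨c', hc', rfl⟩ := hc
    refine ⟨⁅(⟨A, hA⟩ : dix2_L a), c'⁆, ?_, rfl⟩
    have : ⁅(⟨A, hA⟩ : dix2_L a), c'⁆ ∈
        LieModule.lowerCentralSeries ℂ (dix2_L a) (dix2_L a) (k + 1) := by
      rw [LieModule.lowerCentralSeries_succ]
      exact LieSubmodule.lie_mem_lie (LieSubmodule.mem_top _) hc'
    exact this
  have hLCDer : ∀ k, ∀ c ∈ LC k, IsDer a c := by
    rintro k _ ⟨c', _, rfl⟩
    exact c'.2
  have key : ∀ k, DerS a ≤ S ⊔ LC k := by
    intro k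
    induction k with
    | zero =>
      intro A hA
      apply Submodule.mem_sup_right
      refine ⟨⟨A, hA⟩, ?_, rfl⟩
      simp
    | succ k ih =>
      intro A hA
      have h1 := hcon A hA
      refine (sup_le (le_sup_of_le_left le_sup_left) ?_ : Submodule.span ℂ {D} ⊔ WS a ≤ S ⊔ LC (k + 1)) h1
      refine Submodule.span_le.mpr ?_
      rintro M (⟨v, rfl⟩ | ⟨A', B', hA', hB', rfl⟩)
      · exact Submodule.mem_sup_left (hInnS v)
      · obtain ⟨s, hs, c, hc, rfl⟩ := Submodule.mem_sup.mp (ih hA')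
        obtain ⟨s', hs', c', hc', rfl⟩ := Submodule.mem_sup.mp (ih hB')
        have e : (s + c) * (s' + c') - (s' + c') * (s + c) =
            (s * s' - s' * s) + ((s * c' - c' * s) - ((s' + c') * c - c * (s' + c'))) := by
          simp only [add_mul, mul_add]
          abel
        rw [e]
        apply Submodule.add_mem_sup (hSS s hs s' hs')
        exact (LC (k + 1)).sub_mem (hLC k s (hSDer s hs) c' hc') (hLC k _ hB' c hc)
  have hfin : DerS a ≤ S := by
    have h := key k0
    have h0 : LC k0 = ⊥ := by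
      change Submodule.map _ (LieModule.lowerCentralSeries ℂ (dix2_L a) (dix2_L a) k0).toSubmodule = ⊥
      rw [hk0]
      simp
    rwa [h0, sup_bot_eq] at h
  obtain ⟨p1, v1, h1⟩ := hmemS (hfin hD1)
  obtain ⟨p2, v2, h2⟩ := hmemS (hfin hD2)
  have hadd : ∀ (r s : ℂ) (v w : Fin N → ℂ), r • adM a v + s • adM a w = adM a (r • v + s • w) := by
    intro r s v w
    ext k j
    simp only [adM, Matrix.add_apply, Matrix.smul_apply, Matrix.of_apply, smul_eq_mul, Pi.add_apply,
      Pi.smul_apply, add_mul, Finset.sum_add_distrib, Finset.mul_sum, mul_assoc]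
  have h3 := hind p2 (-p1) (p2 • v1 + (-p1) • v2) (by
    rw [← hadd, h1, h2]
    simp only [smul_add, smul_smul, neg_mul, neg_smul, mul_comm p2 p1]
    abel)
  have hp1 : p1 = 0 := by simpa using h3.2
  rw [hp1, zero_smul, zero_add] at h1
  have h4 := hind 1 0 v1 (by rw [h1]; simp)
  exact one_ne_zero h4.1

end Pool.H33.V
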