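import Mathlib

/-!
# No nilpotent Lie algebra is rigid: definitions

All algebras are given by structure constants `c i j k` = coefficient of `e_k` in `[e_i, e_j]`.
-/

open Matrix Filter Topology

namespace Pool.H33.V

/-- structure constants: `c i j k` is the coefficient of `e_k` in `[e_i, e_j]` -/
abbrev Arr (R : Type*) (N : ℕ) := Fin N → Fin N → Fin N → R

section General
variable {R : Type*} [CommRing R] {N M : ℕ}

/-- the bracket with structure constants `c` -/
def br (c : Arr R N) (x y : Fin N → R) : Fin N → R := fun k => ∑ i, ∑ j, x i * y j * c i j k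

/-- `D` is a derivation of `c` -/
def IsDer (c : Arr R N) (D : Matrix (Fin N) (Fin N) R) : Prop :=
  ∀ x y, D *ᵥ br c x y = br c (D *ᵥ x) y + br c x (D *ᵥ y)

/-- `θ` is a homomorphism from `c` to `c'` -/
def IsHom (c : Arr R N) (c' : Arr R M) (θ : Matrix (Fin M) (Fin N) R) : Prop :=
  ∀ x y, θ *ᵥ br c x y = br c' (θ *ᵥ x) (θ *ᵥ y)

/-- alternating and Jacobi -/
def IsLie (c : Arr R N) : Prop :=
  (∀ x, br c x x = 0) ∧ ∀ x y z, br c x (br c y z) + br c y (br c z x) + br c z (br c x y) = 0

/-- the matrix of `[v, ·]` -/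
def adM (c : Arr R N) (v : Fin N → R) : Matrix (Fin N) (Fin N) R :=
  Matrix.of fun k j => ∑ i, v i * c i j k

/-- the coboundary of `X`: `(i, j) ↦ X [e_i, e_j] - [X e_i, e_j] - [e_i, X e_j]` -/
def dlt (c : Arr R N) (X : Matrix (Fin N) (Fin N) R) : Arr R N :=
  fun i j k => ∑ l, X k l * c i j l - ∑ l, X l i * c l j k - ∑ l, X l j * c i l k

/-- structure constants of the semidirect product `R e_0 ⋉_D a` (index `0` is the new vector,
`[e_0, y] = D y`) -/
def sdA (a : Arr R N) (D : Matrix (Fin N) (Fin N) R) : Arr R (N + 1) :=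
  fun i j k => Fin.cases 0 (fun k' => Fin.cases (Fin.cases 0 (fun j' => D k' j') j)
    (fun i' => Fin.cases (-D k' i') (fun j' => a i' j' k') j) i) k

/-- the square matrix with first column `x` and the other columns from `ψ` -/
def aug (x : Fin (N + 1) → R) (ψ : Matrix (Fin (N + 1)) (Fin N) R) :
    Matrix (Fin (N + 1)) (Fin (N + 1)) R :=
  Matrix.of fun i j => Fin.cases (x i) (fun j' => ψ i j') j

/-- the vector of maximal minors of `ψ` (with signs): `lam ψ ⬝ᵥ x = det (aug x ψ)` -/
def lam (ψ : Matrix (Fin (N + 1)) (Fin N) R) : Fin (N + 1) → R :=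
  fun i => (aug (Pi.single i 1) ψ).det

/-- the matrix without its first column -/
def dropc (P : Matrix (Fin (N + 1)) (Fin (N + 1)) R) : Matrix (Fin (N + 1)) (Fin N) R :=
  Matrix.of fun i j => P i j.succ

/-! ### basic identities -/

theorem br_add_left (c : Arr R N) (x x' y : Fin N → R) : br c (x + x') y = br c x y + br c x' y := by
  funext k; simp only [br, Pi.add_apply, add_mul, Finset.sum_add_distrib]

theorem br_add_right (c : Arr R N) (x y y' : Fin N → R) : br c x (y + y') = br c x y + br c x y' := by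
  funext k; simp only [br, Pi.add_apply, mul_add, add_mul, Finset.sum_add_distrib]

theorem br_smul_left (c : Arr R N) (r : R) (x y : Fin N → R) : br c (r • x) y = r • br c x y := by
  funext k; simp only [br, Pi.smul_apply, smul_eq_mul, Finset.mul_sum, mul_assoc]

theorem br_smul_right (c : Arr R N) (r : R) (x y : Fin N → R) : br c x (r • y) = r • br c x y := by
  funext k; simp only [br, Pi.smul_apply, smul_eq_mul, Finset.mul_sum, mul_assoc, mul_left_comm]

theorem br_zero_left (c : Arr R N) (y : Fin N → R) : br c 0 y = 0 := by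
  funext k; simp [br]

theorem br_zero_right (c : Arr R N) (x : Fin N → R) : br c x 0 = 0 := by
  funext k; simp [br]

theorem br_add_arr (c c' : Arr R N) (x y : Fin N → R) : br (c + c') x y = br c x y + br c' x y := by
  funext k; simp only [br, Pi.add_apply, mul_add, Finset.sum_add_distrib]

theorem br_single (c : Arr R N) (i j : Fin N) : br c (Pi.single i 1) (Pi.single j 1) = c i j := by
  funext k
  simp only [br]
  rw [Finset.sum_eq_single i]
  · rw [Finset.sum_eq_single j]
    · simp
    · intro b _ hb; simp [Pi.single_apply, hb]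
    · intro h; exact absurd (Finset.mem_univ _) h
  · intro b _ hb; simp [Pi.single_apply, hb]
  · intro h; exact absurd (Finset.mem_univ _) h

theorem adM_mulVec (c : Arr R N) (v y : Fin N → R) : adM c v *ᵥ y = br c v y := by
  funext k
  simp only [adM, br, Matrix.mulVec, dotProduct, Matrix.of_apply, Finset.sum_mul]
  rw [Finset.sum_comm]
  refine Finset.sum_congr rfl fun i _ => Finset.sum_congr rfl fun j _ => by ring

/-- bilinear maps that agree on the standard basis are equal -/
theorem bilin_ext {E : Type*} [AddCommGroup E] [Module R E] (f g : (Fin N → R) → (Fin N → R) → E)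
    (hf1 : ∀ x x' y, f (x + x') y = f x y + f x' y) (hf2 : ∀ (r : R) x y, f (r • x) y = r • f x y)
    (hf3 : ∀ x y y', f x (y + y') = f x y + f x y') (hf4 : ∀ (r : R) x y, f x (r • y) = r • f x y)
    (hg1 : ∀ x x' y, g (x + x') y = g x y + g x' y) (hg2 : ∀ (r : R) x y, g (r • x) y = r • g x y)
    (hg3 : ∀ x y y', g x (y + y') = g x y + g x y') (hg4 : ∀ (r : R) x y, g x (r • y) = r • g x y)
    (h : ∀ i j, f (Pi.single i 1) (Pi.single j 1) = g (Pi.single i 1) (Pi.single j 1)) :
    ∀ x y, f x y = g x y := by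
  let F : (Fin N → R) →ₗ[R] (Fin N → R) →ₗ[R] E :=
    LinearMap.mk₂ R f hf1 hf2 hf3 hf4
  let G : (Fin N → R) →ₗ[R] (Fin N → R) →ₗ[R] E :=
    LinearMap.mk₂ R g hg1 hg2 hg3 hg4
  have : F = G := by
    apply LinearMap.pi_ext'
    intro i
    apply LinearMap.ext_ring
    apply LinearMap.pi_ext'
    intro j
    apply LinearMap.ext_ring
    exact h i j
  intro x y
  exact LinearMap.congr_fun (LinearMap.congr_fun this x) y

theorem br_single_left (c : Arr R N) (i : Fin N) (y : Fin N → R) (k : Fin N) :
    br c (Pi.single i 1) y k = ∑ j, y j * c i j k := by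
  simp only [br]
  rw [Finset.sum_eq_single i]
  · simp
  · intro b _ hb; simp [hb]
  · intro h; exact absurd (Finset.mem_univ _) h

theorem br_single_right (c : Arr R N) (j : Fin N) (x : Fin N → R) (k : Fin N) :
    br c x (Pi.single j 1) k = ∑ i, x i * c i j k := by
  simp only [br]
  refine Finset.sum_congr rfl fun i _ => ?_
  rw [Finset.sum_eq_single j]
  · simp
  · intro b _ hb; simp [hb]
  · intro h; exact absurd (Finset.mem_univ _) h

theorem dlt_apply (c : Arr R N) (X : Matrix (Fin N) (Fin N) R) (i j : Fin N) :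
    dlt c X i j = X *ᵥ br c (Pi.single i 1) (Pi.single j 1)
      - br c (X *ᵥ Pi.single i 1) (Pi.single j 1) - br c (Pi.single i 1) (X *ᵥ Pi.single j 1) := by
  funext k
  rw [br_single]
  simp only [Pi.sub_apply]
  rw [br_single_left, br_single_right]
  simp only [dlt, Matrix.mulVec_single_one, Matrix.col_apply]
  rfl

/-- the coboundary as a bilinear map -/
theorem br_dlt (c : Arr R N) (X : Matrix (Fin N) (Fin N) R) (x y : Fin N → R) :
    br (dlt c X) x y = X *ᵥ br c x y - br c (X *ᵥ x) y - br c x (X *ᵥ y) := by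
  revert x y
  apply bilin_ext (E := Fin N → R) (fun x y => br (dlt c X) x y)
    (fun x y => X *ᵥ br c x y - br c (X *ᵥ x) y - br c x (X *ᵥ y))
  · intro x x' y; exact br_add_left _ _ _ _
  · intro r x y; exact br_smul_left _ _ _ _
  · intro x y y'; exact br_add_right _ _ _ _
  · intro r x y; exact br_smul_right _ _ _ _
  · intro x x' y
    change X *ᵥ br c (x + x') y - br c (X *ᵥ (x + x')) y - br c (x + x') (X *ᵥ y) = _
    rw [Matrix.mulVec_add, br_add_left, br_add_left, br_add_left, Matrix.mulVec_add]; abel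
  · intro r x y
    change X *ᵥ br c (r • x) y - br c (X *ᵥ (r • x)) y - br c (r • x) (X *ᵥ y) = _
    rw [Matrix.mulVec_smul, br_smul_left, br_smul_left, br_smul_left, Matrix.mulVec_smul,
      smul_sub, smul_sub]
  · intro x y y'
    change X *ᵥ br c x (y + y') - br c (X *ᵥ x) (y + y') - br c x (X *ᵥ (y + y')) = _
    rw [Matrix.mulVec_add, br_add_right, br_add_right, br_add_right, Matrix.mulVec_add]; abel
  · intro r x y
    change X *ᵥ br c x (r • y) - br c (X *ᵥ x) (r • y) - br c x (X *ᵥ (r • y)) = _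
    rw [Matrix.mulVec_smul, br_smul_right, br_smul_right, br_smul_right, Matrix.mulVec_smul,
      smul_sub, smul_sub]
  · intro i j
    rw [br_single]; exact dlt_apply c X i j

theorem br_arr_ext {c c' : Arr R N} (h : ∀ x y, br c x y = br c' x y) : c = c' := by
  funext i j
  rw [← br_single c, ← br_single c', h]

theorem isDer_iff (c : Arr R N) (D : Matrix (Fin N) (Fin N) R) : IsDer c D ↔ dlt c D = 0 := by
  constructor
  · intro h
    apply br_arr_ext
    intro x y
    rw [br_dlt, h x y]
    funext k; simp [br]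
  · intro h x y
    have := br_dlt c D x y
    rw [h] at this
    have h0 : br (0 : Arr R N) x y = 0 := by funext k; simp [br]
    rw [h0, sub_sub, eq_comm, sub_eq_zero] at this
    exact this

theorem br_sdA (a : Arr R N) (D : Matrix (Fin N) (Fin N) R) (u v : Fin (N + 1) → R) :
    br (sdA a D) u v = Fin.cons 0 (br a (Fin.tail u) (Fin.tail v) + u 0 • (D *ᵥ Fin.tail v)
      - v 0 • (D *ᵥ Fin.tail u)) := by
  funext k
  refine Fin.cases ?_ (fun k' => ?_) k
  · simp [br, sdA]
  · simp only [br, sdA, Fin.sum_univ_succ, Fin.cases_zero, Fin.cases_succ, Fin.cons_succ,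
      Pi.add_apply, Pi.sub_apply, Pi.smul_apply, smul_eq_mul, Matrix.mulVec, dotProduct, Fin.tail,
      Finset.sum_add_distrib, Finset.mul_sum]
    have e : ∀ x : Fin N, D k' x * v x.succ * u 0 = u 0 * v x.succ * D k' x := fun x => by ring
    have e1 : ∑ x : Fin N, u 0 * v x.succ * D k' x = ∑ x : Fin N, u 0 * (D k' x * v x.succ) :=
      Finset.sum_congr rfl fun x _ => by ring
    have e2 : ∑ x : Fin N, u x.succ * v 0 * -D k' x = - ∑ x : Fin N, v 0 * (D k' x * u x.succ) := by
      rw [← Finset.sum_neg_distrib]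
      exact Finset.sum_congr rfl fun x _ => by ring
    rw [e1, e2]
    ring

theorem lam_dotProduct (ψ : Matrix (Fin (N + 1)) (Fin N) R) (x : Fin (N + 1) → R) :
    lam ψ ⬝ᵥ x = (aug x ψ).det := by
  have h : ∀ x : Fin (N + 1) → R, aug x ψ = (aug 0 ψ).updateCol 0 x := by
    intro x
    ext i j
    refine Fin.cases ?_ (fun j' => ?_) j
    · simp [aug]
    · simp [aug, Matrix.updateCol_apply]
  let L : (Fin (N + 1) → R) →ₗ[R] R :=
    { toFun := fun x => (aug x ψ).det
      map_add' := fun x y => by
        rw [h (x + y), h x, h y, Matrix.det_updateCol_add]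
      map_smul' := fun r x => by
        change (aug (r • x) ψ).det = r • (aug x ψ).det
        rw [h (r • x), h x, Matrix.det_updateCol_smul, smul_eq_mul] }
  have hL : (aug x ψ).det = L x := rfl
  rw [hL, LinearMap.pi_apply_eq_sum_univ L x]
  simp only [dotProduct, lam, smul_eq_mul]
  refine Finset.sum_congr rfl fun i _ => ?_
  have hs : (Pi.single i 1 : Fin (N + 1) → R) = fun j => if i = j then 1 else 0 := by
    funext j
    by_cases hj : i = j
    · subst hj; simp
    · simp [Pi.single_apply, hj, Ne.symm hj]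
  rw [mul_comm, hs]
  rfl

theorem aug_mul (P : Matrix (Fin (N + 1)) (Fin (N + 1)) R) (x : Fin (N + 1) → R)
    (ψ : Matrix (Fin (N + 1)) (Fin N) R) : aug (P *ᵥ x) (P * ψ) = P * aug x ψ := by
  ext i j
  refine Fin.cases ?_ (fun j' => ?_) j
  · simp [aug, Matrix.mul_apply, Matrix.mulVec, dotProduct]
  · simp [aug, Matrix.mul_apply]

/-- `lam ψ` vanishes on the image of `ψ` -/
theorem lam_mulVec (ψ : Matrix (Fin (N + 1)) (Fin N) R) (y : Fin N → R) :
    lam ψ ⬝ᵥ (ψ *ᵥ y) = 0 := by
  have h2 : lam ψ ⬝ᵥ (ψ *ᵥ y) = ∑ j, y j * (lam ψ ⬝ᵥ fun i => ψ i j) := by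
    simp only [dotProduct, Matrix.mulVec, Finset.mul_sum]
    rw [Finset.sum_comm]
    refine Finset.sum_congr rfl fun j _ => Finset.sum_congr rfl fun i _ => by ring
  rw [h2]
  refine Finset.sum_eq_zero fun j _ => ?_
  rw [lam_dotProduct, Matrix.det_zero_of_column_eq (i := 0) (j := j.succ) (Fin.succ_ne_zero j).symm,
    mul_zero]
  intro k
  simp [aug]

end General

section Complex
variable {N : ℕ}

/-- the space of derivations -/
def DerS (c : Arr ℂ N) : Submodule ℂ (Matrix (Fin N) (Fin N) ℂ) where
  carrier := {D | IsDer c D}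
  add_mem' := by
    intro A B hA hB x y
    rw [Matrix.add_mulVec, hA x y, hB x y, Matrix.add_mulVec, Matrix.add_mulVec, br_add_left,
      br_add_right]
    abel
  zero_mem' := by
    intro x y
    simp [br_zero_left, br_zero_right]
  smul_mem' := by
    intro r A hA x y
    rw [Matrix.smul_mulVec, hA x y, Matrix.smul_mulVec, Matrix.smul_mulVec, br_smul_left,
      br_smul_right, smul_add]

theorem mem_DerS {c : Arr ℂ N} {D : Matrix (Fin N) (Fin N) ℂ} : D ∈ DerS c ↔ IsDer c D := Iff.rfl

/-- the span of the inner derivations and the commutators of derivations -/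
def WS (c : Arr ℂ N) : Submodule ℂ (Matrix (Fin N) (Fin N) ℂ) :=
  Submodule.span ℂ ({D | ∃ v, D = adM c v} ∪ {D | ∃ A B, IsDer c A ∧ IsDer c B ∧ D = A * B - B * A})

/-- the coboundary as a linear map -/
def dltL (c : Arr ℂ N) : Matrix (Fin N) (Fin N) ℂ →ₗ[ℂ] Arr ℂ N where
  toFun := dlt c
  map_add' := by
    intro A B
    funext i j k
    simp only [dlt, Matrix.add_apply, add_mul, Finset.sum_add_distrib, Pi.add_apply]
    ring
  map_smul' := by
    intro r A
    funext i j k
    simp only [dlt, Matrix.smul_apply, smul_eq_mul, Pi.smul_apply, RingHom.id_apply, mul_sub,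
      Finset.mul_sum, mul_assoc]

/-- `(a, D)` is good for `μ`: `a` is a Lie algebra, `D` a derivation of it, and the semidirect
product is isomorphic to `μ` -/
def Good (μ : Arr ℂ (N + 1)) (a : Arr ℂ N) (D : Matrix (Fin N) (Fin N) ℂ) : Prop :=
  IsLie a ∧ IsDer a D ∧ ∃ P : Matrix (Fin (N + 1)) (Fin (N + 1)) ℂ, P.det ≠ 0 ∧ IsHom (sdA a D) μ P

end Complex

end Pool.H33.V
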