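import Pool.Agent.H33.V.Defs

/-! # The ultrapower of the complex numbers, and ring homomorphisms applied to structure constants -/

open Matrix Filter Topology

namespace Pool.H33.V

section Map
variable {R S : Type*} [CommRing R] [CommRing S] {N M : ℕ}

/-- apply a ring homomorphism to structure constants -/
def mapA (f : R →+* S) (c : Arr R N) : Arr S N := fun i j k => f (c i j k)

theorem mapA_comp {T : Type*} [CommRing T] (g : S →+* T) (f : R →+* S) (c : Arr R N) :
    mapA g (mapA f c) = mapA (g.comp f) c := rfl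

theorem mapA_add (f : R →+* S) (c c' : Arr R N) : mapA f (c + c') = mapA f c + mapA f c' := by
  funext i j k; simp [mapA]

theorem mapA_zero (f : R →+* S) : mapA f (0 : Arr R N) = 0 := by
  funext i j k; simp [mapA]

theorem br_map (f : R →+* S) (c : Arr R N) (x y : Fin N → R) :
    br (mapA f c) (f ∘ x) (f ∘ y) = f ∘ br c x y := by
  funext k; simp [br, mapA, map_sum, map_mul]

theorem dlt_map (f : R →+* S) (c : Arr R N) (X : Matrix (Fin N) (Fin N) R) :
    dlt (mapA f c) (X.map f) = mapA f (dlt c X) := by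
  funext i j k; simp [dlt, mapA, map_sum, map_mul, map_sub]

theorem mulVec_map (f : R →+* S) (X : Matrix (Fin M) (Fin N) R) (x : Fin N → R) :
    (X.map f) *ᵥ (f ∘ x) = f ∘ (X *ᵥ x) := by
  funext k; simp [Matrix.mulVec, dotProduct, map_sum, map_mul]

/-- the defect of being a homomorphism -/
def hdef (c : Arr R N) (c' : Arr R M) (θ : Matrix (Fin M) (Fin N) R) : Fin N → Fin N → Fin M → R :=
  fun i j => θ *ᵥ (c i j) - br c' (θ *ᵥ Pi.single i 1) (θ *ᵥ Pi.single j 1)

theorem isHom_iff_hdef (c : Arr R N) (c' : Arr R M) (θ : Matrix (Fin M) (Fin N) R) :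
    IsHom c c' θ ↔ hdef c c' θ = 0 := by
  constructor
  · intro h
    funext i j
    have := h (Pi.single i 1) (Pi.single j 1)
    rw [br_single] at this
    simp only [hdef, this, sub_self]; rfl
  · intro h
    unfold IsHom
    refine bilin_ext (E := Fin M → R) (fun x y => θ *ᵥ br c x y) (fun x y => br c' (θ *ᵥ x) (θ *ᵥ y))
      ?_ ?_ ?_ ?_ ?_ ?_ ?_ ?_ ?_
    · intro x x' y; simp only [br_add_left, Matrix.mulVec_add]
    · intro r x y; simp only [br_smul_left, Matrix.mulVec_smul]
    · intro x y y'; simp only [br_add_right, Matrix.mulVec_add]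
    · intro r x y; simp only [br_smul_right, Matrix.mulVec_smul]
    · intro x x' y; simp only [br_add_left, Matrix.mulVec_add]
    · intro r x y; simp only [br_smul_left, Matrix.mulVec_smul]
    · intro x y y'; simp only [br_add_right, Matrix.mulVec_add]
    · intro r x y; simp only [br_smul_right, Matrix.mulVec_smul]
    · intro i j
      have := congrFun (congrFun h i) j
      simp only [hdef, Pi.zero_apply] at this
      show θ *ᵥ br c (Pi.single i 1) (Pi.single j 1) = _
      rw [br_single]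
      exact sub_eq_zero.1 this

theorem hdef_map (f : R →+* S) (c : Arr R N) (c' : Arr R M) (θ : Matrix (Fin M) (Fin N) R) :
    hdef (mapA f c) (mapA f c') (θ.map f) = fun i j k => f (hdef c c' θ i j k) := by
  have hs : ∀ i : Fin N, (Pi.single i 1 : Fin N → S) = f ∘ (Pi.single i 1 : Fin N → R) := by
    intro i; funext k
    by_cases hk : k = i
    · subst hk; simp
    · simp [Pi.single_apply, hk]
  funext i j k
  simp only [hdef, hs, mulVec_map, br_map, Pi.sub_apply, map_sub]
  have : mapA f c i j = f ∘ (c i j) := rfl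
  rw [this, mulVec_map]
  rfl

end Map

/-- the ultrapower of `ℂ` -/
def KK : Type := (hyperfilter ℕ : Filter ℕ).Germ ℂ

noncomputable instance : Field KK := inferInstanceAs (Field ((hyperfilter ℕ : Filter ℕ).Germ ℂ))

/-- the class of a sequence -/
noncomputable def mk : (ℕ → ℂ) →+* KK := Germ.coeRingHom (hyperfilter ℕ : Filter ℕ)

theorem mk_surj : Function.Surjective mk := by
  intro x
  obtain ⟨f, rfl⟩ := Quotient.exists_rep x
  exact ⟨f, rfl⟩

theorem mk_eq_mk {f g : ℕ → ℂ} : mk f = mk g ↔ ∀ᶠ k in (hyperfilter ℕ : Filter ℕ), f k = g k :=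
  Germ.coe_eq

theorem mk_eq_zero {f : ℕ → ℂ} : mk f = 0 ↔ ∀ᶠ k in (hyperfilter ℕ : Filter ℕ), f k = 0 := by
  rw [← map_zero mk, mk_eq_mk]; rfl

noncomputable instance : Algebra ℂ KK := (mk.comp (Pi.constRingHom ℕ ℂ)).toAlgebra

theorem algebraMap_eq (c : ℂ) : algebraMap ℂ KK c = mk (fun _ => c) := rfl

instance : CharZero KK := charZero_of_injective_algebraMap (algebraMap ℂ KK).injective

/-- evaluation of a sequence at `k` -/
abbrev ev (k : ℕ) : (ℕ → ℂ) →+* ℂ := Pi.evalRingHom (fun _ => ℂ) k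

/-- the sequence of arrays as an array of sequences -/
def seqA {N : ℕ} (c : ℕ → Arr ℂ N) : Arr (ℕ → ℂ) N := fun i j l k => c k i j l

/-- the sequence of matrices as a matrix of sequences -/
def seqM {m n : Type*} (c : ℕ → Matrix m n ℂ) : Matrix m n (ℕ → ℂ) := Matrix.of fun i j k => c k i j

theorem mapA_ev_seqA {N : ℕ} (c : ℕ → Arr ℂ N) (k : ℕ) : mapA (ev k) (seqA c) = c k := rfl

theorem map_ev_seqM {m n : Type*} (c : ℕ → Matrix m n ℂ) (k : ℕ) : (seqM c).map (ev k) = c k := rfl

theorem mapA_mk_const {N : ℕ} (a : Arr ℂ N) :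
    mapA mk (seqA fun _ => a) = mapA (algebraMap ℂ KK) a := rfl

theorem map_mk_const {m n : Type*} (a : Matrix m n ℂ) :
    (seqM fun _ => a).map mk = a.map (algebraMap ℂ KK) := rfl

theorem exists_seqA {N : ℕ} (c : Arr KK N) : ∃ c' : ℕ → Arr ℂ N, mapA mk (seqA c') = c := by
  choose f hf using fun i j l => mk_surj (c i j l)
  exact ⟨fun k i j l => f i j l k, by funext i j l; exact hf i j l⟩

theorem exists_seqM {m n : Type*} (c : Matrix m n KK) :
    ∃ c' : ℕ → Matrix m n ℂ, (seqM c').map mk = c := by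
  choose f hf using fun i j => mk_surj (c i j)
  exact ⟨fun k => Matrix.of fun i j => f i j k, by ext i j; exact hf i j⟩

theorem mapA_mk_eq_iff {N : ℕ} {c c' : ℕ → Arr ℂ N} : mapA mk (seqA c) = mapA mk (seqA c') ↔
    ∀ᶠ k in (hyperfilter ℕ : Filter ℕ), c k = c' k := by
  constructor
  · intro h
    have h1 : ∀ i j l, ∀ᶠ k in (hyperfilter ℕ : Filter ℕ), c k i j l = c' k i j l := by
      intro i j l
      exact mk_eq_mk.1 (congrFun (congrFun (congrFun h i) j) l)
    have h2 : ∀ᶠ k in (hyperfilter ℕ : Filter ℕ), ∀ i j l, c k i j l = c' k i j l := by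
      simpa only [Filter.eventually_all] using h1
    filter_upwards [h2] with k hk
    funext i j l; exact hk i j l
  · intro h
    funext i j l
    exact mk_eq_mk.2 (h.mono fun k hk => by show c k i j l = c' k i j l; rw [hk])

theorem map_mk_eq_iff {m n : Type*} [Finite m] [Finite n] {c c' : ℕ → Matrix m n ℂ} :
    (seqM c).map mk = (seqM c').map mk ↔ ∀ᶠ k in (hyperfilter ℕ : Filter ℕ), c k = c' k := by
  constructor
  · intro h
    have h1 : ∀ i j, ∀ᶠ k in (hyperfilter ℕ : Filter ℕ), c k i j = c' k i j := by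
      intro i j
      exact mk_eq_mk.1 (congrFun (congrFun h i) j)
    have h2 : ∀ᶠ k in (hyperfilter ℕ : Filter ℕ), ∀ i j, c k i j = c' k i j := by
      simpa only [Filter.eventually_all] using h1
    filter_upwards [h2] with k hk
    ext i j; exact hk i j
  · intro h
    ext i j
    exact mk_eq_mk.2 (h.mono fun k hk => by show c k i j = c' k i j; rw [hk])

theorem isHom_mk_iff {N M : ℕ} {c : ℕ → Arr ℂ N} {c' : ℕ → Arr ℂ M}
    {θ : ℕ → Matrix (Fin M) (Fin N) ℂ} :
    IsHom (mapA mk (seqA c)) (mapA mk (seqA c')) ((seqM θ).map mk) ↔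
      ∀ᶠ k in (hyperfilter ℕ : Filter ℕ), IsHom (c k) (c' k) (θ k) := by
  rw [isHom_iff_hdef, hdef_map]
  have h0 : ∀ k, hdef (c k) (c' k) (θ k) = fun i j l => hdef (seqA c) (seqA c') (seqM θ) i j l k := by
    intro k
    have := hdef_map (ev k) (seqA c) (seqA c') (seqM θ)
    rw [mapA_ev_seqA, mapA_ev_seqA, map_ev_seqM] at this
    exact this
  constructor
  · intro h
    have h1 : ∀ i j l, ∀ᶠ k in (hyperfilter ℕ : Filter ℕ),
        hdef (seqA c) (seqA c') (seqM θ) i j l k = 0 := by
      intro i j l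
      exact mk_eq_zero.1 (congrFun (congrFun (congrFun h i) j) l)
    have h2 : ∀ᶠ k in (hyperfilter ℕ : Filter ℕ), ∀ i j l,
        hdef (seqA c) (seqA c') (seqM θ) i j l k = 0 := by
      simpa only [Filter.eventually_all] using h1
    filter_upwards [h2] with k hk
    rw [isHom_iff_hdef, h0]
    funext i j l; exact hk i j l
  · intro h
    funext i j l
    refine mk_eq_zero.2 (h.mono fun k hk => ?_)
    rw [isHom_iff_hdef, h0] at hk
    exact congrFun (congrFun (congrFun hk i) j) l

theorem dlt_mk {N : ℕ} (c : ℕ → Arr ℂ N) (X : ℕ → Matrix (Fin N) (Fin N) ℂ) :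
    dlt (mapA mk (seqA c)) ((seqM X).map mk) = mapA mk (seqA fun k => dlt (c k) (X k)) := by
  rw [dlt_map]
  congr 1
  funext i j l k
  have := dlt_map (ev k) (seqA c) (seqM X)
  rw [mapA_ev_seqA, map_ev_seqM] at this
  exact (congrFun (congrFun (congrFun this i) j) l).symm

theorem isDer_mk_iff {N : ℕ} {c : ℕ → Arr ℂ N} {X : ℕ → Matrix (Fin N) (Fin N) ℂ} :
    IsDer (mapA mk (seqA c)) ((seqM X).map mk) ↔
      ∀ᶠ k in (hyperfilter ℕ : Filter ℕ), IsDer (c k) (X k) := by
  rw [isDer_iff, dlt_mk]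
  have h0 : (0 : Arr KK N) = mapA mk (seqA fun _ => 0) := by
    rw [show (seqA fun _ => (0 : Arr ℂ N)) = 0 from rfl, mapA_zero]
  rw [h0, mapA_mk_eq_iff]
  simp only [isDer_iff]

theorem det_mk {N : ℕ} (X : ℕ → Matrix (Fin N) (Fin N) ℂ) :
    ((seqM X).map mk).det = mk (fun k => (X k).det) := by
  have h1 : ((seqM X).map mk).det = mk (seqM X).det := (RingHom.map_det mk (seqM X)).symm
  rw [h1]
  congr 1
  funext k
  have h2 : ((seqM X).map (ev k)).det = ev k (seqM X).det := (RingHom.map_det (ev k) (seqM X)).symm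
  rw [map_ev_seqM] at h2
  exact h2.symm

theorem trace_mk {N : ℕ} (X : ℕ → Matrix (Fin N) (Fin N) ℂ) :
    ((seqM X).map mk).trace = mk (fun k => (X k).trace) := by
  simp only [Matrix.trace, Matrix.diag_apply, Matrix.map_apply]
  rw [← map_sum]
  congr 1
  funext k
  rw [Finset.sum_apply]
  rfl

end Pool.H33.V
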