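import Pool.Agent.H33.V.Unb
import Pool.Agent.H33.V.KK
import Pool.Agent.H33.V.Defs

/-! FINL: bounded maximal minors are finitely many -/

open Matrix Filter Topology

namespace Pool.H33.V

theorem finl_lam_map {R S : Type*} [CommRing R] [CommRing S] {N : ℕ} (f : R →+* S)
    (ψ : Matrix (Fin (N + 1)) (Fin N) R) (i : Fin (N + 1)) :
    lam (ψ.map f) i = f (lam ψ i) := by
  unfold lam
  rw [RingHom.map_det]
  congr 1
  ext i' j
  refine Fin.cases ?_ (fun j' => ?_) j
  · simp only [aug, Matrix.of_apply, Fin.cases_zero, RingHom.mapMatrix_apply, Matrix.map_apply]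
    by_cases h : i' = i
    · subst h; simp
    · simp [Pi.single_apply, h]
  · simp [aug]

theorem finl_dot_iff {N : ℕ} (μ : Arr ℂ N) (l : Fin N → ℂ) :
    (∀ u v, l ⬝ᵥ br μ u v = 0) ↔ ∀ i j, l ⬝ᵥ μ i j = 0 := by
  constructor
  · intro h i j
    rw [← br_single μ i j]
    exact h _ _
  · intro h
    refine bilin_ext (E := ℂ) (fun x y => l ⬝ᵥ br μ x y) (fun _ _ => 0)
      ?_ ?_ ?_ ?_ ?_ ?_ ?_ ?_ ?_
    · intro x x' y; simp only [br_add_left, dotProduct_add]
    · intro r x y; simp only [br_smul_left, dotProduct_smul]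
    · intro x y y'; simp only [br_add_right, dotProduct_add]
    · intro r x y; simp only [br_smul_right, dotProduct_smul]
    · intro x x' y; simp
    · intro r x y; simp
    · intro x y y'; simp
    · intro r x y; simp
    · intro i j
      change l ⬝ᵥ br μ (Pi.single i 1) (Pi.single j 1) = 0
      rw [br_single]; exact h i j

/-- the generic matrix -/
noncomputable def finlX (N : ℕ) :
    Matrix (Fin (N + 1)) (Fin N) (MvPolynomial (Fin (N + 1) × Fin N) ℂ) :=
  Matrix.of fun i j => MvPolynomial.X (i, j)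

theorem finlX_map {N : ℕ} (z : Fin (N + 1) × Fin N → ℂ) :
    (finlX N).map (MvPolynomial.eval z) = Matrix.of fun i j => z (i, j) := by
  ext i j
  simp [finlX]

/-- the equations -/
noncomputable def finlP {N : ℕ} (μ : Arr ℂ (N + 1)) (a : Arr ℂ N) :
    (Fin N × Fin N × Fin (N + 1)) ⊕ (Fin (N + 1) × Fin (N + 1)) →
      MvPolynomial (Fin (N + 1) × Fin N) ℂ
  | Sum.inl t => hdef (mapA MvPolynomial.C a) (mapA MvPolynomial.C μ) (finlX N) t.1 t.2.1 t.2.2
  | Sum.inr t => lam (finlX N) ⬝ᵥ fun k => MvPolynomial.C (μ t.1 t.2 k)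

theorem finl_eval {N : ℕ} (μ : Arr ℂ (N + 1)) (a : Arr ℂ N) (z : Fin (N + 1) × Fin N → ℂ) :
    (∀ t, MvPolynomial.eval z (finlP μ a t) = 0) ↔
      IsHom a μ (Matrix.of fun i j => z (i, j)) ∧
      ∀ u v, lam (Matrix.of fun i j => z (i, j)) ⬝ᵥ br μ u v = 0 := by
  have ha : mapA (MvPolynomial.eval z) (mapA MvPolynomial.C a) = a := by
    funext i j k; simp [mapA]
  have hμ : mapA (MvPolynomial.eval z) (mapA MvPolynomial.C μ) = μ := by
    funext i j k; simp [mapA]
  have h1 := hdef_map (MvPolynomial.eval z) (mapA MvPolynomial.C a) (mapA MvPolynomial.C μ)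
    (finlX N)
  rw [ha, hμ, finlX_map] at h1
  have h2 : ∀ i, MvPolynomial.eval z (lam (finlX N) i) = lam (Matrix.of fun i j => z (i, j)) i := by
    intro i
    rw [← finl_lam_map, finlX_map]
  rw [isHom_iff_hdef, finl_dot_iff, h1, Sum.forall]
  refine and_congr ?_ ?_
  · constructor
    · intro h
      funext i j k
      exact h (i, j, k)
    · intro h t
      exact congrFun (congrFun (congrFun h t.1) t.2.1) t.2.2
  · have h3 : ∀ t : Fin (N + 1) × Fin (N + 1), MvPolynomial.eval z (finlP μ a (Sum.inr t)) =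
        lam (Matrix.of fun i j => z (i, j)) ⬝ᵥ μ t.1 t.2 := by
      intro t
      simp only [finlP, dotProduct, map_sum, map_mul, h2, MvPolynomial.eval_C]
    constructor
    · intro h i j
      rw [← h3 (i, j)]
      exact h (i, j)
    · intro h t
      rw [h3]
      exact h t.1 t.2

theorem lam_finite {N : ℕ} (μ : Arr ℂ (N + 1)) (a : Arr ℂ N) (C : ℝ)
    (hC : ∀ ψ : Matrix (Fin (N + 1)) (Fin N) ℂ, IsHom a μ ψ →
      (∀ u v, lam ψ ⬝ᵥ br μ u v = 0) → ∀ i, ‖lam ψ i‖ ≤ C) :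
    {l : Fin (N + 1) → ℂ | ∃ ψ : Matrix (Fin (N + 1)) (Fin N) ℂ, IsHom a μ ψ ∧
      (∀ u v, lam ψ ⬝ᵥ br μ u v = 0) ∧ lam ψ = l}.Finite := by
  have h2 : ∀ (z : Fin (N + 1) × Fin N → ℂ) i, MvPolynomial.eval z (lam (finlX N) i) =
      lam (Matrix.of fun i j => z (i, j)) i := by
    intro z i
    rw [← finl_lam_map, finlX_map]
  have hfin : ∀ i : Fin (N + 1), {w : ℂ | ∃ z : Fin (N + 1) × Fin N → ℂ,
      (∀ t, MvPolynomial.eval z (finlP μ a t) = 0) ∧
      MvPolynomial.eval z (lam (finlX N) i) = w}.Finite := by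
    intro i
    refine finite_of_bounded (finlP μ a) (lam (finlX N) i) C ?_
    intro z hz
    obtain ⟨hz1, hz2⟩ := (finl_eval μ a z).1 hz
    rw [h2]
    exact hC _ hz1 hz2 i
  refine (Set.Finite.pi' hfin).subset ?_
  rintro l ⟨ψ, h1, h3, rfl⟩ i
  let z : Fin (N + 1) × Fin N → ℂ := fun t => ψ t.1 t.2
  have hz : (Matrix.of fun i j => z (i, j)) = ψ := rfl
  refine ⟨z, (finl_eval μ a z).2 ?_, ?_⟩
  · rw [hz]; exact ⟨h1, h3⟩
  · rw [h2, hz]

end Pool.H33.V
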