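import Pool.Agent.H33.V.Chart
import Pool.Agent.H33.V.Dix1

/-! G0: a nilpotent Lie algebra has an ideal of codimension one -/

open Matrix Filter Topology

namespace Pool.H33.V

/-- `[g, g] ≠ g` for a nilpotent Lie algebra -/
theorem exists_functional {N : ℕ} (μ : Arr ℂ (N + 1)) (hμ : IsLie μ)
    (hnil : ∀ x, ∃ m : ℕ, ∀ y, (br μ x)^[m] y = 0) :
    ∃ l : Fin (N + 1) → ℂ, l ≠ 0 ∧ ∀ u v, l ⬝ᵥ br μ u v = 0 := by
  letI : LieRing (Dix1Alg (N + 1)) := dix1LieRing μ hμ
  letI : LieAlgebra ℂ (Dix1Alg (N + 1)) :=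
    { lie_smul := fun r x y => br_smul_right μ r x y }
  haveI : Nontrivial (Dix1Alg (N + 1)) := inferInstanceAs (Nontrivial (Fin (N + 1) → ℂ))
  haveI : LieRing.IsNilpotent (Dix1Alg (N + 1)) := by
    rw [LieAlgebra.isNilpotent_iff_forall (R := ℂ)]
    intro v
    obtain ⟨n, hn⟩ := hnil v
    refine ⟨n, ?_⟩
    have key : ∀ n : ℕ, ∀ y : Dix1Alg (N + 1),
        ((LieAlgebra.ad ℂ (Dix1Alg (N + 1)) v) ^ n) y = (br μ v)^[n] y := by
      intro n
      induction n with
      | zero => intro y; rfl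
      | succ n ih =>
        intro y
        rw [pow_succ', Module.End.mul_apply, ih]
        exact (Function.iterate_succ_apply' (br μ v) n y).symm
    apply LinearMap.ext
    intro y
    rw [key]
    exact hn y
  obtain ⟨f, hf0, hf⟩ := dix1_char (K := ℂ) (L := Dix1Alg (N + 1))
  let F : (Fin (N + 1) → ℂ) →ₗ[ℂ] ℂ := f
  have hF : ∀ x : Fin (N + 1) → ℂ, F x = (fun i => F (Pi.single i 1)) ⬝ᵥ x := by
    intro x
    rw [LinearMap.pi_apply_eq_sum_univ F x]
    simp only [dotProduct, smul_eq_mul]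
    refine Finset.sum_congr rfl fun i _ => ?_
    have hs : (Pi.single i 1 : Fin (N + 1) → ℂ) = fun j => if i = j then 1 else 0 := by
      funext j
      by_cases hj : i = j
      · subst hj; simp
      · simp [hj, Ne.symm hj]
    rw [mul_comm, hs]
  refine ⟨fun i => F (Pi.single i 1), ?_, ?_⟩
  · intro h0
    apply hf0
    apply LinearMap.ext
    intro x
    have h1 : F x = 0 := by
      rw [hF x, h0]
      exact zero_dotProduct (show Fin (N + 1) → ℂ from x)
    exact h1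
  · intro u v
    rw [← hF]
    exact hf u v

theorem exists_good {N : ℕ} (μ : Arr ℂ (N + 1)) (hμ : IsLie μ)
    (hnil : ∀ x, ∃ m : ℕ, ∀ y, (br μ x)^[m] y = 0) :
    ∃ (a : Arr ℂ N) (D : Matrix (Fin N) (Fin N) ℂ), Good μ a D := by
  obtain ⟨l, hl, hbr⟩ := exists_functional μ hμ hnil
  obtain ⟨P, hP, hlP⟩ := exists_chart l hl
  obtain ⟨h1, h2, h3⟩ := chart_pull μ hμ l hbr P hP hlP
  exact ⟨pullA μ P, pullD μ P, h1, h2, P, hP, h3⟩

end Pool.H33.V
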