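import Pool.Agent.H33.V.KK

/-! # Derivations applied to structure constants (complete): d_br, d_mulVec, d_isHom, d_det -/

open Matrix Filter Topology

namespace Pool.H33.V

section Deriv
variable {k K : Type*} [Field k] [Field K] [Algebra k K] {N M : ℕ}

/-- entrywise derivative of a matrix -/
def dM {m n : Type*} (d : Derivation k K K) (X : Matrix m n K) : Matrix m n K := X.map d

/-- entrywise derivative of structure constants -/
def dA (d : Derivation k K K) (c : Arr K N) : Arr K N := fun i j l => d (c i j l)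

theorem d_br (d : Derivation k K K) (c : Arr K N) (x y : Fin N → K) :
    d ∘ br c x y = br (dA d c) x y + br c (d ∘ x) y + br c x (d ∘ y) := by
  funext l
  simp only [Function.comp_apply, br, Pi.add_apply, map_sum, Derivation.leibniz, dA, smul_eq_mul]
  rw [← Finset.sum_add_distrib, ← Finset.sum_add_distrib]
  refine Finset.sum_congr rfl fun i _ => ?_
  rw [← Finset.sum_add_distrib, ← Finset.sum_add_distrib]
  refine Finset.sum_congr rfl fun j _ => ?_
  ring

theorem d_mulVec (d : Derivation k K K) (X : Matrix (Fin M) (Fin N) K) (x : Fin N → K) :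
    d ∘ (X *ᵥ x) = dM d X *ᵥ x + X *ᵥ (d ∘ x) := by
  funext l
  simp only [Function.comp_apply, Matrix.mulVec, dotProduct, Pi.add_apply, map_sum,
    Derivation.leibniz, dM, Matrix.map_apply, smul_eq_mul]
  rw [← Finset.sum_add_distrib]
  refine Finset.sum_congr rfl fun i _ => ?_
  ring

/-- derivative of the homomorphism property -/
theorem d_isHom (d : Derivation k K K) (c : Arr K N) (c' : Arr K M) (Θ : Matrix (Fin M) (Fin N) K)
    (h : IsHom c c' Θ) (x y : Fin N → K) :
    dM d Θ *ᵥ br c x y + Θ *ᵥ br (dA d c) x y = br (dA d c') (Θ *ᵥ x) (Θ *ᵥ y)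
      + br c' (dM d Θ *ᵥ x) (Θ *ᵥ y) + br c' (Θ *ᵥ x) (dM d Θ *ᵥ y) := by
  have e : d ∘ (Θ *ᵥ br c x y) = d ∘ (br c' (Θ *ᵥ x) (Θ *ᵥ y)) := by rw [h x y]
  rw [d_mulVec, d_br, d_br, d_mulVec, d_mulVec, Matrix.mulVec_add, Matrix.mulVec_add,
    h (d ∘ x) y, h x (d ∘ y), br_add_left, br_add_right] at e
  have e2 : dM d Θ *ᵥ br c x y + Θ *ᵥ br (dA d c) x y + br c' (Θ *ᵥ (d ∘ x)) (Θ *ᵥ y)
      + br c' (Θ *ᵥ x) (Θ *ᵥ (d ∘ y)) = br (dA d c') (Θ *ᵥ x) (Θ *ᵥ y)
      + br c' (dM d Θ *ᵥ x) (Θ *ᵥ y) + br c' (Θ *ᵥ x) (dM d Θ *ᵥ y)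
      + br c' (Θ *ᵥ (d ∘ x)) (Θ *ᵥ y) + br c' (Θ *ᵥ x) (Θ *ᵥ (d ∘ y)) := by
    rw [add_assoc, add_assoc, ← add_assoc (Θ *ᵥ br (dA d c) x y), e]
    abel
  exact add_right_cancel (add_right_cancel e2)

theorem dA_map (d : Derivation k K K) (a : Arr k N) : dA d (mapA (algebraMap k K) a) = 0 := by
  funext i j l; simp [dA, mapA]

theorem dA_add (d : Derivation k K K) (c c' : Arr K N) : dA d (c + c') = dA d c + dA d c' := by
  funext i j l; simp [dA]

theorem d_prod (d : Derivation k K K) {ι : Type*} [DecidableEq ι] (s : Finset ι) (f : ι → K) :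
    d (∏ i ∈ s, f i) = ∑ i ∈ s, (∏ j ∈ s.erase i, f j) * d (f i) := by
  induction s using Finset.induction_on with
  | empty => simp
  | insert a s ha ih =>
    rw [Finset.prod_insert ha, Derivation.leibniz, ih, Finset.sum_insert ha, Finset.erase_insert ha,
      smul_eq_mul, smul_eq_mul, Finset.mul_sum, add_comm]
    congr 1
    refine Finset.sum_congr rfl fun i hi => ?_
    have hia : a ≠ i := fun h => ha (h ▸ hi)
    rw [Finset.erase_insert_of_ne hia, Finset.prod_insert (fun h => ha (Finset.mem_of_mem_erase h))]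
    ring

/-- Jacobi's formula -/
theorem d_det (d : Derivation k K K) (X : Matrix (Fin N) (Fin N) K) :
    d X.det = (X.adjugate * dM d X).trace := by
  rw [Matrix.det_apply]
  have h1 : d (∑ σ : Equiv.Perm (Fin N), Equiv.Perm.sign σ • ∏ i, X (σ i) i) =
      ∑ i, ∑ σ : Equiv.Perm (Fin N), Equiv.Perm.sign σ •
        ((∏ j ∈ Finset.univ.erase i, X (σ j) j) * d (X (σ i) i)) := by
    rw [map_sum, Finset.sum_comm]
    refine Finset.sum_congr rfl fun σ _ => ?_
    rw [← Finset.smul_sum, ← d_prod]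
    rcases Int.units_eq_one_or (Equiv.Perm.sign σ) with h | h <;> rw [h] <;> simp
  rw [h1]
  simp only [Matrix.trace, Matrix.diag_apply]
  refine Finset.sum_congr rfl fun i _ => ?_
  have h2 : (X.adjugate * dM d X) i i = (X.adjugate *ᵥ fun l => d (X l i)) i := by
    simp [Matrix.mul_apply, Matrix.mulVec, dotProduct, dM]
  rw [h2, ← Matrix.cramer_eq_adjugate_mulVec, Matrix.cramer_apply, Matrix.det_apply]
  refine Finset.sum_congr rfl fun σ _ => ?_
  congr 1
  rw [← Finset.mul_prod_erase Finset.univ _ (Finset.mem_univ i), mul_comm]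
  congr 1
  · simp
  · refine Finset.prod_congr rfl fun j hj => ?_
    rw [Matrix.updateCol_ne (Finset.ne_of_mem_erase hj)]

end Deriv

end Pool.H33.V
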