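import Pool.Agent.H33.V.Defs

/-! SLICE: local normal form of structure constants (inverse function theorem) -/

open Matrix Filter Topology

namespace Pool.H33.V

/-- square matrices as functions -/
abbrev SliceM (N : ℕ) := Fin N → Fin N → ℂ

/-- the domain of the slice map -/
abbrev SliceE {N : ℕ} (S : Submodule ℂ (Arr ℂ N)) := Arr ℂ N × SliceM N × S

noncomputable def slicePhi {N : ℕ} (ν : Arr ℂ N) (S : Submodule ℂ (Arr ℂ N)) (z : SliceE S) :
    Arr ℂ N :=
  fun i j k => (∑ p, ∑ q, z.2.1 p i * z.2.1 q j * z.1 p q k)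
    - ∑ l, z.2.1 k l * (ν i j l + (z.2.2 : Arr ℂ N) i j l)

noncomputable def sliceLin {N : ℕ} (ν : Arr ℂ N) (S : Submodule ℂ (Arr ℂ N)) :
    SliceE S →ₗ[ℂ] Arr ℂ N :=
  LinearMap.fst ℂ _ _ - S.subtype ∘ₗ LinearMap.snd ℂ _ _ ∘ₗ LinearMap.snd ℂ _ _
    - (dltL ν) ∘ₗ (LinearMap.fst ℂ (SliceM N) _) ∘ₗ LinearMap.snd ℂ _ _

theorem sliceLin_apply {N : ℕ} (ν : Arr ℂ N) (S : Submodule ℂ (Arr ℂ N)) (z : SliceE S)
    (i j k : Fin N) :
    sliceLin ν S z i j k = z.1 i j k - (z.2.2 : Arr ℂ N) i j k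
      - (∑ l, z.2.1 k l * ν i j l - ∑ l, z.2.1 l i * ν l j k - ∑ l, z.2.1 l j * ν i l k) := rfl

noncomputable def sliceOne (N : ℕ) : SliceM N := (1 : Matrix (Fin N) (Fin N) ℂ)

theorem sliceOne_apply {N : ℕ} (i j : Fin N) : sliceOne N i j = if i = j then 1 else 0 := by
  change (1 : Matrix (Fin N) (Fin N) ℂ) i j = _
  rw [Matrix.one_apply]

theorem slicePhi_isHom {N : ℕ} (ν : Arr ℂ N) (S : Submodule ℂ (Arr ℂ N)) (z : SliceE S)
    (h : slicePhi ν S z = 0) : IsHom (ν + (z.2.2 : Arr ℂ N)) z.1 (Matrix.of z.2.1) := by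
  intro x y
  revert x y
  apply bilin_ext (E := Fin N → ℂ)
  · intro x x' y; rw [br_add_left, Matrix.mulVec_add]
  · intro r x y; rw [br_smul_left, Matrix.mulVec_smul]
  · intro x y y'; rw [br_add_right, Matrix.mulVec_add]
  · intro r x y; rw [br_smul_right, Matrix.mulVec_smul]
  · intro x x' y; rw [Matrix.mulVec_add, br_add_left]
  · intro r x y; rw [Matrix.mulVec_smul, br_smul_left]
  · intro x y y'; rw [Matrix.mulVec_add, br_add_right]
  · intro r x y; rw [Matrix.mulVec_smul, br_smul_right]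
  · intro i j
    rw [br_single]
    funext k
    have hk := congrFun (congrFun (congrFun h i) j) k
    simp only [slicePhi, Pi.zero_apply] at hk
    rw [sub_eq_zero] at hk
    simp only [Matrix.mulVec_single_one]
    simp only [br, Matrix.mulVec, dotProduct, Matrix.col_apply, Matrix.of_apply, Pi.add_apply]
    exact hk.symm

theorem slice_strict {N : ℕ} (ν : Arr ℂ N) (S : Submodule ℂ (Arr ℂ N)) :
    HasStrictFDerivAt (𝕜 := ℂ) (slicePhi ν S) (LinearMap.toContinuousLinearMap (sliceLin ν S))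
      ((ν, sliceOne N, 0) : SliceE S) := by
  rw [hasStrictFDerivAt_pi']
  intro i
  rw [hasStrictFDerivAt_pi']
  intro j
  rw [hasStrictFDerivAt_pi']
  intro k
  let pν : Fin N → Fin N → Fin N → (SliceE S →L[ℂ] ℂ) := fun p q r =>
    (ContinuousLinearMap.proj r) ∘L (ContinuousLinearMap.proj (φ := fun _ => Fin N → ℂ) q) ∘L
      (ContinuousLinearMap.proj (φ := fun _ => Fin N → Fin N → ℂ) p) ∘L
      (ContinuousLinearMap.fst ℂ (Arr ℂ N) (SliceM N × S))
  let pG : Fin N → Fin N → (SliceE S →L[ℂ] ℂ) := fun p q =>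
    (ContinuousLinearMap.proj q) ∘L
      (ContinuousLinearMap.proj (φ := fun _ => Fin N → ℂ) p) ∘L
      (ContinuousLinearMap.fst ℂ (SliceM N) S) ∘L (ContinuousLinearMap.snd ℂ (Arr ℂ N) (SliceM N × S))
  let ps : Fin N → Fin N → Fin N → (SliceE S →L[ℂ] ℂ) := fun p q r =>
    (ContinuousLinearMap.proj r) ∘L (ContinuousLinearMap.proj (φ := fun _ => Fin N → ℂ) q) ∘L
      (ContinuousLinearMap.proj (φ := fun _ => Fin N → Fin N → ℂ) p) ∘L S.subtypeL ∘L
      (ContinuousLinearMap.snd ℂ (SliceM N) S) ∘L (ContinuousLinearMap.snd ℂ (Arr ℂ N) (SliceM N × S))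
  have hν : ∀ p q r (z : SliceE S), pν p q r z = z.1 p q r := fun _ _ _ _ => rfl
  have hG : ∀ p q (z : SliceE S), pG p q z = z.2.1 p q := fun _ _ _ => rfl
  have hs : ∀ p q r (z : SliceE S), ps p q r z = (z.2.2 : Arr ℂ N) p q r := fun _ _ _ _ => rfl
  let z0 : SliceE S := (ν, sliceOne N, 0)
  have h1 : ∀ p q, HasStrictFDerivAt (𝕜 := ℂ) (fun z : SliceE S => z.2.1 p i * z.2.1 q j * z.1 p q k)
      _ z0 := fun p q =>
    (((pG p i).hasStrictFDerivAt (x := z0)).mul ((pG q j).hasStrictFDerivAt (x := z0))).mul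
      ((pν p q k).hasStrictFDerivAt (x := z0))
  have h2 : ∀ l, HasStrictFDerivAt (𝕜 := ℂ)
      (fun z : SliceE S => z.2.1 k l * (ν i j l + (z.2.2 : Arr ℂ N) i j l))
      _ z0 := fun l =>
    ((pG k l).hasStrictFDerivAt (x := z0)).mul
      (((ps i j l).hasStrictFDerivAt (x := z0)).const_add (ν i j l))
  have h3 := (HasStrictFDerivAt.fun_sum (u := Finset.univ) fun p _ =>
    HasStrictFDerivAt.fun_sum (u := Finset.univ) fun q _ => h1 p q).sub
      (HasStrictFDerivAt.fun_sum (u := Finset.univ) fun l _ => h2 l)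
  refine h3.congr_fderiv ?_
  refine ContinuousLinearMap.ext fun z => ?_
  have e0 : ((ContinuousLinearMap.proj k) ∘L (ContinuousLinearMap.proj (φ := fun _ => Fin N → ℂ) j) ∘L
      (ContinuousLinearMap.proj (φ := fun _ => Fin N → Fin N → ℂ) i) ∘L
      (LinearMap.toContinuousLinearMap (sliceLin ν S))) z = sliceLin ν S z i j k := rfl
  refine Eq.trans ?_ e0.symm
  rw [sliceLin_apply]
  simp only [FunLike.coe_sub, FunLike.coe_sum, Pi.sub_apply, Pi.mul_apply,
    Finset.sum_apply, _root_.add_apply, _root_.smul_apply, hν, hG, hs,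
    smul_eq_mul]
  have hz1 : ∀ p q, z0.2.1 p q = if p = q then 1 else 0 := fun p q => sliceOne_apply p q
  have hz2 : ∀ p q r, (z0.2.2 : Arr ℂ N) p q r = 0 := fun _ _ _ => rfl
  have hz3 : ∀ p q r, z0.1 p q r = ν p q r := fun _ _ _ => rfl
  simp only [hz1, hz2, hz3, add_zero]
  have s1 : ∑ p, ∑ q, (((if p = i then (1 : ℂ) else 0) * if q = j then 1 else 0) * z.1 p q k
      + ν p q k * ((if p = i then 1 else 0) * z.2.1 q j + (if q = j then 1 else 0) * z.2.1 p i))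
      = z.1 i j k + ∑ l, ν i l k * z.2.1 l j + ∑ l, ν l j k * z.2.1 l i := by
    simp only [Finset.sum_add_distrib, mul_add]
    have a1 : ∑ p, ∑ q, ((if p = i then (1 : ℂ) else 0) * if q = j then 1 else 0) * z.1 p q k
        = z.1 i j k := by
      rw [Finset.sum_eq_single i (fun b _ hb => by simp [hb]) (fun h => absurd (Finset.mem_univ _) h),
        Finset.sum_eq_single j (fun b _ hb => by simp [hb]) (fun h => absurd (Finset.mem_univ _) h)]
      simp
    have a2 : ∑ p, ∑ q, ν p q k * ((if p = i then (1 : ℂ) else 0) * z.2.1 q j)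
        = ∑ l, ν i l k * z.2.1 l j := by
      rw [Finset.sum_eq_single i (fun b _ hb => by simp [hb]) (fun h => absurd (Finset.mem_univ _) h)]
      simp
    have a3 : ∑ p, ∑ q, ν p q k * ((if q = j then (1 : ℂ) else 0) * z.2.1 p i)
        = ∑ l, ν l j k * z.2.1 l i := by
      refine Finset.sum_congr rfl fun p _ => ?_
      rw [Finset.sum_eq_single j (fun b _ hb => by simp [hb]) (fun h => absurd (Finset.mem_univ _) h)]
      simp
    rw [a1, a2, a3]
    ring
  have s2 : ∑ l, ((if k = l then (1 : ℂ) else 0) * (z.2.2 : Arr ℂ N) i j l + ν i j l * z.2.1 k l)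
      = (z.2.2 : Arr ℂ N) i j k + ∑ l, ν i j l * z.2.1 k l := by
    rw [Finset.sum_add_distrib,
      Finset.sum_eq_single k (fun b _ hb => by simp [Ne.symm hb]) (fun h => absurd (Finset.mem_univ _) h)]
    simp
  rw [s1, s2]
  have c1 : ∑ l, z.2.1 k l * ν i j l = ∑ l, ν i j l * z.2.1 k l :=
    Finset.sum_congr rfl fun l _ => mul_comm _ _
  have c2 : ∑ l, z.2.1 l i * ν l j k = ∑ l, ν l j k * z.2.1 l i :=
    Finset.sum_congr rfl fun l _ => mul_comm _ _
  have c3 : ∑ l, z.2.1 l j * ν i l k = ∑ l, ν i l k * z.2.1 l j :=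
    Finset.sum_congr rfl fun l _ => mul_comm _ _
  rw [c1, c2, c3]
  ring

theorem slice {N : ℕ} (ν : Arr ℂ N) (S : Submodule ℂ (Arr ℂ N))
    (hS : LinearMap.range (dltL ν) ⊔ S = ⊤)
    (V : Set (Matrix (Fin N) (Fin N) ℂ)) (hV : V ∈ 𝓝 1) (U : Set (Arr ℂ N)) (hU : U ∈ 𝓝 0) :
    ∀ᶠ ν' in 𝓝 ν, ∃ G ∈ V, ∃ s ∈ U, s ∈ S ∧ IsHom (ν + s) ν' G := by
  let z0 : SliceE S := (ν, sliceOne N, 0)
  let F : SliceE S → Arr ℂ N × Arr ℂ N := fun z => (z.1, slicePhi ν S z)
  let L : SliceE S →L[ℂ] Arr ℂ N × Arr ℂ N :=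
    (ContinuousLinearMap.fst ℂ (Arr ℂ N) (SliceM N × S)).prod
      (LinearMap.toContinuousLinearMap (sliceLin ν S))
  have hF : HasStrictFDerivAt F L z0 :=
    ((ContinuousLinearMap.fst ℂ (Arr ℂ N) (SliceM N × S)).hasStrictFDerivAt (x := z0)).prodMk
      (slice_strict ν S)
  have hL : LinearMap.range (L : SliceE S →ₗ[ℂ] Arr ℂ N × Arr ℂ N) = ⊤ := by
    rw [LinearMap.range_eq_top]
    rintro ⟨a, b⟩
    have hmem : a - b ∈ LinearMap.range (dltL ν) ⊔ S := by rw [hS]; trivial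
    obtain ⟨y, ⟨X, rfl⟩, s, hs, hys⟩ := Submodule.mem_sup.1 hmem
    refine ⟨(a, X, ⟨s, hs⟩), ?_⟩
    change (a, a - s - dltL ν X) = (a, b)
    rw [Prod.mk.injEq]
    refine ⟨rfl, ?_⟩
    rw [sub_sub, add_comm s, hys]; abel
  have hmap := hF.map_nhds_eq_of_surj hL
  have hF0 : F z0 = (ν, 0) := by
    change (ν, slicePhi ν S z0) = (ν, 0)
    rw [Prod.mk.injEq]
    refine ⟨rfl, ?_⟩
    funext i j k
    simp [slicePhi, z0, sliceOne_apply]
  rw [hF0] at hmap
  let W : Set (SliceE S) := {z | (Matrix.of z.2.1) ∈ V ∧ (z.2.2 : Arr ℂ N) ∈ U}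
  have hW : W ∈ 𝓝 z0 := by
    refine Filter.inter_mem ?_ ?_
    · have hc : ContinuousAt (fun z : SliceE S => (Matrix.of z.2.1 : Matrix (Fin N) (Fin N) ℂ)) z0 := by
        have : Continuous (fun z : SliceE S => (z.2.1 : SliceM N)) := by fun_prop
        exact this.continuousAt
      exact hc.preimage_mem_nhds hV
    · have hc : ContinuousAt (fun z : SliceE S => (z.2.2 : Arr ℂ N)) z0 := by
        have : Continuous (fun z : SliceE S => (z.2.2 : Arr ℂ N)) := by fun_prop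
        exact this.continuousAt
      exact hc.preimage_mem_nhds hU
  have himg : F '' W ∈ 𝓝 ((ν, 0) : Arr ℂ N × Arr ℂ N) := by
    rw [← hmap]
    exact Filter.image_mem_map hW
  have hcont : Tendsto (fun ν' : Arr ℂ N => ((ν', 0) : Arr ℂ N × Arr ℂ N)) (𝓝 ν) (𝓝 (ν, 0)) := by
    have : Continuous (fun ν' : Arr ℂ N => ((ν', 0) : Arr ℂ N × Arr ℂ N)) := by fun_prop
    exact this.continuousAt
  filter_upwards [hcont himg] with ν' hν'
  obtain ⟨z, hzW, hz⟩ := hν'
  have hz1 : z.1 = ν' := congrArg Prod.fst hz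
  have hz2 : slicePhi ν S z = 0 := congrArg Prod.snd hz
  refine ⟨Matrix.of z.2.1, hzW.1, (z.2.2 : Arr ℂ N), hzW.2, z.2.2.2, ?_⟩
  rw [← hz1]
  exact slicePhi_isHom ν S z hz2

end Pool.H33.V
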