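import Pool.Agent.H33.V.Defs

/-! TRANS: transversality of the slice -/

open Matrix Filter Topology

namespace Pool.H33.V

theorem trans_inv_hom {N : ℕ} (a b : Arr ℂ N) (θ : Matrix (Fin N) (Fin N) ℂ) (hθ : θ.det ≠ 0)
    (h : IsHom a b θ) : IsHom b a θ⁻¹ := by
  have hu : IsUnit θ.det := isUnit_iff_ne_zero.mpr hθ
  intro x y
  have h1 := h (θ⁻¹ *ᵥ x) (θ⁻¹ *ᵥ y)
  simp only [Matrix.mulVec_mulVec, Matrix.mul_nonsing_inv _ hu, Matrix.one_mulVec] at h1
  rw [← h1, Matrix.mulVec_mulVec, Matrix.nonsing_inv_mul _ hu, Matrix.one_mulVec]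

theorem trans_conj {N : ℕ} (a b : Arr ℂ N) (θ D : Matrix (Fin N) (Fin N) ℂ) (hθ : θ.det ≠ 0)
    (h : IsHom a b θ) (hD : IsDer a D) : IsDer b (θ * D * θ⁻¹) := by
  have hu : IsUnit θ.det := isUnit_iff_ne_zero.mpr hθ
  intro x y
  have hi := trans_inv_hom a b θ hθ h
  rw [← Matrix.mulVec_mulVec, hi x y, ← Matrix.mulVec_mulVec, hD, Matrix.mulVec_add, h, h]
  simp only [Matrix.mulVec_mulVec, Matrix.mul_nonsing_inv _ hu, Matrix.one_mulVec, Matrix.mul_assoc]

theorem trans_le {N : ℕ} (a b : Arr ℂ N) (θ : Matrix (Fin N) (Fin N) ℂ) (hθ : θ.det ≠ 0)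
    (h : IsHom a b θ) : Module.finrank ℂ (DerS a) ≤ Module.finrank ℂ (DerS b) := by
  have hu : IsUnit θ.det := isUnit_iff_ne_zero.mpr hθ
  let L : Matrix (Fin N) (Fin N) ℂ →ₗ[ℂ] Matrix (Fin N) (Fin N) ℂ :=
    { toFun := fun D => θ * D * θ⁻¹
      map_add' := fun A B => by rw [Matrix.mul_add, Matrix.add_mul]
      map_smul' := fun r A => by
        rw [RingHom.id_apply, Matrix.mul_smul, Matrix.smul_mul] }
  have hL : ∀ D ∈ DerS a, L D ∈ DerS b := fun D hD => trans_conj a b θ D hθ h hD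
  refine LinearMap.finrank_le_finrank_of_injective (f := L.restrict hL) ?_
  intro A B hAB
  have h1 : θ * (A : Matrix (Fin N) (Fin N) ℂ) * θ⁻¹ = θ * (B : Matrix (Fin N) (Fin N) ℂ) * θ⁻¹ :=
    congrArg Subtype.val hAB
  have h2 : θ⁻¹ * (θ * (A : Matrix (Fin N) (Fin N) ℂ) * θ⁻¹) * θ
      = θ⁻¹ * (θ * (B : Matrix (Fin N) (Fin N) ℂ) * θ⁻¹) * θ := by rw [h1]
  have h3 : ∀ C : Matrix (Fin N) (Fin N) ℂ, θ⁻¹ * (θ * C * θ⁻¹) * θ = C := by
    intro C
    rw [Matrix.mul_assoc, Matrix.mul_assoc, Matrix.nonsing_inv_mul _ hu, Matrix.mul_one,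
      ← Matrix.mul_assoc, Matrix.nonsing_inv_mul _ hu, Matrix.one_mul]
  rw [h3, h3] at h2
  exact Subtype.ext h2

/-- isomorphic algebras have derivation spaces of the same dimension -/
theorem finrank_der_eq {N : ℕ} (a b : Arr ℂ N) (θ : Matrix (Fin N) (Fin N) ℂ) (hθ : θ.det ≠ 0)
    (h : IsHom a b θ) : Module.finrank ℂ (DerS a) = Module.finrank ℂ (DerS b) := by
  refine le_antisymm (trans_le a b θ hθ h) (trans_le b a θ⁻¹ ?_ (trans_inv_hom a b θ hθ h))
  rw [Matrix.det_nonsing_inv, Ring.inverse_eq_inv']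
  exact inv_ne_zero hθ

theorem trans_ker {N : ℕ} (c : Arr ℂ N) : LinearMap.ker (dltL c) = DerS c := by
  ext D
  rw [LinearMap.mem_ker, mem_DerS, isDer_iff]
  rfl

theorem trans_add {N : ℕ} (c d : Arr ℂ N) : dltL (c + d) = dltL c + dltL d := by
  apply LinearMap.ext
  intro X
  funext i j k
  change dlt (c + d) X i j k = dlt c X i j k + dlt d X i j k
  simp only [dlt, Pi.add_apply, mul_add, Finset.sum_add_distrib]
  ring

theorem trans_smul {N : ℕ} (r : ℂ) (c : Arr ℂ N) : dltL (r • c) = r • dltL c := by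
  apply LinearMap.ext
  intro X
  funext i j k
  change dlt (r • c) X i j k = r • dlt c X i j k
  simp only [dlt, Pi.smul_apply, smul_eq_mul, mul_sub, Finset.mul_sum]
  simp only [mul_left_comm]

theorem transversal {N : ℕ} (ν a : Arr ℂ N) (S : Submodule ℂ (Arr ℂ N))
    (hS : IsCompl (LinearMap.range (dltL ν)) S)
    (hdim : Module.finrank ℂ (DerS ν) ≤ Module.finrank ℂ (DerS a)) :
    ∀ᶠ s in 𝓝 (0 : Arr ℂ N), ∀ θ : Matrix (Fin N) (Fin N) ℂ, θ.det ≠ 0 → IsHom a (ν + s) θ →
      ∀ X, dlt (ν + s) X ∈ S → dlt (ν + s) X = 0 := by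
  obtain ⟨Q, hQ⟩ := Submodule.exists_isCompl (LinearMap.ker (dltL ν))
  -- the projection along `S`
  let π : Arr ℂ N →ₗ[ℂ] LinearMap.range (dltL ν) := Submodule.projectionOnto _ S hS
  have hπker : ∀ v, v ∈ S → π v = 0 := fun v hv =>
    (Submodule.projectionOnto_apply_eq_zero_iff hS).mpr hv
  have hπr : ∀ v : LinearMap.range (dltL ν), π v = v := fun v =>
    Submodule.projectionOnto_apply_left hS v
  -- the map at a general point
  let T : Arr ℂ N → (Q →ₗ[ℂ] LinearMap.range (dltL ν)) := fun c => π ∘ₗ dltL c ∘ₗ Q.subtype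
  have hT0 : Function.Bijective (T ν) := by
    constructor
    · intro q q' h
      have h1 : T ν (q - q') = 0 := by rw [map_sub, h, sub_self]
      have h2 : (T ν (q - q') : Arr ℂ N) = dltL ν ((q - q' : Q) : Matrix (Fin N) (Fin N) ℂ) := by
        exact congrArg Subtype.val (hπr ⟨_, LinearMap.mem_range_self _ _⟩)
      rw [h1] at h2
      have h3 : ((q - q' : Q) : Matrix (Fin N) (Fin N) ℂ) ∈ LinearMap.ker (dltL ν) := by
        rw [LinearMap.mem_ker, ← h2]; rfl
      have h4 := Submodule.disjoint_def.mp hQ.disjoint _ h3 (q - q').2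
      exact sub_eq_zero.mp (Subtype.ext h4)
    · rintro ⟨v, X, rfl⟩
      obtain ⟨k, hk, q, hq, rfl⟩ := Submodule.mem_sup.mp
        (show X ∈ LinearMap.ker (dltL ν) ⊔ Q by rw [hQ.sup_eq_top]; trivial)
      refine ⟨⟨q, hq⟩, ?_⟩
      have h1 : dltL ν (k + q) = dltL ν q := by
        rw [map_add, LinearMap.mem_ker.mp hk, zero_add]
      have h2 : T ν ⟨q, hq⟩ = ⟨dltL ν q, LinearMap.mem_range_self _ _⟩ :=
        hπr ⟨_, LinearMap.mem_range_self _ _⟩
      rw [h2]
      exact Subtype.ext h1.symm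
  let e : Q ≃ₗ[ℂ] LinearMap.range (dltL ν) := LinearEquiv.ofBijective (T ν) hT0
  let b := Module.finBasis ℂ Q
  let G : Arr ℂ N →ₗ[ℂ] Matrix (Fin (Module.finrank ℂ Q)) (Fin (Module.finrank ℂ Q)) ℂ :=
    { toFun := fun c => LinearMap.toMatrix b b (e.symm.toLinearMap ∘ₗ T c)
      map_add' := fun c d => by
        rw [← map_add]
        congr 1
        apply LinearMap.ext
        intro q
        change e.symm (π (dltL (c + d) q)) = e.symm (π (dltL c q)) + e.symm (π (dltL d q))
        rw [trans_add, LinearMap.add_apply, map_add, map_add]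
      map_smul' := fun r c => by
        rw [RingHom.id_apply, ← map_smul]
        congr 1
        apply LinearMap.ext
        intro q
        change e.symm (π (dltL (r • c) q)) = r • e.symm (π (dltL c q))
        rw [trans_smul, LinearMap.smul_apply, map_smul, map_smul] }
  have hGc : Continuous G := G.continuous_of_finiteDimensional
  have hG0 : (G ν).det = 1 := by
    have h1 : e.symm.toLinearMap ∘ₗ T ν = LinearMap.id := by
      apply LinearMap.ext
      intro q
      exact e.symm_apply_apply q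
    change (LinearMap.toMatrix b b (e.symm.toLinearMap ∘ₗ T ν)).det = 1
    rw [h1, LinearMap.toMatrix_id, Matrix.det_one]
  have hcont : Continuous fun s : Arr ℂ N => (G (ν + s)).det :=
    (hGc.comp (continuous_const.add continuous_id)).matrix_det
  have hev : ∀ᶠ s in 𝓝 (0 : Arr ℂ N), (G (ν + s)).det ≠ 0 := by
    apply hcont.continuousAt.eventually_ne
    rw [add_zero, hG0]
    exact one_ne_zero
  filter_upwards [hev] with s hs θ hθ hhom X hX
  have hinj : ∀ q : Q, π (dltL (ν + s) q) = 0 → q = 0 := by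
    intro q hq
    have hu : IsUnit (G (ν + s)).det := isUnit_iff_ne_zero.mpr hs
    have h1 : (e.symm.toLinearMap ∘ₗ T (ν + s)) q = 0 := by
      change e.symm (π (dltL (ν + s) q)) = 0
      rw [hq, map_zero]
    have h2 : G (ν + s) *ᵥ (b.repr q) = b.repr ((e.symm.toLinearMap ∘ₗ T (ν + s)) q) :=
      LinearMap.toMatrix_mulVec_repr b b _ q
    rw [h1, map_zero] at h2
    have h3 : (⇑(b.repr q) : Fin (Module.finrank ℂ Q) → ℂ) = 0 := by
      have h4 : (G (ν + s))⁻¹ *ᵥ (G (ν + s) *ᵥ (b.repr q)) = 0 := by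
        rw [h2]
        exact Matrix.mulVec_zero _
      rwa [Matrix.mulVec_mulVec, Matrix.nonsing_inv_mul _ hu, Matrix.one_mulVec] at h4
    apply b.repr.map_eq_zero_iff.mp
    exact DFunLike.coe_injective h3
  have hfin := finrank_der_eq a (ν + s) θ hθ hhom
  have hrank1 := LinearMap.finrank_range_add_finrank_ker (dltL (ν + s))
  have hcompl := Submodule.finrank_add_eq_of_isCompl hQ
  rw [trans_ker] at hrank1 hcompl
  have hmap : Submodule.map (dltL (ν + s)) Q = LinearMap.range (dltL (ν + s)) := by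
    apply Submodule.eq_of_le_of_finrank_le
    · rintro _ ⟨q, _, rfl⟩
      exact LinearMap.mem_range_self _ _
    · have h1 : Module.finrank ℂ (Submodule.map (dltL (ν + s)) Q) = Module.finrank ℂ Q := by
        have h2 : Submodule.map (dltL (ν + s)) Q = LinearMap.range (dltL (ν + s) ∘ₗ Q.subtype) := by
          rw [LinearMap.range_comp, Submodule.range_subtype]
        rw [h2]
        apply LinearMap.finrank_range_of_inj
        intro q q' hqq
        have h3 : π (dltL (ν + s) ((q - q' : Q) : Matrix (Fin N) (Fin N) ℂ)) = 0 := by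
          have h4 : dltL (ν + s) ((q - q' : Q) : Matrix (Fin N) (Fin N) ℂ) = 0 := by
            have h5 : dltL (ν + s) (q : Matrix (Fin N) (Fin N) ℂ) = dltL (ν + s) q' := hqq
            rw [Submodule.coe_sub, map_sub, h5, sub_self]
          rw [h4, map_zero]
        exact sub_eq_zero.mp (hinj _ h3)
      rw [h1]
      omega
  have hXr : dltL (ν + s) X ∈ Submodule.map (dltL (ν + s)) Q := by
    rw [hmap]; exact LinearMap.mem_range_self _ _
  obtain ⟨q, hq, hqX⟩ := hXr
  have h1 : π (dltL (ν + s) ((⟨q, hq⟩ : Q) : Matrix (Fin N) (Fin N) ℂ)) = 0 := by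
    change π (dltL (ν + s) q) = 0
    rw [hqX]
    exact hπker _ hX
  have h2 : q = 0 := congrArg Subtype.val (hinj _ h1)
  change dltL (ν + s) X = 0
  rw [← hqX, h2, map_zero]

end Pool.H33.V
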