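import Pool.Agent.H33.V.Fld
import Pool.Agent.H33.V.Slice
import Pool.Agent.H33.V.Trans
import Pool.Agent.H33.V.Dv

/-! LEMA: determinants of isomorphisms stay bounded -/

open Matrix Filter Topology

namespace Pool.H33.V

theorem mulVec_cancel {K : Type*} [Field K] {N : ℕ} {G : Matrix (Fin N) (Fin N) K} (hG : G.det ≠ 0)
    {x y : Fin N → K} (h : G *ᵥ x = G *ᵥ y) : x = y := by
  have hu : IsUnit G.det := isUnit_iff_ne_zero.2 hG
  have := congrArg (fun v => G⁻¹ *ᵥ v) h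
  simpa [Matrix.mulVec_mulVec, Matrix.nonsing_inv_mul _ hu] using this

/-- the complex linear map `π` applied to arrays over `KK` -/
noncomputable def lemA_ext {N : ℕ} (π : Arr ℂ N →ₗ[ℂ] Arr ℂ N) (c : Arr KK N) : Arr KK N :=
  fun i j l => ∑ i', ∑ j', ∑ l', c i' j' l' *
    algebraMap ℂ KK (π (Pi.single i' (Pi.single j' (Pi.single l' 1))) i j l)

theorem lemA_expand {N : ℕ} (c : Arr ℂ N) : c = ∑ i', ∑ j', ∑ l', c i' j' l' •
    (Pi.single i' (Pi.single j' (Pi.single l' 1)) : Arr ℂ N) := by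
  funext i j l
  simp only [Finset.sum_apply, Pi.smul_apply, smul_eq_mul]
  rw [Finset.sum_eq_single i]
  · rw [Finset.sum_eq_single j]
    · rw [Finset.sum_eq_single l]
      · simp
      · intro b _ hb; simp [Pi.single_apply, Ne.symm hb]
      · intro h; exact absurd (Finset.mem_univ _) h
    · intro b _ hb
      refine Finset.sum_eq_zero fun l' _ => ?_
      simp [Pi.single_apply, Ne.symm hb]
    · intro h; exact absurd (Finset.mem_univ _) h
  · intro b _ hb
    refine Finset.sum_eq_zero fun j' _ => Finset.sum_eq_zero fun l' _ => ?_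
    simp [Pi.single_apply, Ne.symm hb]
  · intro h; exact absurd (Finset.mem_univ _) h

theorem lemA_expand' {N : ℕ} (π : Arr ℂ N →ₗ[ℂ] Arr ℂ N) (c : Arr ℂ N) (i j l : Fin N) :
    π c i j l = ∑ i', ∑ j', ∑ l', c i' j' l' *
      π (Pi.single i' (Pi.single j' (Pi.single l' 1))) i j l := by
  conv_lhs => rw [lemA_expand c]
  simp only [map_sum, map_smul, Finset.sum_apply, Pi.smul_apply, smul_eq_mul]

theorem lemA_ext_mk {N : ℕ} (π : Arr ℂ N →ₗ[ℂ] Arr ℂ N) (c : ℕ → Arr ℂ N) :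
    lemA_ext π (mapA mk (seqA c)) = mapA mk (seqA fun k => π (c k)) := by
  funext i j l
  simp only [lemA_ext, mapA, algebraMap_eq]
  simp only [← map_mul, ← map_sum]
  congr 1
  funext k
  simp only [seqA, Finset.sum_apply, Pi.mul_apply]
  exact (lemA_expand' π (c k) i j l).symm

theorem lemA_ext_d {N : ℕ} (d : Derivation ℂ KK KK) (π : Arr ℂ N →ₗ[ℂ] Arr ℂ N) (c : Arr KK N) :
    lemA_ext π (dA d c) = dA d (lemA_ext π c) := by
  funext i j l
  simp only [lemA_ext, dA, map_sum, Derivation.leibniz, Derivation.map_algebraMap, smul_zero,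
    zero_add, smul_eq_mul]
  refine Finset.sum_congr rfl fun i' _ => Finset.sum_congr rfl fun j' _ =>
    Finset.sum_congr rfl fun l' _ => by ring

/-- the algebraic core: all sequences given -/
theorem lemA_core {N : ℕ} (a ν : Arr ℂ N) (htr : ∀ D, IsDer a D → D.trace = 0)
    (π : Arr ℂ N →ₗ[ℂ] Arr ℂ N) (s : ℕ → Arr ℂ N) (hs : ∀ k, π (s k) = 0)
    (hs0 : Tendsto s atTop (𝓝 0)) (θ : ℕ → Matrix (Fin N) (Fin N) ℂ)
    (hθ : ∀ᶠ k in (hyperfilter ℕ : Filter ℕ), (θ k).det ≠ 0)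
    (hh : ∀ᶠ k in (hyperfilter ℕ : Filter ℕ), IsHom a (ν + s k) (θ k))
    (htrans : ∀ᶠ k in (hyperfilter ℕ : Filter ℕ), ∀ X, π (dlt (ν + s k) X) = 0 →
      dlt (ν + s k) X = 0) :
    ∃ c : ℂ, ∀ᶠ k in (hyperfilter ℕ : Filter ℕ), (θ k).det = c := by
  set Θ : Matrix (Fin N) (Fin N) KK := (seqM θ).map mk with hΘ
  set sK : Arr KK N := mapA mk (seqA s) with hsK
  have hdet : Θ.det = mk (fun k => (θ k).det) := det_mk θ
  have hdet0 : Θ.det ≠ 0 := by
    rw [hdet]
    intro h0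
    have := mk_eq_zero.1 h0
    exact (this.and hθ).exists.elim fun k hk => hk.2 hk.1
  have hu : IsUnit Θ.det := isUnit_iff_ne_zero.2 hdet0
  have hνs : mapA mk (seqA fun k => ν + s k) = mapA (algebraMap ℂ KK) ν + sK := by
    have : (seqA fun k => ν + s k) = (seqA fun _ => ν) + seqA s := rfl
    rw [this, mapA_add]; rfl
  have hhom : IsHom (mapA (algebraMap ℂ KK) a) (mapA (algebraMap ℂ KK) ν + sK) Θ := by
    rw [← hνs, ← mapA_mk_const a]
    exact isHom_mk_iff.2 hh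
  -- every derivation kills `sK`
  have hds : ∀ d : Derivation ℂ KK KK, dA d sK = 0 := by
    intro d
    set X : Matrix (Fin N) (Fin N) KK := dM d Θ * Θ⁻¹ with hX
    have hdlt : dlt (mapA (algebraMap ℂ KK) ν + sK) X = dA d sK := by
      apply br_arr_ext
      intro u v
      rw [br_dlt]
      have hΘu : Θ *ᵥ (Θ⁻¹ *ᵥ u) = u := by
        rw [Matrix.mulVec_mulVec, Matrix.mul_nonsing_inv _ hu, Matrix.one_mulVec]
      have hΘv : Θ *ᵥ (Θ⁻¹ *ᵥ v) = v := by
        rw [Matrix.mulVec_mulVec, Matrix.mul_nonsing_inv _ hu, Matrix.one_mulVec]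
      have e := d_isHom d _ _ Θ hhom (Θ⁻¹ *ᵥ u) (Θ⁻¹ *ᵥ v)
      have hz : ∀ x y : Fin N → KK, br (0 : Arr KK N) x y = 0 := by
        intro x y; funext l; simp [br]
      rw [dA_map, dA_add, dA_map, zero_add, hz, Matrix.mulVec_zero, add_zero, hΘu, hΘv] at e
      have hb : br (mapA (algebraMap ℂ KK) a) (Θ⁻¹ *ᵥ u) (Θ⁻¹ *ᵥ v)
          = Θ⁻¹ *ᵥ br (mapA (algebraMap ℂ KK) ν + sK) u v := by
        apply mulVec_cancel hdet0
        rw [hhom, hΘu, hΘv, Matrix.mulVec_mulVec, Matrix.mul_nonsing_inv _ hu, Matrix.one_mulVec]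
      rw [hb, Matrix.mulVec_mulVec, Matrix.mulVec_mulVec, Matrix.mulVec_mulVec] at e
      rw [← hX] at e
      rw [e]
      abel
    obtain ⟨X', hX'⟩ := exists_seqM X
    obtain ⟨s', hs'⟩ := exists_seqA (dA d sK)
    have h1 : ∀ᶠ k in (hyperfilter ℕ : Filter ℕ), dlt (ν + s k) (X' k) = s' k := by
      apply mapA_mk_eq_iff.1
      rw [← dlt_mk, hνs, hX', hdlt, hs']
    have h2 : ∀ᶠ k in (hyperfilter ℕ : Filter ℕ), π (s' k) = 0 := by
      apply mapA_mk_eq_iff.1
      rw [← lemA_ext_mk, hs', lemA_ext_d, hsK, lemA_ext_mk]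
      have : (fun k => π (s k)) = fun _ => (0 : Arr ℂ N) := funext hs
      rw [this]
      funext i j l
      simp only [dA, mapA, seqA]
      have e0 : mk (fun k => (fun _ => (0 : Arr ℂ N)) k i j l) = 0 :=
        mk_eq_zero.2 (Eventually.of_forall fun _ => rfl)
      exact (congrArg d e0).trans ((map_zero d).trans e0.symm)
    have h3 : ∀ᶠ k in (hyperfilter ℕ : Filter ℕ), s' k = 0 := by
      filter_upwards [h1, h2, htrans] with k h1 h2 h3
      rw [← h1]
      exact h3 _ (by rw [h1]; exact h2)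
    rw [← hs']
    have : mapA mk (seqA fun _ => (0 : Arr ℂ N)) = 0 := by
      rw [show (seqA fun _ => (0 : Arr ℂ N)) = 0 from rfl, mapA_zero]
    rw [← this]
    exact mapA_mk_eq_iff.2 h3
  -- so `sK = 0`
  have hsK0 : sK = 0 := by
    funext i j l
    have hr : sK i j l ∈ Set.range (algebraMap ℂ KK) := by
      by_contra hcon
      obtain ⟨d, hd⟩ := KK_exists_derivation hcon
      exact hd (congrFun (congrFun (congrFun (hds d) i) j) l)
    obtain ⟨c, hc⟩ := hr
    have h1 : ∀ᶠ k in (hyperfilter ℕ : Filter ℕ), c = s k i j l := mk_eq_mk.1 hc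
    have h2 : Tendsto (fun k => s k i j l) (hyperfilter ℕ : Filter ℕ) (𝓝 0) := by
      have h3 : Tendsto (fun k => s k i j l) atTop (𝓝 0) := by
        have := (tendsto_pi_nhds.1 hs0 i)
        have := (tendsto_pi_nhds.1 this j)
        exact (tendsto_pi_nhds.1 this l)
      exact h3.mono_left Nat.hyperfilter_le_atTop
    have h4 : Tendsto (fun _ : ℕ => c) (hyperfilter ℕ : Filter ℕ) (𝓝 0) :=
      h2.congr' (h1.mono fun k hk => hk.symm)
    have h5 : c = 0 := tendsto_nhds_unique tendsto_const_nhds h4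
    rw [← hc, h5, map_zero]; rfl
  rw [hsK0, add_zero] at hhom
  -- the determinant is killed by every derivation
  have hdd : ∀ d : Derivation ℂ KK KK, d Θ.det = 0 := by
    intro d
    set Z : Matrix (Fin N) (Fin N) KK := Θ⁻¹ * dM d Θ with hZ
    have hΘZ : Θ * Z = dM d Θ := by
      rw [hZ, ← Matrix.mul_assoc, Matrix.mul_nonsing_inv _ hu, Matrix.one_mul]
    have hder : IsDer (mapA (algebraMap ℂ KK) a) Z := by
      intro x y
      apply mulVec_cancel hdet0
      have e := d_isHom d _ _ Θ hhom x y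
      have hz : ∀ x y : Fin N → KK, br (0 : Arr KK N) x y = 0 := by
        intro x y; funext l; simp [br]
      rw [dA_map, dA_map, hz, hz, Matrix.mulVec_zero, add_zero, zero_add] at e
      rw [Matrix.mulVec_mulVec, hΘZ, e, Matrix.mulVec_add, hhom, hhom, Matrix.mulVec_mulVec,
        Matrix.mulVec_mulVec, hΘZ]
    obtain ⟨Z', hZ'⟩ := exists_seqM Z
    rw [← hZ', ← mapA_mk_const a] at hder
    have h1 := isDer_mk_iff.1 hder
    have h2 : Z.trace = 0 := by
      rw [← hZ', trace_mk]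
      exact mk_eq_zero.2 (h1.mono fun k hk => htr _ hk)
    rw [d_det]
    have h3 : Θ.adjugate = Θ.det • Θ⁻¹ := by
      rw [Matrix.inv_def, smul_smul, Ring.inverse_eq_inv', mul_inv_cancel₀ hdet0, one_smul]
    rw [h3, Matrix.smul_mul, ← hZ, Matrix.trace_smul, h2, smul_zero]
  have hr : Θ.det ∈ Set.range (algebraMap ℂ KK) := by
    by_contra hcon
    obtain ⟨d, hd⟩ := KK_exists_derivation hcon
    exact hd (hdd d)
  obtain ⟨c, hc⟩ := hr
  rw [hdet, algebraMap_eq] at hc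
  exact ⟨c, (mk_eq_mk.1 hc).mono fun k hk => hk.symm⟩

theorem lemA {N : ℕ} (a ν : Arr ℂ N) (htr : ∀ D, IsDer a D → D.trace = 0)
    (hdim : Module.finrank ℂ (DerS ν) ≤ Module.finrank ℂ (DerS a))
    (νs : ℕ → Arr ℂ N) (hν : Tendsto νs atTop (𝓝 ν)) (θ : ℕ → Matrix (Fin N) (Fin N) ℂ)
    (hθ : ∀ k, (θ k).det ≠ 0) (hh : ∀ k, IsHom a (νs k) (θ k)) :
    ¬ Tendsto (fun k => ‖(θ k).det‖) atTop atTop := by
  intro hT
  obtain ⟨S, hS⟩ := Submodule.exists_isCompl (LinearMap.range (dltL ν))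
  -- the projection with kernel `S`
  obtain ⟨π, hπ⟩ : ∃ π : Arr ℂ N →ₗ[ℂ] Arr ℂ N, LinearMap.ker π = S :=
    ⟨(LinearMap.range (dltL ν)).subtype ∘ₗ
      Submodule.projectionOnto _ _ hS, by
      rw [LinearMap.ker_comp, Submodule.ker_subtype]
      exact Submodule.ker_projectionOnto hS⟩
  have hmem : ∀ c : Arr ℂ N, c ∈ S ↔ π c = 0 := by
    intro c; rw [← hπ, LinearMap.mem_ker]
  have : FirstCountableTopology (Matrix (Fin N) (Fin N) ℂ) :=
    inferInstanceAs (FirstCountableTopology (Fin N → Fin N → ℂ))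
  obtain ⟨V, hV⟩ := (𝓝 (1 : Matrix (Fin N) (Fin N) ℂ)).exists_antitone_basis
  obtain ⟨U, hU⟩ := (𝓝 (0 : Arr ℂ N)).exists_antitone_basis
  have hstep : ∀ j : ℕ, ∃ k, j ≤ k ∧ ∃ G ∈ V j, ∃ s ∈ U j, s ∈ S ∧ IsHom (ν + s) (νs k) G := by
    intro j
    have h1 := slice ν S hS.codisjoint.eq_top (V j) (hV.1.mem_of_mem trivial) (U j)
      (hU.1.mem_of_mem trivial)
    have h2 := (hν.eventually h1).and (eventually_ge_atTop j)
    obtain ⟨k, hk1, hk2⟩ := h2.exists
    exact ⟨k, hk2, hk1⟩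
  choose K hK G hG s hs hsS hGh using hstep
  have hGt : Tendsto G atTop (𝓝 1) := hV.tendsto hG
  have hst : Tendsto s atTop (𝓝 0) := hU.tendsto hs
  have hKt : Tendsto K atTop atTop := tendsto_atTop_mono hK tendsto_id
  have hGd : Tendsto (fun j => (G j).det) atTop (𝓝 1) := by
    have hc : Continuous fun M : Matrix (Fin N) (Fin N) ℂ => M.det := continuous_id.matrix_det
    have := (hc.tendsto 1).comp hGt
    rw [Matrix.det_one] at this
    exact this
  have hG0 : ∀ᶠ j in atTop, (G j).det ≠ 0 := hGd.eventually_ne one_ne_zero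
  -- the corrected isomorphisms
  let θ' : ℕ → Matrix (Fin N) (Fin N) ℂ := fun j => (G j)⁻¹ * θ (K j)
  have hθ' : ∀ j, (G j).det ≠ 0 → G j * θ' j = θ (K j) := by
    intro j hj
    rw [← Matrix.mul_assoc, Matrix.mul_nonsing_inv _ (isUnit_iff_ne_zero.2 hj), Matrix.one_mul]
  have hdet' : ∀ j, (G j).det ≠ 0 → (G j).det * (θ' j).det = (θ (K j)).det := by
    intro j hj
    rw [← Matrix.det_mul, hθ' j hj]
  have hhom' : ∀ j, (G j).det ≠ 0 → IsHom a (ν + s j) (θ' j) := by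
    intro j hj x y
    apply mulVec_cancel hj
    rw [Matrix.mulVec_mulVec, hθ' j hj, hh (K j) x y, ← hθ' j hj, hGh j, Matrix.mulVec_mulVec,
      Matrix.mulVec_mulVec]
  have htrans := hst.eventually (transversal ν a S hS hdim)
  have hle := Nat.hyperfilter_le_atTop
  obtain ⟨c, hc⟩ := lemA_core a ν htr π s (fun j => (hmem _).1 (hsS j)) hst θ'
    (Eventually.filter_mono hle (hG0.mono fun j hj (h0 : (θ' j).det = 0) =>
      hθ (K j) (by rw [← hdet' j hj, h0, mul_zero])))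
    ((hG0.mono hhom').filter_mono hle)
    (((htrans.and hG0).mono fun j hj X hX => by
      have hd : (θ' j).det ≠ 0 := fun h0 => hθ (K j) (by rw [← hdet' j hj.2, h0, mul_zero])
      exact hj.1 (θ' j) hd (hhom' j hj.2) X ((hmem _).2 hX)).filter_mono hle)
  -- boundedness contradiction
  have h1 : ∀ᶠ j in atTop, ‖(G j).det‖ < 2 := by
    have : Tendsto (fun j => ‖(G j).det‖) atTop (𝓝 ‖(1 : ℂ)‖) := hGd.norm
    exact this.eventually_lt_const (by norm_num)
  have h2 : ∀ᶠ j in atTop, 2 * ‖c‖ + 1 ≤ ‖(θ (K j)).det‖ :=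
    (hT.comp hKt).eventually_ge_atTop (2 * ‖c‖ + 1)
  obtain ⟨j, hj1, hj2, hj3, hj4⟩ := ((h1.filter_mono hle).and ((h2.filter_mono hle).and
    ((hG0.filter_mono hle).and hc))).exists
  rw [← hdet' j hj3, hj4, norm_mul] at hj2
  nlinarith [norm_nonneg c, norm_nonneg (G j).det, mul_le_mul_of_nonneg_right hj1.le (norm_nonneg c)]

end Pool.H33.V
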