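import Pool.Agent.H33.V.Fld
import Pool.Agent.H33.V.Dv

/-! LEMB: the case of a fixed ideal -/

open Matrix Filter Topology

namespace Pool.H33.V

theorem LemB_mk_mul {N : ℕ} (X Y : ℕ → Matrix (Fin N) (Fin N) ℂ) :
    (seqM fun k => X k * Y k).map mk = (seqM X).map mk * (seqM Y).map mk := by
  rw [← Matrix.map_mul]
  congr 1
  ext i j k
  simp [seqM, Matrix.mul_apply, Finset.sum_apply]

theorem LemB_mk_add {N : ℕ} (X Y : ℕ → Matrix (Fin N) (Fin N) ℂ) :
    (seqM fun k => X k + Y k).map mk = (seqM X).map mk + (seqM Y).map mk := by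
  ext i j
  simp only [Matrix.map_apply, Matrix.add_apply, ← map_add]
  rfl

theorem LemB_mk_sub {N : ℕ} (X Y : ℕ → Matrix (Fin N) (Fin N) ℂ) :
    (seqM fun k => X k - Y k).map mk = (seqM X).map mk - (seqM Y).map mk := by
  ext i j
  simp only [Matrix.map_apply, Matrix.sub_apply, ← map_sub]
  rfl

theorem LemB_mk_smul {N : ℕ} (c : ℕ → ℂ) (X : ℕ → Matrix (Fin N) (Fin N) ℂ) :
    (seqM fun k => c k • X k).map mk = mk c • (seqM X).map mk := by
  ext i j
  simp only [Matrix.map_apply, Matrix.smul_apply, smul_eq_mul, ← map_mul]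
  rfl

theorem LemB_mk_adM {N : ℕ} (a : Arr ℂ N) (w : ℕ → Fin N → ℂ) :
    (seqM fun k => adM a (w k)).map mk =
      adM (mapA mk (seqA fun _ => a)) (fun i => mk fun k => w k i) := by
  ext l j
  simp only [Matrix.map_apply, adM, mapA, Matrix.of_apply, ← map_mul, ← map_sum]
  congr 1
  funext k
  simp [seqM, seqA, Finset.sum_apply]

theorem LemB_adM_conj {R : Type*} [CommRing R] {N : ℕ} (c : Arr R N)
    (A B : Matrix (Fin N) (Fin N) R) (hA : IsHom c c A) (hBA : B * A = 1) (hAB : A * B = 1)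
    (v : Fin N → R) : B * adM c v * A = adM c (B *ᵥ v) := by
  have hinj : ∀ x y : Fin N → R, A *ᵥ x = A *ᵥ y → x = y := by
    intro x y h
    have := congrArg (fun z => B *ᵥ z) h
    simpa [Matrix.mulVec_mulVec, hBA] using this
  apply Matrix.ext_of_mulVec_single
  intro i
  apply hinj
  rw [adM_mulVec, hA, Matrix.mulVec_mulVec, Matrix.mulVec_mulVec, hAB, Matrix.one_mulVec,
    ← Matrix.mul_assoc, ← Matrix.mul_assoc, hAB, Matrix.one_mul, ← Matrix.mulVec_mulVec, adM_mulVec]

theorem LemB_dM_mul {k K : Type*} [Field k] [Field K] [Algebra k K] {N : ℕ}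
    (d : Derivation k K K) (X Y : Matrix (Fin N) (Fin N) K) :
    dM d (X * Y) = dM d X * Y + X * dM d Y := by
  ext i j
  simp only [dM, Matrix.map_apply, Matrix.mul_apply, map_sum, Derivation.leibniz, smul_eq_mul,
    Matrix.add_apply, ← Finset.sum_add_distrib]
  refine Finset.sum_congr rfl fun l _ => ?_
  ring

theorem LemB_dM_add {k K : Type*} [Field k] [Field K] [Algebra k K] {N : ℕ}
    (d : Derivation k K K) (X Y : Matrix (Fin N) (Fin N) K) :
    dM d (X + Y) = dM d X + dM d Y := by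
  ext i j
  simp [dM]

theorem LemB_dM_smul {k K : Type*} [Field k] [Field K] [Algebra k K] {N : ℕ}
    (d : Derivation k K K) (r : K) (X : Matrix (Fin N) (Fin N) K) :
    dM d (r • X) = d r • X + r • dM d X := by
  ext i j
  simp [dM]
  ring

theorem LemB_dM_const {k K : Type*} [Field k] [Field K] [Algebra k K] {N : ℕ}
    (d : Derivation k K K) (X : Matrix (Fin N) (Fin N) k) :
    dM d (X.map (algebraMap k K)) = 0 := by
  ext i j
  simp [dM]

theorem LemB_dM_adM {k K : Type*} [Field k] [Field K] [Algebra k K] {N : ℕ}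
    (d : Derivation k K K) (a : Arr k N) (w : Fin N → K) :
    dM d (adM (mapA (algebraMap k K) a) w) = adM (mapA (algebraMap k K) a) (d ∘ w) := by
  ext l j
  simp only [dM, adM, mapA, Matrix.map_apply, Matrix.of_apply, map_sum, Derivation.leibniz,
    Derivation.map_algebraMap, smul_eq_mul, Function.comp_apply]
  refine Finset.sum_congr rfl fun i _ => ?_
  ring

theorem LemB_adM_smul {R : Type*} [CommRing R] {N : ℕ} (c : Arr R N) (r : R) (v : Fin N → R) :
    adM c (r • v) = r • adM c v := by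
  ext l j
  simp [adM, Finset.mul_sum, mul_assoc]

theorem LemB_adM_sub {R : Type*} [CommRing R] {N : ℕ} (c : Arr R N) (v w : Fin N → R) :
    adM c (v - w) = adM c v - adM c w := by
  ext l j
  simp [adM, sub_mul, Finset.sum_sub_distrib]

theorem LemB_alg {K : Type*} [Field K] {N : ℕ} (A B Y Dt D1 E W W' : Matrix (Fin N) (Fin N) K)
    (c c' s : K) (hc : c ≠ 0) (hBA : B * A = 1) (h : A * Dt = (c • E + W) * A)
    (h1 : A * Y * Dt + A * (s • D1) = (c' • E + W') * A + (c • E + W) * (A * Y)) :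
    s • D1 - (c' / c) • Dt = (Dt * Y - Y * Dt) + (B * W' * A - (c' / c) • (B * W * A)) := by
  have e1 : (c • E + W) * (A * Y) = A * Dt * Y := by rw [← Matrix.mul_assoc, ← h]
  have e2 : c' • (E * A) = (c' / c) • (A * Dt - W * A) := by
    rw [h, Matrix.add_mul, add_sub_cancel_right, Matrix.smul_mul, smul_smul, div_mul_cancel₀ _ hc]
  rw [e1, Matrix.add_mul, Matrix.smul_mul, e2] at h1
  have h2 := congrArg (fun M => B * M) h1
  simp only [Matrix.mul_add, Matrix.mul_smul, Matrix.mul_sub, ← Matrix.mul_assoc, hBA,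
    Matrix.one_mul, smul_sub] at h2
  have h3 : s • D1 = (c' / c) • Dt - (c' / c) • (B * W * A) + B * W' * A + Dt * Y - Y * Dt := by
    rw [← h2]; abel
  rw [h3]; abel

/-- the differentiated identity over a field -/
theorem LemB_key {k K : Type*} [Field k] [Field K] [Algebra k K] {N : ℕ} (d : Derivation k K K)
    (a : Arr k N) (E D0 D1 : Matrix (Fin N) (Fin N) k) (t c : K) (hc : c ≠ 0) (w : Fin N → K)
    (A B : Matrix (Fin N) (Fin N) K)
    (hA : IsHom (mapA (algebraMap k K) a) (mapA (algebraMap k K) a) A)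
    (hBA : B * A = 1) (hAB : A * B = 1)
    (h : A * (D0.map (algebraMap k K) + t • D1.map (algebraMap k K)) =
      (c • E.map (algebraMap k K) + adM (mapA (algebraMap k K) a) w) * A) :
    ∃ (Y : Matrix (Fin N) (Fin N) K) (κ : K) (v : Fin N → K),
      IsDer (mapA (algebraMap k K) a) Y ∧
      d t • D1.map (algebraMap k K) - κ • (D0.map (algebraMap k K) + t • D1.map (algebraMap k K)) =
        ((D0.map (algebraMap k K) + t • D1.map (algebraMap k K)) * Y -
          Y * (D0.map (algebraMap k K) + t • D1.map (algebraMap k K))) +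
        adM (mapA (algebraMap k K) a) v := by
  have hY : dM d A = A * (B * dM d A) := by
    rw [← Matrix.mul_assoc, hAB, Matrix.one_mul]
  have hder : IsDer (mapA (algebraMap k K) a) (B * dM d A) := by
    intro x y
    have h1 := d_isHom d _ _ A hA x y
    have z : ∀ x y : Fin N → K, br (0 : Arr K N) x y = 0 := by
      intro x y; funext k; simp [br]
    have e1 : ∀ x : Fin N → K, dM d A *ᵥ x = A *ᵥ ((B * dM d A) *ᵥ x) := by
      intro x
      rw [Matrix.mulVec_mulVec, ← hY]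
    rw [dA_map, z, z, Matrix.mulVec_zero, add_zero, zero_add, e1 x, e1 y, e1 (br _ x y), ← hA,
      ← hA, ← Matrix.mulVec_add] at h1
    have h2 := congrArg (fun z => B *ᵥ z) h1
    simp only [Matrix.mulVec_mulVec, hBA, Matrix.one_mulVec, ← Matrix.mul_assoc, Matrix.one_mul]
      at h2
    simp only [← Matrix.mulVec_mulVec] at h2 ⊢
    exact h2
  refine ⟨B * dM d A, d c / c, B *ᵥ (d ∘ w) - (d c / c) • (B *ᵥ w), hder, ?_⟩
  -- differentiate
  have h1 := congrArg (dM d) h
  rw [LemB_dM_mul, LemB_dM_mul, LemB_dM_add, LemB_dM_smul, LemB_dM_add,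
    LemB_dM_smul, LemB_dM_const, LemB_dM_const, LemB_dM_const, LemB_dM_adM, smul_zero, add_zero,
    smul_zero, add_zero, zero_add, hY] at h1
  rw [LemB_alg A B (B * dM d A) _ _ _ _ _ c (d c) (d t) hc hBA h h1, LemB_adM_sub, LemB_adM_smul,
    LemB_adM_conj _ A B hA hBA hAB, LemB_adM_conj _ A B hA hBA hAB]

theorem lemB {N : ℕ} (a : Arr ℂ N) (E D0 D1 : Matrix (Fin N) (Fin N) ℂ) (hD0 : IsDer a D0)
    (hD1 : IsDer a D1) (T : Set ℂ) (hT : T.Infinite)
    (h : ∀ t ∈ T, ∃ (α : Matrix (Fin N) (Fin N) ℂ) (c : ℂ) (w : Fin N → ℂ), α.det ≠ 0 ∧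
      IsHom a a α ∧ c ≠ 0 ∧ α * (D0 + t • D1) = (c • E + adM a w) * α) :
    ∃ p q : ℂ, (p ≠ 0 ∨ q ≠ 0) ∧ p • D0 + q • D1 ∈ WS a := by
  have := hT.to_subtype
  let τ : ℕ → T := hT.natEmbedding
  have hτ : Function.Injective τ := (hT.natEmbedding T).injective
  choose α c w hdet hhom hc hrel using fun k => h (τ k) (τ k).2
  -- over the ultrapower
  have hA : IsHom (mapA (algebraMap ℂ KK) a) (mapA (algebraMap ℂ KK) a) ((seqM α).map mk) := by
    rw [← mapA_mk_const]
    exact isHom_mk_iff.2 (Filter.Eventually.of_forall hhom)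
  have hne : (hyperfilter ℕ : Filter ℕ).NeBot := inferInstance
  have hcne : mk c ≠ 0 := by
    intro h0
    obtain ⟨k, hk⟩ := (mk_eq_zero.1 h0).exists
    exact hc k hk
  have hBA : (seqM fun k => (α k)⁻¹).map mk * (seqM α).map mk = 1 := by
    rw [← LemB_mk_mul]
    have : (seqM fun k => (α k)⁻¹ * α k).map mk = (seqM fun _ => (1 : Matrix (Fin N) (Fin N) ℂ)).map mk := by
      refine map_mk_eq_iff.2 (Filter.Eventually.of_forall fun k => ?_)
      exact Matrix.nonsing_inv_mul _ (isUnit_iff_ne_zero.2 (hdet k))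
    rw [this, map_mk_const]
    exact Matrix.map_one _ (map_zero _) (map_one _)
  have hAB : (seqM α).map mk * (seqM fun k => (α k)⁻¹).map mk = 1 := mul_eq_one_comm.1 hBA
  have hrel' : (seqM α).map mk * (D0.map (algebraMap ℂ KK) +
      (mk fun k => ((τ k : T) : ℂ)) • D1.map (algebraMap ℂ KK)) =
      (mk c • E.map (algebraMap ℂ KK) +
        adM (mapA (algebraMap ℂ KK) a) (fun i => mk fun k => w k i)) * (seqM α).map mk := by
    rw [← map_mk_const, ← map_mk_const, ← map_mk_const, ← mapA_mk_const, ← LemB_mk_smul,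
      ← LemB_mk_smul, ← LemB_mk_adM, ← LemB_mk_add, ← LemB_mk_add, ← LemB_mk_mul, ← LemB_mk_mul]
    exact map_mk_eq_iff.2 (Filter.Eventually.of_forall hrel)
  have ht : (mk fun k => ((τ k : T) : ℂ)) ∉ Set.range (algebraMap ℂ KK) := by
    rintro ⟨z, hz⟩
    rw [algebraMap_eq, mk_eq_mk] at hz
    have hfin : {k : ℕ | z = (τ k : ℂ)}.Finite := by
      apply Set.Subsingleton.finite
      intro k hk l hl
      exact hτ (Subtype.ext (hk.symm.trans hl))
    exact (Filter.notMem_hyperfilter_of_finite hfin) hz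
  obtain ⟨d, hd⟩ := KK_exists_derivation ht
  obtain ⟨Y, κ, v, hY, hkey⟩ := LemB_key d a E D0 D1 _ (mk c) hcne _ _ _ hA hBA hAB hrel'
  obtain ⟨Y', rfl⟩ := exists_seqM Y
  obtain ⟨κ', rfl⟩ := mk_surj κ
  obtain ⟨δ, hδ⟩ := mk_surj (d (mk fun k => ((τ k : T) : ℂ)))
  choose v' hv' using fun i => mk_surj (v i)
  have hv : v = fun i => mk fun k => (fun k i => v' i k) k i := by
    funext i; exact (hv' i).symm
  rw [← hδ, hv, ← map_mk_const, ← map_mk_const, ← mapA_mk_const, ← LemB_mk_smul,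
    ← LemB_mk_smul, ← LemB_mk_adM, ← LemB_mk_add, ← LemB_mk_smul, ← LemB_mk_sub, ← LemB_mk_mul,
    ← LemB_mk_mul, ← LemB_mk_sub, ← LemB_mk_add, map_mk_eq_iff] at hkey
  rw [← mapA_mk_const, isDer_mk_iff] at hY
  have hδne : ∀ᶠ k in (hyperfilter ℕ : Filter ℕ), δ k ≠ 0 := by
    refine Ultrafilter.eventually_not.2 fun hcon => hd ?_
    rw [← hδ]
    exact mk_eq_zero.2 hcon
  obtain ⟨k, hk1, hk2, hk3⟩ := (hkey.and (hY.and hδne)).exists
  refine ⟨-κ' k, δ k - κ' k * τ k, ?_, ?_⟩
  · by_contra hcon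
    push Not at hcon
    have h1 : κ' k = 0 := neg_eq_zero.1 hcon.1
    rw [h1, zero_mul, sub_zero] at hcon
    exact hk3 hcon.2
  · have e : -κ' k • D0 + (δ k - κ' k * τ k) • D1 =
        δ k • D1 - κ' k • (D0 + ((τ k : T) : ℂ) • D1) := by
      rw [smul_add, smul_smul, sub_smul, neg_smul]; abel
    rw [e, hk1]
    refine Submodule.add_mem _ ?_ ?_
    · refine Submodule.subset_span (Or.inr ⟨_, _, ?_, hk2, rfl⟩)
      exact (DerS a).add_mem hD0 ((DerS a).smul_mem _ hD1)
    · exact Submodule.subset_span (Or.inl ⟨_, rfl⟩)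

end Pool.H33.V
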