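import Pool.Agent.H33.V.Defs

/-! STEP1: nilpotency of derivations -/

open Matrix Filter Topology

namespace Pool.H33.V

theorem step1_br_e0 {N : ℕ} (a : Arr ℂ N) (D : Matrix (Fin N) (Fin N) ℂ) (y : Fin N → ℂ) :
    br (sdA a D) (Pi.single 0 1) (Fin.cons 0 y) = Fin.cons 0 (D *ᵥ y) := by
  rw [br_sdA]
  have h1 : Fin.tail (Pi.single (0 : Fin (N + 1)) (1 : ℂ) : Fin (N + 1) → ℂ)
      = (0 : Fin N → ℂ) := by
    funext i
    simp [Fin.tail]
  have h2 : Fin.tail (Fin.cons (0 : ℂ) y : Fin (N + 1) → ℂ) = y := Fin.tail_cons _ _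
  rw [h1, h2, br_zero_left]
  simp

theorem step1_iter {N : ℕ} (a : Arr ℂ N) (D : Matrix (Fin N) (Fin N) ℂ) (m : ℕ) (y : Fin N → ℂ) :
    (br (sdA a D) (Pi.single 0 1))^[m] (Fin.cons 0 y) = Fin.cons 0 ((D ^ m) *ᵥ y) := by
  induction m with
  | zero => simp
  | succ m ih =>
    rw [Function.iterate_succ_apply', ih, step1_br_e0, Matrix.mulVec_mulVec, pow_succ']

theorem good_nilpotent {N : ℕ} (μ : Arr ℂ (N + 1))
    (hnil : ∀ x, ∃ m : ℕ, ∀ y, (br μ x)^[m] y = 0) (a : Arr ℂ N)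
    (D : Matrix (Fin N) (Fin N) ℂ) (hG : Good μ a D) : IsNilpotent D := by
  obtain ⟨_, _, P, hP, hhom⟩ := hG
  obtain ⟨m, hm⟩ := hnil (P *ᵥ Pi.single 0 1)
  have hit : ∀ (k : ℕ) (u : Fin (N + 1) → ℂ),
      P *ᵥ ((br (sdA a D) (Pi.single 0 1))^[k] u) = (br μ (P *ᵥ Pi.single 0 1))^[k] (P *ᵥ u) := by
    intro k u
    induction k with
    | zero => simp
    | succ k ih =>
      rw [Function.iterate_succ_apply', Function.iterate_succ_apply', hhom, ih]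
  have hinj : ∀ u : Fin (N + 1) → ℂ, P *ᵥ u = 0 → u = 0 :=
    fun u hu => Matrix.eq_zero_of_mulVec_eq_zero hP hu
  refine ⟨m, ?_⟩
  ext i j
  have h1 := step1_iter a D m (Pi.single j 1)
  have h2 : (br (sdA a D) (Pi.single 0 1))^[m] (Fin.cons 0 (Pi.single j 1)) = 0 :=
    hinj _ (by rw [hit, hm])
  rw [h2] at h1
  have h3 := congrFun h1 i.succ
  rw [Fin.cons_succ, Matrix.mulVec_single_one] at h3
  simpa using h3.symm

theorem step1_pow_eq_zero {N : ℕ} {M : Matrix (Fin N) (Fin N) ℂ} (h : IsNilpotent M) :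
    M ^ N = 0 := by
  have h1 := (Matrix.isNilpotent_charpoly_sub_pow_of_isNilpotent h).eq_zero
  have h2 : M.charpoly = Polynomial.X ^ N := by
    have := sub_eq_zero.1 h1
    simpa using this
  have h3 := Matrix.aeval_self_charpoly M
  rw [h2] at h3
  simpa using h3

theorem nilpotent_of_cofinite {N : ℕ} (D D' : Matrix (Fin N) (Fin N) ℂ)
    (h : {t : ℂ | ¬ IsNilpotent (D + t • D')}.Finite) : IsNilpotent D' := by
  refine ⟨N, ?_⟩
  have hc : Continuous fun s : ℂ => (s • D + D') ^ N := by fun_prop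
  have hlim : Tendsto (fun s : ℂ => (s • D + D') ^ N) (𝓝[≠] 0) (𝓝 (((0 : ℂ) • D + D') ^ N)) :=
    (hc.tendsto 0).mono_left nhdsWithin_le_nhds
  have hev : ∀ᶠ s : ℂ in 𝓝[≠] 0, (s • D + D') ^ N = 0 := by
    have h1 : ∀ᶠ s : ℂ in 𝓝[≠] 0, s⁻¹ ∉ {t : ℂ | ¬ IsNilpotent (D + t • D')} :=
      tendsto_inv₀_nhdsNE_zero.eventually (Bornology.isBounded_def.1 h.isBounded)
    have h2 : ∀ᶠ s : ℂ in 𝓝[≠] 0, s ≠ 0 := eventually_mem_nhdsWithin
    filter_upwards [h1, h2] with s hs hs0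
    have hn : IsNilpotent (D + s⁻¹ • D') := not_not.1 hs
    have he : s • D + D' = s • (D + s⁻¹ • D') := by
      rw [smul_add, smul_smul, mul_inv_cancel₀ hs0, one_smul]
    have hp : (D + s⁻¹ • D') ^ N = 0 := step1_pow_eq_zero hn
    rw [he, smul_pow, hp, smul_zero]
  have h0 : ((0 : ℂ) • D + D') ^ N = 0 :=
    tendsto_nhds_unique (hlim.congr' hev) tendsto_const_nhds |>.symm ▸ rfl
  simpa using h0

theorem trace_eq_zero {N : ℕ} (D : Matrix (Fin N) (Fin N) ℂ) (h : IsNilpotent D) : D.trace = 0 :=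
  (Matrix.isNilpotent_trace_of_isNilpotent h).eq_zero

end Pool.H33.V
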