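import Pool.Agent.H33.V.Acl

/-! UNB: a polynomial that is bounded on an algebraic set takes finitely many values there -/

open Matrix Filter Topology

namespace Pool.H33.V

/-- evaluation of a complex polynomial at a point of the ultrapower, given by sequences -/
theorem unb_eval_mk {ι : Type} (q : MvPolynomial ι ℂ) (z : ℕ → ι → ℂ) :
    MvPolynomial.eval₂ (algebraMap ℂ KK) (fun i => mk (fun k => z k i)) q =
      mk (fun k => MvPolynomial.eval (z k) q) := by
  have h1 : (fun k => MvPolynomial.eval (z k) q) =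
      MvPolynomial.eval₂ (Pi.constRingHom ℕ ℂ) (fun i k => z k i) q := by
    funext k
    have := MvPolynomial.eval₂_comp_left (ev k) (Pi.constRingHom ℕ ℂ) (fun i k => z k i) q
    have h2 : (ev k) (MvPolynomial.eval₂ (Pi.constRingHom ℕ ℂ) (fun i k => z k i) q) =
      MvPolynomial.eval₂ (Pi.constRingHom ℕ ℂ) (fun i k => z k i) q k := rfl
    rw [← h2, this]
    rfl
  rw [h1, MvPolynomial.eval₂_comp_left mk]
  rfl

theorem finite_of_bounded {ι κ : Type} [Finite ι] [Finite κ] (p : κ → MvPolynomial ι ℂ)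
    (f : MvPolynomial ι ℂ) (C : ℝ)
    (hb : ∀ z : ι → ℂ, (∀ i, MvPolynomial.eval z (p i) = 0) → ‖MvPolynomial.eval z f‖ ≤ C) :
    {w : ℂ | ∃ z : ι → ℂ, (∀ i, MvPolynomial.eval z (p i) = 0) ∧
      MvPolynomial.eval z f = w}.Finite := by
  by_contra hfin
  have hinf : {w : ℂ | ∃ z : ι → ℂ, (∀ i, MvPolynomial.eval z (p i) = 0) ∧
      MvPolynomial.eval z f = w}.Infinite := hfin
  set W := {w : ℂ | ∃ z : ι → ℂ, (∀ i, MvPolynomial.eval z (p i) = 0) ∧
      MvPolynomial.eval z f = w} with hW
  let e := hinf.natEmbedding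
  have hz : ∀ k : ℕ, ∃ z : ι → ℂ, (∀ i, MvPolynomial.eval z (p i) = 0) ∧
      MvPolynomial.eval z f = (e k : ℂ) := fun k => (e k).2
  choose z hz0 hzf using hz
  -- `F` is not a constant
  have hF : mk (fun k => MvPolynomial.eval (z k) f) ∉ Set.range (algebraMap ℂ KK) := by
    rintro ⟨c, hc⟩
    rw [algebraMap_eq, mk_eq_mk] at hc
    have hfin' : {k : ℕ | c = MvPolynomial.eval (z k) f}.Finite := by
      apply Set.Subsingleton.finite
      intro k hk l hl
      have h1 : (e k : ℂ) = e l := by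
        rw [← hzf k, ← hzf l]
        exact hk.symm.trans hl
      exact e.injective (Subtype.ext h1)
    have := notMem_hyperfilter_of_finite hfin'
    exact this hc
  have hω : mk (fun k => (k : ℂ)) ∉ Set.range (algebraMap ℂ KK) := by
    rintro ⟨c, hc⟩
    rw [algebraMap_eq, mk_eq_mk] at hc
    have hfin' : {k : ℕ | c = (k : ℂ)}.Finite := by
      apply Set.Subsingleton.finite
      intro k hk l hl
      have h1 : (k : ℂ) = l := hk.symm.trans hl
      exact_mod_cast h1
    have := notMem_hyperfilter_of_finite hfin'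
    exact this hc
  obtain ⟨σ, hσ, hσF⟩ := exists_aut hF hω
  -- transport
  have hlift : ∀ i, ∃ s : ℕ → ℂ, mk s = σ (mk (fun k => z k i)) := fun i => mk_surj _
  choose s hs using hlift
  have hcomm : ∀ q : MvPolynomial ι ℂ, mk (fun k => MvPolynomial.eval (fun i => s i k) q) =
      σ (mk (fun k => MvPolynomial.eval (z k) q)) := by
    intro q
    rw [← unb_eval_mk q (fun k i => s i k), ← unb_eval_mk q z]
    have h1 := MvPolynomial.eval₂_comp_left (σ : KK →+* KK) (algebraMap ℂ KK)
      (fun i => mk (fun k => z k i)) q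
    have h2 : (σ : KK →+* KK).comp (algebraMap ℂ KK) = algebraMap ℂ KK := by
      ext c
      exact hσ c
    rw [h2] at h1
    have h3 : ((σ : KK →+* KK) ∘ fun i => mk (fun k => z k i)) = fun i => mk (fun k => s i k) := by
      funext i
      exact (hs i).symm
    rw [h3] at h1
    exact h1.symm
  have hp : ∀ i, ∀ᶠ k in (hyperfilter ℕ : Filter ℕ),
      MvPolynomial.eval (fun j => s j k) (p i) = 0 := by
    intro i
    rw [← mk_eq_zero, hcomm, mk_eq_zero.2 (Eventually.of_forall fun k => hz0 k i), map_zero]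
  have hf : ∀ᶠ k in (hyperfilter ℕ : Filter ℕ),
      MvPolynomial.eval (fun j => s j k) f = (k : ℂ) := by
    rw [← mk_eq_mk, hcomm, hσF]
  have hall : ∀ᶠ k in (hyperfilter ℕ : Filter ℕ), ∀ i,
      MvPolynomial.eval (fun j => s j k) (p i) = 0 := by
    rw [Filter.eventually_all]
    exact hp
  have hlarge : ∀ᶠ k : ℕ in (hyperfilter ℕ : Filter ℕ), C < (k : ℝ) := by
    have h1 : ∀ᶠ k : ℕ in (Filter.cofinite : Filter ℕ), C < (k : ℝ) := by
      rw [Nat.cofinite_eq_atTop]
      exact tendsto_natCast_atTop_atTop.eventually_gt_atTop C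
    exact hyperfilter_le_cofinite h1
  obtain ⟨k, h1, h2, h3⟩ := (hall.and (hf.and hlarge)).exists
  have h4 := hb _ h1
  rw [h2, Complex.norm_natCast] at h4
  linarith

end Pool.H33.V
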