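import Pool.Agent.H33.V.Defs

/-! ZAR: consequences of the Zariski openness of the isomorphism class -/

open Matrix Filter Topology

namespace Pool.H33.V

/-- the isomorphism class of `μ` is Zariski open in the variety of Lie brackets -/
def OpenClass {N : ℕ} (μ : Arr ℂ N) : Prop :=
  ∃ S : Set (MvPolynomial (Fin N × Fin N × Fin N) ℂ), ∀ c : Arr ℂ N, IsLie c →
    ((¬ ∃ g : (Fin N → ℂ) ≃ₗ[ℂ] (Fin N → ℂ), ∀ x y : Fin N → ℂ, g (br μ x y) = br c (g x) (g y)) ↔
      ∀ p ∈ S, MvPolynomial.eval (fun t => c t.1 t.2.1 t.2.2) p = 0)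

theorem zar_skew {N : ℕ} {a : Arr ℂ N} (ha : IsLie a) (x y : Fin N → ℂ) :
    br a x y = - br a y x := by
  have h := ha.1 (x + y)
  rw [br_add_left, br_add_right, br_add_right, ha.1 x, ha.1 y, zero_add, add_zero] at h
  exact eq_neg_of_add_eq_zero_left h

theorem isLie_sdA {N : ℕ} (a : Arr ℂ N) (D : Matrix (Fin N) (Fin N) ℂ) (ha : IsLie a)
    (hD : IsDer a D) : IsLie (sdA a D) := by
  constructor
  · intro x
    rw [br_sdA, ha.1]
    funext k
    refine Fin.cases ?_ (fun k' => ?_) k <;> simp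
  · intro x y z
    have hneg : ∀ u v : Fin N → ℂ, br a u (-v) = - br a u v := by
      intro u v
      have := br_smul_right a (-1 : ℂ) u v
      simpa using this
    have hsub : ∀ u v w : Fin N → ℂ, br a u (v - w) = br a u v - br a u w := by
      intro u v w
      rw [sub_eq_add_neg, br_add_right, hneg, ← sub_eq_add_neg]
    have key : ∀ u v w : Fin (N + 1) → ℂ, br (sdA a D) u (br (sdA a D) v w) =
        Fin.cons 0 (br a (Fin.tail u) (br a (Fin.tail v) (Fin.tail w))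
          + v 0 • br a (Fin.tail u) (D *ᵥ Fin.tail w) - w 0 • br a (Fin.tail u) (D *ᵥ Fin.tail v)
          + u 0 • (br a (D *ᵥ Fin.tail v) (Fin.tail w) + br a (Fin.tail v) (D *ᵥ Fin.tail w))
          + (u 0 * v 0) • (D *ᵥ (D *ᵥ Fin.tail w)) - (u 0 * w 0) • (D *ᵥ (D *ᵥ Fin.tail v))) := by
      intro u v w
      rw [br_sdA a D v w, br_sdA, Fin.tail_cons, Fin.cons_zero, zero_smul, sub_zero, hsub,
        br_add_right, br_smul_right, br_smul_right, Matrix.mulVec_sub, Matrix.mulVec_add,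
        Matrix.mulVec_smul, Matrix.mulVec_smul, ← hD]
      congr 1
      rw [smul_sub, smul_add, smul_smul, smul_smul]
      abel
    rw [key, key, key]
    have hJ := ha.2 (Fin.tail x) (Fin.tail y) (Fin.tail z)
    have s1 := zar_skew ha (D *ᵥ Fin.tail y) (Fin.tail z)
    have s2 := zar_skew ha (D *ᵥ Fin.tail z) (Fin.tail x)
    have s3 := zar_skew ha (D *ᵥ Fin.tail x) (Fin.tail y)
    funext k
    refine Fin.cases ?_ (fun k' => ?_) k
    · simp
    · have hJ' := congrFun hJ k'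
      have s1' := congrFun s1 k'
      have s2' := congrFun s2 k'
      have s3' := congrFun s3 k'
      simp only [Pi.add_apply, Pi.zero_apply, Pi.neg_apply] at hJ' s1' s2' s3'
      simp only [Pi.add_apply, Fin.cons_succ, Pi.sub_apply, Pi.smul_apply, smul_eq_mul,
        Pi.zero_apply, s1', s2', s3']
      linear_combination hJ'

theorem zar_sdA_line {N : ℕ} (a : Arr ℂ N) (D D' : Matrix (Fin N) (Fin N) ℂ) (t : ℂ)
    (i j k : Fin (N + 1)) :
    sdA a (D + t • D') i j k = sdA a D i j k + t * sdA (0 : Arr ℂ N) D' i j k := by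
  refine Fin.cases ?_ (fun k' => ?_) k
  · simp [sdA]
  · refine Fin.cases ?_ (fun i' => ?_) i
    · refine Fin.cases ?_ (fun j' => ?_) j
      · simp [sdA]
      · simp [sdA]
    · refine Fin.cases ?_ (fun j' => ?_) j
      · simp [sdA]; ring
      · simp [sdA]

theorem zar_good_of_iso {N : ℕ} (μ : Arr ℂ (N + 1)) (a : Arr ℂ N)
    (D : Matrix (Fin N) (Fin N) ℂ) (ha : IsLie a) (hD : IsDer a D)
    (h : ∃ g : (Fin (N + 1) → ℂ) ≃ₗ[ℂ] (Fin (N + 1) → ℂ), ∀ x y : Fin (N + 1) → ℂ,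
      g (br μ x y) = br (sdA a D) (g x) (g y)) : Good μ a D := by
  obtain ⟨g, hg⟩ := h
  refine ⟨ha, hD, LinearMap.toMatrix' (g.symm : (Fin (N + 1) → ℂ) →ₗ[ℂ] (Fin (N + 1) → ℂ)), ?_, ?_⟩
  · rw [LinearMap.det_toMatrix']
    exact (LinearEquiv.isUnit_det' g.symm).ne_zero
  · intro x y
    rw [LinearMap.toMatrix'_mulVec, LinearMap.toMatrix'_mulVec, LinearMap.toMatrix'_mulVec]
    apply g.injective
    rw [hg]
    simp

theorem zar_iso_of_good {N : ℕ} (μ : Arr ℂ (N + 1)) (a : Arr ℂ N)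
    (D : Matrix (Fin N) (Fin N) ℂ) (hG : Good μ a D) :
    ∃ g : (Fin (N + 1) → ℂ) ≃ₗ[ℂ] (Fin (N + 1) → ℂ), ∀ x y : Fin (N + 1) → ℂ,
      g (br μ x y) = br (sdA a D) (g x) (g y) := by
  obtain ⟨-, -, P, hP, hh⟩ := hG
  have hu : IsUnit P.det := isUnit_iff_ne_zero.mpr hP
  let g : (Fin (N + 1) → ℂ) ≃ₗ[ℂ] (Fin (N + 1) → ℂ) :=
    Matrix.toLinearEquiv' P (Matrix.invertibleOfIsUnitDet P hu)
  have hgapp : ∀ x, g x = P *ᵥ x := fun x => rfl
  refine ⟨g.symm, fun x y => ?_⟩
  apply g.injective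
  rw [LinearEquiv.apply_symm_apply, hgapp, hh, ← hgapp, ← hgapp, LinearEquiv.apply_symm_apply,
    LinearEquiv.apply_symm_apply]

theorem good_cofinite {N : ℕ} (μ : Arr ℂ (N + 1)) (hO : OpenClass μ) (a : Arr ℂ N)
    (D D' : Matrix (Fin N) (Fin N) ℂ) (hG : Good μ a D) (hD' : IsDer a D') :
    {t : ℂ | ¬ Good μ a (D + t • D')}.Finite := by
  obtain ⟨S, hS⟩ := hO
  have ha := hG.1
  have hD := hG.2.1
  have hDt : ∀ t : ℂ, IsDer a (D + t • D') := fun t =>
    (DerS a).add_mem hD ((DerS a).smul_mem t hD')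
  obtain ⟨p, hpS, hp⟩ : ∃ p ∈ S, MvPolynomial.eval
      (fun t => sdA a D t.1 t.2.1 t.2.2) p ≠ 0 := by
    by_contra hcon
    push Not at hcon
    exact (hS _ (isLie_sdA a D ha hD)).2 hcon (zar_iso_of_good μ a D hG)
  let F : Fin (N + 1) × Fin (N + 1) × Fin (N + 1) → Polynomial ℂ := fun s =>
    Polynomial.C (sdA a D s.1 s.2.1 s.2.2) +
      Polynomial.X * Polynomial.C (sdA (0 : Arr ℂ N) D' s.1 s.2.1 s.2.2)
  let q : Polynomial ℂ := MvPolynomial.eval₂ Polynomial.C F p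
  have hq : ∀ t : ℂ, q.eval t = MvPolynomial.eval
      (fun s => sdA a (D + t • D') s.1 s.2.1 s.2.2) p := by
    intro t
    have h1 : q.eval t = (Polynomial.evalRingHom t) q := rfl
    rw [h1]
    change (Polynomial.evalRingHom t) (MvPolynomial.eval₂ Polynomial.C F p) = _
    rw [MvPolynomial.eval₂_comp_left, ← MvPolynomial.eval₂_id]
    congr 1
    · ext c <;> simp
    · funext s
      simp [F, zar_sdA_line]
      exact mul_comm _ _
  have hq0 : q ≠ 0 := by
    intro h0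
    have := hq 0
    rw [h0] at this
    simp only [Polynomial.eval_zero, zero_smul, add_zero] at this
    exact hp this.symm
  refine (Polynomial.finite_setOfPred_isRoot hq0).subset ?_
  intro t ht
  simp only [Set.mem_ofPred_eq] at ht ⊢
  by_contra hroot
  apply ht
  apply zar_good_of_iso μ a _ ha (hDt t)
  by_contra hno
  have := (hS _ (isLie_sdA a _ ha (hDt t))).1 hno p hpS
  rw [← hq t] at this
  exact hroot this

end Pool.H33.V
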