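import Pool.Agent.H33.V.Fld
import Pool.Agent.H33.V.Acl
import Pool.Agent.H33.V.Unb
import Pool.Agent.H33.V.Slice
import Pool.Agent.H33.V.Trans
import Pool.Agent.H33.V.LemA
import Pool.Agent.H33.V.LemB
import Pool.Agent.H33.V.Dix1
import Pool.Agent.H33.V.Dix2
import Pool.Agent.H33.V.Chart
import Pool.Agent.H33.V.Bnd
import Pool.Agent.H33.V.Finl
import Pool.Agent.H33.V.CaseB
import Pool.Agent.H33.V.Zar
import Pool.Agent.H33.V.Step1
import Pool.Agent.H33.V.G0
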