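import Pool.Agent.H33.V.KK

/-! FLD: derivations of field extensions -/

open Matrix Filter Topology

namespace Pool.H33.V

open scoped IntermediateField.algebraAdjoinAdjoin TensorProduct in
/-- a derivation of the subalgebra generated by a transcendence basis extends -/
theorem fld_extend {k K : Type} [Field k] [Field K] [Algebra k K] [CharZero k] {B : Type}
    {v : B → K} (hv : IsTranscendenceBasis k v)
    (δ : Derivation k (Algebra.adjoin k (Set.range v)) K) :
    ∃ d : Derivation k K K, ∀ a : Algebra.adjoin k (Set.range v),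
      d (algebraMap (Algebra.adjoin k (Set.range v)) K a) = δ a := by
  have h1 : Algebra.FormallyEtale (Algebra.adjoin k (Set.range v))
      (IntermediateField.adjoin k (Set.range v)) :=
    .of_isLocalization (nonZeroDivisors _)
  have hch : CharZero (IntermediateField.adjoin k (Set.range v)) :=
    charZero_of_injective_algebraMap (algebraMap k _).injective
  have hal : Algebra.IsAlgebraic (IntermediateField.adjoin k (Set.range v)) K :=
    hv.isAlgebraic_field
  have hsep : Algebra.IsSeparable (IntermediateField.adjoin k (Set.range v)) K := inferInstance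
  have h2 : Algebra.FormallyEtale (IntermediateField.adjoin k (Set.range v)) K :=
    Algebra.FormallyEtale.of_isSeparable _ K
  have h3 : Algebra.FormallyEtale (Algebra.adjoin k (Set.range v)) K :=
    .comp _ (IntermediateField.adjoin k (Set.range v)) _
  let e := KaehlerDifferential.tensorKaehlerEquivOfFormallyEtale k
    (Algebra.adjoin k (Set.range v)) K
  let L : K ⊗[Algebra.adjoin k (Set.range v)] Ω[Algebra.adjoin k (Set.range v)⁄k] →ₗ[K] K :=
    LinearMap.liftBaseChange K δ.liftKaehlerDifferential
  refine ⟨(L ∘ₗ e.symm.toLinearMap).compDer (KaehlerDifferential.D k K), fun a => ?_⟩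
  have h4 : e.symm (KaehlerDifferential.D k K (algebraMap _ K a)) =
      1 ⊗ₜ KaehlerDifferential.D k (Algebra.adjoin k (Set.range v)) a :=
    KaehlerDifferential.tensorKaehlerEquivOfFormallyEtale_symm_D_algebraMap k _ K a
  show L (e.symm (KaehlerDifferential.D k K (algebraMap _ K a))) = δ a
  rw [h4]
  simp [L]

theorem exists_derivation {k K : Type} [Field k] [Field K] [Algebra k K] [CharZero k] {f : K}
    (hf : Transcendental k f) : ∃ d : Derivation k K K, d f ≠ 0 := by
  classical
  have hs : AlgebraicIndepOn k id ({f} : Set K) := by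
    have : AlgebraicIndependent k (fun x : ({f} : Set K) => (x : K)) := by
      rw [algebraicIndependent_unique_type_iff]
      exact hf
    exact this
  obtain ⟨t, hft, ht⟩ := exists_isTranscendenceBasis_superset hs
  have hfmem : f ∈ t := hft rfl
  let b0 : t := ⟨f, hfmem⟩
  let E : MvPolynomial t k ≃ₐ[k] Algebra.adjoin k (Set.range ((↑) : t → K)) := ht.1.aevalEquiv
  let δ : Derivation k (Algebra.adjoin k (Set.range ((↑) : t → K))) K :=
    Derivation.mk' ((Algebra.linearMap (Algebra.adjoin k (Set.range ((↑) : t → K))) K).restrictScalars k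
      ∘ₗ E.toLinearMap ∘ₗ (MvPolynomial.pderiv b0 : Derivation k (MvPolynomial t k) _).toLinearMap
      ∘ₗ E.symm.toLinearMap) (by
        intro a b
        show algebraMap _ K (E (MvPolynomial.pderiv b0 (E.symm (a * b)))) =
          a • algebraMap _ K (E (MvPolynomial.pderiv b0 (E.symm b))) +
          b • algebraMap _ K (E (MvPolynomial.pderiv b0 (E.symm a)))
        rw [map_mul, Derivation.leibniz, map_add, smul_eq_mul, smul_eq_mul, map_mul, map_mul,
          AlgEquiv.apply_symm_apply, AlgEquiv.apply_symm_apply, map_add, map_mul, map_mul,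
          Algebra.smul_def, Algebra.smul_def])
  obtain ⟨d, hd⟩ := fld_extend ht δ
  refine ⟨d, ?_⟩
  have hE : E.symm ⟨f, Algebra.subset_adjoin ⟨b0, rfl⟩⟩ = MvPolynomial.X b0 := by
    rw [AlgEquiv.symm_apply_eq]
    apply Subtype.ext
    simp [E, b0]
  have h5 := hd ⟨f, Algebra.subset_adjoin ⟨b0, rfl⟩⟩
  have h6 : δ ⟨f, Algebra.subset_adjoin ⟨b0, rfl⟩⟩ = 1 := by
    show algebraMap _ K (E (MvPolynomial.pderiv b0 (E.symm ⟨f, _⟩))) = 1
    rw [hE]
    simp
  rw [h6] at h5
  have h7 : d f = 1 := h5
  rw [h7]
  exact one_ne_zero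

theorem KK_exists_derivation {f : KK} (hf : f ∉ Set.range (algebraMap ℂ KK)) :
    ∃ d : Derivation ℂ KK KK, d f ≠ 0 := by
  apply exists_derivation
  intro hal
  apply hf
  have hint : IsIntegral ℂ f := hal.isIntegral
  have hdeg := IsAlgClosed.degree_eq_one_of_irreducible ℂ (minpoly.irreducible hint)
  obtain ⟨c, hc⟩ := minpoly.mem_range_of_degree_eq_one ℂ f hdeg
  exact ⟨c, hc⟩

end Pool.H33.V
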