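import Pool.Agent.H33.V.Bnd
import Pool.Agent.H33.V.Finl
import Pool.Agent.H33.V.CaseB
import Pool.Agent.H33.V.Dix2
import Pool.Agent.H33.V.Zar
import Pool.Agent.H33.V.Step1
import Pool.Agent.H33.V.G0

/-! MAIN: the isomorphism class of a nilpotent Lie algebra of dimension at least two is not open -/

open Matrix Filter Topology

namespace Pool.H33.V

theorem exists_max_good {N : ℕ} (μ : Arr ℂ (N + 1))
    (h : ∃ (a : Arr ℂ N) (D : Matrix (Fin N) (Fin N) ℂ), Good μ a D) :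
    ∃ (a : Arr ℂ N) (D : Matrix (Fin N) (Fin N) ℂ), Good μ a D ∧
      ∀ a' D', Good μ a' D' → Module.finrank ℂ (DerS a') ≤ Module.finrank ℂ (DerS a) := by
  classical
  let P : ℕ → Prop := fun n => ∃ (a : Arr ℂ N) (D : Matrix (Fin N) (Fin N) ℂ),
    Good μ a D ∧ Module.finrank ℂ (DerS a) = n
  have hb : ∀ n, P n → n ≤ Module.finrank ℂ (Matrix (Fin N) (Fin N) ℂ) := by
    rintro n ⟨a, D, _, rfl⟩
    exact Submodule.finrank_le _
  obtain ⟨a0, D0, h0⟩ := h
  have hP : P (Nat.findGreatest P (Module.finrank ℂ (Matrix (Fin N) (Fin N) ℂ))) :=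
    Nat.findGreatest_spec (hb _ ⟨a0, D0, h0, rfl⟩) ⟨a0, D0, h0, rfl⟩
  obtain ⟨a, D, hG, hn⟩ := hP
  refine ⟨a, D, hG, fun a' D' h' => ?_⟩
  rw [hn]
  exact Nat.le_findGreatest (hb _ ⟨a', D', h', rfl⟩) ⟨a', D', h', rfl⟩

theorem no_rigid {N : ℕ} (hN : 1 ≤ N) (μ : Arr ℂ (N + 1)) (hμ : IsLie μ)
    (hnil : ∀ x, ∃ m : ℕ, ∀ y, (br μ x)^[m] y = 0) : ¬ OpenClass μ := by
  intro hO
  obtain ⟨a, Dx, hG, hmax⟩ := exists_max_good μ (exists_good μ hμ hnil)
  have hnilD : ∀ D, IsDer a D → IsNilpotent D := fun D hD =>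
    nilpotent_of_cofinite Dx D ((good_cofinite μ hO a Dx D hG hD).subset
      (fun t ht hg => ht (good_nilpotent μ hnil a _ hg)))
  have htr : ∀ D, IsDer a D → D.trace = 0 := fun D hD => trace_eq_zero D (hnilD D hD)
  obtain ⟨C, hC⟩ := lam_bounded μ hμ a htr hmax
  have hfin := lam_finite μ a C hC
  have hD0 : ∃ D0, Good μ a D0 ∧ D0 ∉ WS a := by
    by_cases h : Dx ∈ WS a
    · obtain ⟨D', hD', hD'n⟩ := dixmier hN a hG.1 hnilD 0 (DerS a).zero_mem
      have hD'W : D' ∉ WS a := fun hh => hD'n (Submodule.mem_sup_right hh)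
      have hf := (good_cofinite μ hO a Dx D' hG hD').union (Set.finite_singleton (0 : ℂ))
      obtain ⟨t, ht⟩ := hf.exists_notMem
      simp only [Set.mem_union, Set.mem_setOf_eq, Set.mem_singleton_iff, not_or, not_not] at ht
      refine ⟨Dx + t • D', ht.1, fun hh => hD'W ?_⟩
      have h1 : t • D' ∈ WS a := by
        have := (WS a).sub_mem hh h
        rwa [add_sub_cancel_left] at this
      have h2 := (WS a).smul_mem t⁻¹ h1
      rwa [smul_smul, inv_mul_cancel₀ ht.2, one_smul] at h2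
    · exact ⟨Dx, hG, h⟩
  obtain ⟨D0, hG0, hD0W⟩ := hD0
  obtain ⟨D1, hD1, hD1n⟩ := dixmier hN a hG.1 hnilD D0 hG0.2.1
  have hf := good_cofinite μ hO a D0 D1 hG0 hD1
  have hinf : {t : ℂ | Good μ a (D0 + t • D1)}.Infinite := by
    have := hf.infinite_compl
    refine this.mono fun t ht => ?_
    simpa using ht
  obtain ⟨p, q, hpq, hmem⟩ := caseB μ a D0 D1 hG0.2.1 hD1 hfin _ hinf (fun t ht => ht)
  by_cases hq : q = 0
  · subst hq
    have hp : p ≠ 0 := by tauto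
    have h2 := (WS a).smul_mem p⁻¹ hmem
    rw [zero_smul, add_zero, smul_smul, inv_mul_cancel₀ hp, one_smul] at h2
    exact hD0W h2
  · apply hD1n
    have h2 := (WS a).smul_mem q⁻¹ hmem
    have e : D1 = (-(q⁻¹ * p)) • D0 + q⁻¹ • (p • D0 + q • D1) := by
      rw [smul_add, smul_smul, smul_smul, inv_mul_cancel₀ hq, one_smul, neg_smul]
      abel
    rw [e]
    exact Submodule.add_mem_sup (Submodule.smul_mem _ _ (Submodule.mem_span_singleton_self D0)) h2

end Pool.H33.V
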